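import Pool.Agent.H82.NS.PlC

/-! # [H85 LK UNF] A uniformizer of a place at infinity

`ord_exists` (H82/NS/PlC.lean) gives `ord : L → ℤ` (multiplicative, `a ∈ O ↔ 0 ≤ ord a` for `a ≠ 0`) and `p ≠ 0` with `ord p = 1`. Take `π = p`,
`e = (-ord x).toNat`: `x ∉ O` gives `ord x ≤ -1`. `a ∈ O.nonunits`, `a ≠ 0`: `ord a ≥ 1` (`a⁻¹ ∉ O`: `ValuationSubring.mem_nonunits_iff_or` or
`inv_mem_nonunits_iff`), so `ord (a/π) ≥ 0`. `ord (x⁻¹/π^e) = 0`. `a = 0`: `0/π = 0 ∈ O`. -/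

namespace Pool.Agent.H85.LK

open Pool.Agent.H82.NS

theorem unif {k L : Type} [Field k] [Field L] [Algebra k L] {x : L} (hK : FF k x) {O : ValuationSubring L}
    (hO : Inf k x O) : ∃ (π : L) (e : ℕ), π ≠ 0 ∧ π ∈ O.nonunits ∧ (∀ a ∈ O.nonunits, a / π ∈ O) ∧ 1 ≤ e ∧
      x⁻¹ / π ^ e ∈ O ∧ π ^ e * x ∈ O := by
  obtain ⟨ord, hmul, hmem, p, hp0, hp1⟩ := ord_exists hK hO
  have h1 : ord 1 = 0 := by
    have := hmul 1 1 one_ne_zero one_ne_zero
    rw [one_mul] at this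
    omega
  have hinv : ∀ a : L, a ≠ 0 → ord a⁻¹ = - ord a := by
    intro a ha
    have := hmul a a⁻¹ ha (inv_ne_zero ha)
    rw [mul_inv_cancel₀ ha, h1] at this
    omega
  have hpow : ∀ n : ℕ, ord (p ^ n) = n := by
    intro n
    induction n with
    | zero => simpa using h1
    | succ n ih =>
      rw [pow_succ, hmul _ _ (pow_ne_zero _ hp0) hp0, ih, hp1]
      push_cast
      rfl
  have hx0 : x ≠ 0 := by
    rintro rfl
    exact hO.pole O.zero_mem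
  have hx : ord x < 0 := by
    by_contra h
    exact hO.pole ((hmem x hx0).2 (not_lt.1 h))
  have he : (((-ord x).toNat : ℕ) : ℤ) = - ord x := Int.toNat_of_nonneg (by omega)
  refine ⟨p, (-ord x).toNat, hp0, ?_, ?_, by omega, ?_, ?_⟩
  · rw [ValuationSubring.mem_nonunits_iff_or]
    right
    rw [hmem _ (inv_ne_zero hp0), hinv p hp0, hp1]
    omega
  · intro a ha
    rw [ValuationSubring.mem_nonunits_iff_or] at ha
    by_cases ha0 : a = 0
    · rw [ha0, zero_div]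
      exact O.zero_mem
    · have h2 : a⁻¹ ∉ O := ha.resolve_left ha0
      rw [hmem _ (inv_ne_zero ha0), hinv a ha0] at h2
      rw [hmem _ (div_ne_zero ha0 hp0), div_eq_mul_inv, hmul _ _ ha0 (inv_ne_zero hp0), hinv p hp0, hp1]
      omega
  · have hne : x⁻¹ / p ^ (-ord x).toNat ≠ 0 := div_ne_zero (inv_ne_zero hx0) (pow_ne_zero _ hp0)
    rw [hmem _ hne, div_eq_mul_inv, hmul _ _ (inv_ne_zero hx0) (inv_ne_zero (pow_ne_zero _ hp0)),
      hinv x hx0, hinv _ (pow_ne_zero _ hp0), hpow, he]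
    omega
  · rw [hmem _ (mul_ne_zero (pow_ne_zero _ hp0) hx0), hmul _ _ (pow_ne_zero _ hp0) hx0, hpow, he]
    omega

end Pool.Agent.H85.LK
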