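import Mathlib

/-! # [H85 LK NWT] Newton approximation at a place

`P` irreducible over `k` (characteristic zero), `P(g) ∈ m`. `P` and `P'` are coprime: `A P + B P' = 1`, so `P'(g) ∉ m` is a unit of `O`, and so is `P'(g')` for every `g' ∈ O` with `g' - g ∈ m`. Induction on `N`
(`N = 0`: `g' = g`; `N = 1`: `g' = g`, `huni`): let `P(g') = π^N a`, `a ∈ O`, `N ≥ 1`. Put `g'' = g' - P(g')/P'(g')`: `P(g'') = P(g') - P'(g') (P(g')/P'(g')) + (P(g')/P'(g'))^2 (element of O)` (Taylor: `Polynomial.eval_add_of_sq_eq_zero`-like or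
`Polynomial.evalSubFactor`, `(P.eval (a+b) = P.eval a + P'.eval a * b + c * b^2`: `Polynomial.binomExpansion`), in `π^(2N) O`, `2N ≥ N+1`. -/

namespace Pool.Agent.H85.LK

private theorem nwt_O {R : Type} [CommRing R] [IsLocalRing R] {p G q : R} {Q : Polynomial R}
    (hp : p ∈ IsLocalRing.maximalIdeal R) (hsep : Q.Separable) (hq : Q.eval G = p * q) (N : ℕ) :
    ∃ G' : R, G' - G ∈ IsLocalRing.maximalIdeal R ∧ p ^ (N + 1) ∣ Q.eval G' := by
  induction N with
  | zero => exact ⟨G, by rw [sub_self]; exact Ideal.zero_mem _, by rw [zero_add, pow_one, hq]; exact Dvd.intro _ rfl⟩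
  | succ N ih =>
    obtain ⟨G', h1, a, ha⟩ := ih
    have h2 : Q.eval G' ∈ IsLocalRing.maximalIdeal R := by
      rw [ha, pow_succ, mul_assoc]
      exact Ideal.mul_mem_left _ _ (Ideal.mul_mem_right _ _ hp)
    obtain ⟨A, B, hAB⟩ := hsep
    have h3 := congrArg (Polynomial.eval G') hAB
    rw [Polynomial.eval_add, Polynomial.eval_mul, Polynomial.eval_mul, Polynomial.eval_one] at h3
    have h4 : IsUnit ((Polynomial.derivative Q).eval G') := by
      by_contra hcon
      have h5 : (Polynomial.derivative Q).eval G' ∈ IsLocalRing.maximalIdeal R := hcon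
      have h6 : (1 : R) ∈ IsLocalRing.maximalIdeal R := by
        rw [← h3]
        exact Ideal.add_mem _ (Ideal.mul_mem_left _ _ h2) (Ideal.mul_mem_left _ _ h5)
      exact h6 isUnit_one
    obtain ⟨u, hu⟩ := h4.exists_right_inv
    obtain ⟨c, hc⟩ := Q.binomExpansion G' (-(Q.eval G' * u))
    refine ⟨G' + -(Q.eval G' * u), ?_, ?_⟩
    · have h5 : G' + -(Q.eval G' * u) - G = (G' - G) - Q.eval G' * u := by ring
      rw [h5]
      exact Ideal.sub_mem _ h1 (Ideal.mul_mem_right _ _ h2)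
    · rw [hc]
      have h5 : Q.eval G' + (Polynomial.derivative Q).eval G' * -(Q.eval G' * u) + c * (-(Q.eval G' * u)) ^ 2 =
          p ^ (N + 1 + 1) * (p ^ N * (c * a ^ 2 * u ^ 2)) := by
        have h6 : Q.eval G' + (Polynomial.derivative Q).eval G' * -(Q.eval G' * u) = 0 := by
          have h7 : Q.eval G' + (Polynomial.derivative Q).eval G' * -(Q.eval G' * u) =
              Q.eval G' * (1 - (Polynomial.derivative Q).eval G' * u) := by ring
          rw [h7, hu, sub_self, mul_zero]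
        rw [h6, ha]
        ring
      rw [h5]
      exact Dvd.intro _ rfl

theorem nwt {k L : Type} [Field k] [CharZero k] [Field L] [Algebra k L] {O : ValuationSubring L}
    (hO : ∀ c : k, algebraMap k L c ∈ O) {π : L} (hπ0 : π ≠ 0) (hπ : π ∈ O.nonunits)
    (huni : ∀ a ∈ O.nonunits, a / π ∈ O) {g : L} (hg : g ∈ O) {P : Polynomial k} (hP : Irreducible P)
    (hPg : Polynomial.aeval g P ∈ O.nonunits) (N : ℕ) :
    ∃ g' ∈ O, g' - g ∈ O.nonunits ∧ Polynomial.aeval g' P / π ^ N ∈ O := by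
  have hιex : ∃ ι : k →+* O, ∀ c, ((ι c : O) : L) = algebraMap k L c :=
    ⟨(algebraMap k L).codRestrict O.toSubring hO, fun c => rfl⟩
  obtain ⟨ι, hι⟩ := hιex
  have hev : ∀ G : O, ((Polynomial.eval G (P.map ι) : O) : L) = Polynomial.aeval (G : L) P := by
    intro G
    rw [Polynomial.eval_map, Polynomial.aeval_def]
    have h1 := Polynomial.hom_eval₂ P ι O.subtype G
    have h2 : O.subtype.comp ι = algebraMap k L := RingHom.ext fun c => hι c
    rw [h2] at h1
    exact h1
  have hπO : π ∈ O := O.nonunits_subset hπ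
  have hm : ∀ a : O, a ∈ IsLocalRing.maximalIdeal O ↔ (a : L) ∈ O.nonunits := fun a =>
    (ValuationSubring.coe_mem_nonunits_iff (A := O)).symm
  obtain ⟨G', h1, a, ha⟩ := nwt_O (R := O) (p := ⟨π, hπO⟩) (G := ⟨g, hg⟩)
    (q := ⟨Polynomial.aeval g P / π, huni _ hPg⟩) (Q := P.map ι) ((hm _).2 hπ) (hP.separable.map)
    (by
      apply Subtype.ext
      rw [hev]
      change Polynomial.aeval g P = π * (Polynomial.aeval g P / π)
      rw [mul_div_cancel₀ _ hπ0]) N
  refine ⟨G', G'.2, ?_, ?_⟩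
  · exact (hm _).1 h1
  · rw [← hev, ha]
    have h2 : (((⟨π, hπO⟩ : O) ^ (N + 1) * a : O) : L) = π ^ N * (π * (a : L)) := by
      change π ^ (N + 1) * (a : L) = _
      ring
    rw [h2, mul_div_cancel_left₀ _ (pow_ne_zero _ hπ0)]
    exact O.mul_mem _ _ hπO a.2

end Pool.Agent.H85.LK
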