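import Pool.Agent.H85.LK.Fdi
import Pool.Agent.H85.LK.Unf
import Pool.Agent.H12.ON.Val

/-! # [H85 LK RSM] The residue field at the place of a smooth curve with irreducible leading form

`Tp k n F`: `f(1,T) = ftop n F` is irreducible of degree `n ≥ 3`, `F` has degree `≤ n`. `F(X,Y) = 0`, `L = k(X,Y)`.
* `ff_sm`: `Y` is a zero of the polynomial `F(X, ·)` over `k(X)` of degree `n` (the coefficient of `Y^n` is `F.coeff (single 1 n)` = the leading coefficient of `ftop n F`, not zero; `totalDegree ≤ n`), so `[L : k(X)] ≤ n` (`IntermediateField.adjoin` of one integral element over `k(X)`;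
`L = k(X)(Y)` from `hL`).
* `res_sm`: `O = V ∩ L`, `Inf k X O`; `w = Y/X`, `w - θ ∈ m_V`, so `w ∈ V` (`θ` algebraic: `val_alg`). Suppose `z ∈ L ∩ V` is not congruent to any `A(θ)`. Then `1, w, …, w^(n-1), z` are independent over `k` modulo `m`: let `∑_{i<n} c_i w^i + c z ∈ m`; `A = ∑ c_i X^i`; if `c ≠ 0`: `z ≡ -(1/c) A(θ)`, excluded; if `c = 0`:
`A(θ) ∈ m_V`, algebraic, so `A(θ) = 0` (`val_unit`), `natDegree A < n`, `ftop n F` is (up to a constant) the minimal polynomial of `θ`, so `A = 0`. `fund` with `unif` (`s = n + 1`, `e ≥ 1`): `n + 1 ≤ e (n+1) ≤ [L : k(X)] ≤ n`: contradiction. -/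

namespace Pool.Agent.H85.LK

open Pool.Agent.H82.NS Pool.Agent.H12.ON IntermediateField

private theorem rs_lead {k : Type} [Field k] {n : ℕ} {F : MvPolynomial (Fin 2) k} (hF : Tp k n F) :
    F.coeff (Finsupp.single 1 n) ≠ 0 := by
  have h1 : (ftop n F).leadingCoeff ≠ 0 := Polynomial.leadingCoeff_ne_zero.2 hF.irr.ne_zero
  unfold Polynomial.leadingCoeff at h1
  have h2 : (ftop n F).coeff n = F.coeff (Finsupp.single 0 (n - n) + Finsupp.single 1 n) := by
    unfold ftop
    rw [Polynomial.finsetSum_coeff]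
    rw [Finset.sum_eq_single n]
    · rw [Polynomial.coeff_monomial, if_pos rfl]
    · intro b _ hb
      rw [Polynomial.coeff_monomial, if_neg hb]
    · intro h
      exact absurd (Finset.mem_range.2 (Nat.lt_succ_self n)) h
  rw [hF.top, h2] at h1
  simpa using h1

private theorem rs_supp {k : Type} [Field k] {n : ℕ} {F : MvPolynomial (Fin 2) k} (hF : Tp k n F)
    {m : Fin 2 →₀ ℕ} (hm : m ∈ F.support) : m 0 + m 1 ≤ n := by
  have h5 := MvPolynomial.le_totalDegree hm
  rw [Finsupp.sum_fintype _ _ (fun _ => rfl), Fin.sum_univ_two] at h5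
  exact h5.trans hF.deg

/-- `F(x, ·)` as a polynomial over `k(x)` -/
private theorem rs_pol {k M : Type} [Field k] [Field M] [Algebra k M] {n : ℕ} {F : MvPolynomial (Fin 2) k}
    (hF : Tp k n F) {x y : M} (h1 : MvPolynomial.aeval ![x, y] F = 0) :
    ∃ p : Polynomial k⟮x⟯, p ≠ 0 ∧ p.natDegree ≤ n ∧ Polynomial.aeval y p = 0 := by
  classical
  obtain ⟨p, hp⟩ : ∃ p : Polynomial k⟮x⟯, p = ∑ m ∈ F.support, Polynomial.monomial (m 1)
    (algebraMap k k⟮x⟯ (F.coeff m) * (AdjoinSimple.gen k x) ^ (m 0)) := ⟨_, rfl⟩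
  refine ⟨p, ?_, ?_, ?_⟩
  · intro h0
    have h2 : p.coeff n = algebraMap k k⟮x⟯ (F.coeff (Finsupp.single 1 n)) := by
      rw [hp, Polynomial.finsetSum_coeff, Finset.sum_eq_single (Finsupp.single 1 n)]
      · rw [Polynomial.coeff_monomial, if_pos (by simp)]
        simp
      · intro m hm hne
        rw [Polynomial.coeff_monomial, if_neg]
        intro h3
        apply hne
        have h4 : m 0 + m 1 ≤ n := rs_supp hF hm
        ext i
        fin_cases i
        · simp
          omega
        · simp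
          omega
      · intro hm
        rw [MvPolynomial.notMem_support_iff] at hm
        rw [hm]
        simp
    rw [h0, Polynomial.coeff_zero] at h2
    exact rs_lead hF ((map_eq_zero (algebraMap k k⟮x⟯)).1 h2.symm)
  · rw [hp]
    refine Polynomial.natDegree_sum_le_of_forall_le _ _ fun m hm => ?_
    refine (Polynomial.natDegree_monomial_le _).trans ?_
    have h4 : m 0 + m 1 ≤ n := rs_supp hF hm
    omega
  · rw [hp, map_sum]
    rw [MvPolynomial.aeval_def, MvPolynomial.eval₂_eq'] at h1
    rw [← h1]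
    refine Finset.sum_congr rfl fun m _ => ?_
    rw [Polynomial.aeval_monomial, Fin.prod_univ_two, map_mul, map_pow, AdjoinSimple.algebraMap_gen,
      ← IsScalarTower.algebraMap_apply, mul_assoc]
    rfl

theorem ff_sm {k L : Type} [Field k] [Field L] [Algebra k L] {n : ℕ} {F : MvPolynomial (Fin 2) k}
    (hF : Tp k n F) {X Y : L} (h0 : MvPolynomial.aeval ![X, Y] F = 0) (hX : Transcendental k X)
    (hL : IntermediateField.adjoin k {X, Y} = ⊤) : FF k X ∧ Module.finrank k⟮X⟯ L ≤ n := by
  obtain ⟨p, hp0, hpn, hpY⟩ := rs_pol hF h0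
  have halg : IsAlgebraic k⟮X⟯ Y := ⟨p, hp0, hpY⟩
  obtain ⟨N, hN⟩ : ∃ N : IntermediateField k⟮X⟯ L, N = IntermediateField.adjoin k⟮X⟯ ({Y} : Set L) := ⟨_, rfl⟩
  have htop : N = ⊤ := by
    rw [eq_top_iff]
    intro z _
    have hXN : X ∈ N := N.algebraMap_mem (AdjoinSimple.gen k X)
    have hYN : Y ∈ N := by
      rw [hN]
      exact IntermediateField.subset_adjoin _ _ (Set.mem_singleton Y)
    have h3 : IntermediateField.adjoin k {X, Y} ≤ N.restrictScalars k := by
      rw [IntermediateField.adjoin_le_iff]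
      intro w hw
      rw [SetLike.mem_coe, IntermediateField.mem_restrictScalars]
      rcases hw with hw | hw
      · rw [hw]
        exact hXN
      · rw [Set.mem_singleton_iff.1 hw]
        exact hYN
    rw [hL] at h3
    exact (IntermediateField.mem_restrictScalars k).1 (h3 (IntermediateField.mem_top (x := z)))
  have hfin : FiniteDimensional k⟮X⟯ N := by
    rw [hN]
    exact IntermediateField.adjoin.finiteDimensional halg.isIntegral
  have hdeg : Module.finrank k⟮X⟯ N ≤ n := by
    rw [hN, IntermediateField.adjoin.finrank halg.isIntegral]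
    exact (Polynomial.natDegree_le_of_dvd (minpoly.dvd _ _ hpY) hp0).trans hpn
  rw [htop] at hfin hdeg
  rw [IntermediateField.finrank_top'] at hdeg
  exact ⟨⟨hX, Module.Finite.equiv (IntermediateField.topEquiv (F := k⟮X⟯) (E := L)).toLinearEquiv⟩, hdeg⟩

theorem res_sm {k L Ω : Type} [Field k] [CharZero k] [Field L] [Field Ω] [Algebra k L] [Algebra k Ω] [Algebra L Ω]
    [IsScalarTower k L Ω] {n : ℕ} {F : MvPolynomial (Fin 2) k} (hF : Tp k n F) {X Y : L}
    (h0 : MvPolynomial.aeval ![X, Y] F = 0) (hX : Transcendental k X)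
    (hL : IntermediateField.adjoin k {X, Y} = ⊤) {V : ValuationSubring Ω} (hV : Ov k V)
    (hXV : algebraMap L Ω X ∉ V) {θ : Ω} (hθ : Polynomial.aeval θ (ftop n F) = 0)
    (hn : algebraMap L Ω (Y / X) - θ ∈ V.nonunits) (z : L) (hz : algebraMap L Ω z ∈ V) :
    ∃ A : Polynomial k, algebraMap L Ω z - Polynomial.aeval θ A ∈ V.nonunits := by
  classical
  by_contra hcon
  obtain ⟨hK, hrk⟩ := ff_sm hF h0 hX hL
  have hbase : ∀ c : k, algebraMap L Ω (algebraMap k L c) = algebraMap k Ω c := fun c =>
    (IsScalarTower.algebraMap_apply k L Ω c).symm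
  obtain ⟨O, hO⟩ : ∃ O : ValuationSubring L, O = V.comap (algebraMap L Ω) := ⟨_, rfl⟩
  have hOm : ∀ a : L, a ∈ O ↔ algebraMap L Ω a ∈ V := by
    intro a
    rw [hO]
    exact Iff.rfl
  have hOn : ∀ a : L, a ∈ O.nonunits → algebraMap L Ω a ∈ V.nonunits := by
    intro a ha
    rw [ValuationSubring.mem_nonunits_iff_or] at ha ⊢
    rcases ha with ha | ha
    · left
      rw [ha, map_zero]
    · right
      rw [← map_inv₀]
      exact fun h => ha ((hOm _).2 h)
  have hinf : Inf k X O := by
    refine ⟨fun c => (hOm _).2 ?_, fun h => hXV ((hOm _).1 h)⟩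
    rw [hbase]
    exact hV c
  have hft0 : ftop n F ≠ 0 := hF.irr.ne_zero
  have hθa : IsAlgebraic k θ := ⟨ftop n F, hft0, hθ⟩
  have hθV : θ ∈ V := val_alg hV hθa
  obtain ⟨w, hw⟩ : ∃ w : Ω, w = algebraMap L Ω (Y / X) := ⟨_, rfl⟩
  rw [← hw] at hn
  have hwv : V.valuation (w - θ) < 1 := (ValuationSubring.mem_nonunits_iff _).1 hn
  have hwV : w ∈ V := by
    have h1 : w - θ ∈ V := (V.valuation_le_one_iff _).1 hwv.le
    have h2 := add_mem h1 hθV
    rwa [sub_add_cancel] at h2
  have hpow : ∀ i : ℕ, V.valuation (w ^ i - θ ^ i) < 1 := by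
    intro i
    rw [← geom_sum₂_mul, map_mul, mul_comm]
    refine mul_lt_one_of_lt_of_le hwv ((V.valuation_le_one_iff _).2 ?_)
    exact sum_mem fun j _ => mul_mem (pow_mem hwV _) (pow_mem hθV _)
  have hsum : ∀ a : Fin n → k, V.valuation ((∑ i, algebraMap k Ω (a i) * w ^ (i : ℕ)) -
      ∑ i, algebraMap k Ω (a i) * θ ^ (i : ℕ)) < 1 := by
    intro a
    rw [← Finset.sum_sub_distrib]
    refine Valuation.map_sum_lt _ one_ne_zero fun i _ => ?_
    rw [← mul_sub, map_mul, mul_comm]
    exact mul_lt_one_of_lt_of_le (hpow _) ((V.valuation_le_one_iff _).2 (hV _))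
  obtain ⟨A, hA⟩ : ∃ A : (Fin n → k) → Polynomial k, A = fun a =>
      ∑ i : Fin n, Polynomial.monomial (i : ℕ) (a i) := ⟨_, rfl⟩
  have hAθ : ∀ a : Fin n → k, Polynomial.aeval θ (A a) = ∑ i, algebraMap k Ω (a i) * θ ^ (i : ℕ) := by
    intro a
    rw [hA, map_sum]
    exact Finset.sum_congr rfl fun i _ => Polynomial.aeval_monomial _
  have hAc : ∀ (a : Fin n → k) (i : Fin n), (A a).coeff i = a i := by
    intro a i
    rw [hA, Polynomial.finsetSum_coeff, Finset.sum_eq_single i]
    · rw [Polynomial.coeff_monomial, if_pos rfl]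
    · intro j _ hj
      rw [Polynomial.coeff_monomial, if_neg]
      exact fun h => hj (Fin.ext h)
    · intro h
      exact absurd (Finset.mem_univ i) h
  have hAd : ∀ a : Fin n → k, (A a).natDegree < n := by
    intro a
    have h3 := hF.n3
    have h4 : (A a).natDegree ≤ n - 1 := by
      rw [hA]
      refine Polynomial.natDegree_sum_le_of_forall_le _ _ fun i _ => ?_
      refine (Polynomial.natDegree_monomial_le _).trans ?_
      have := i.2
      omega
    omega
  have hmin : (minpoly k θ).natDegree = n := by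
    have h1 : minpoly k θ ∣ ftop n F := minpoly.dvd _ _ hθ
    have h2 : Irreducible (minpoly k θ) := minpoly.irreducible hθa.isIntegral
    have h3 : Associated (minpoly k θ) (ftop n F) := h2.associated_of_dvd hF.irr h1
    rw [← hF.top]
    exact Polynomial.natDegree_eq_of_degree_eq (Polynomial.degree_eq_degree_of_associated h3)
  obtain ⟨π, e, hπ0, hπ, -, he, hx1, hx2⟩ := unif hK hinf
  have key : e * (n + 1) ≤ Module.finrank k⟮X⟯ L := by
    refine fund hK hinf hπ0 hπ he hx1 hx2 (s := n + 1)
      (z := Fin.snoc (α := fun _ => L) (fun i : Fin n => (Y / X) ^ (i : ℕ)) z) ?_ ?_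
    · intro i
      refine Fin.lastCases ?_ (fun i => ?_) i
      · rw [Fin.snoc_last]
        exact (hOm _).2 hz
      · rw [Fin.snoc_castSucc]
        refine pow_mem ((hOm _).2 ?_) _
        rw [← hw]
        exact hwV
    · intro c hc
      rw [Fin.sum_univ_castSucc, Fin.snoc_last] at hc
      simp only [Fin.snoc_castSucc] at hc
      have hc2 := hOn _ hc
      obtain ⟨a, ha⟩ : ∃ a : Fin n → k, a = fun i => c i.castSucc := ⟨_, rfl⟩
      have hc3 : V.valuation ((∑ i, algebraMap k Ω (a i) * w ^ (i : ℕ)) +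
          algebraMap k Ω (c (Fin.last n)) * algebraMap L Ω z) < 1 := by
        rw [ValuationSubring.mem_nonunits_iff] at hc2
        rw [map_add, map_mul, map_sum, hbase] at hc2
        simp only [map_mul, map_pow, hbase, ← hw] at hc2
        rw [ha]
        exact hc2
      have hc4 : V.valuation (Polynomial.aeval θ (A a) +
          algebraMap k Ω (c (Fin.last n)) * algebraMap L Ω z) < 1 := by
        have h1 : Polynomial.aeval θ (A a) + algebraMap k Ω (c (Fin.last n)) * algebraMap L Ω z =
            ((∑ i, algebraMap k Ω (a i) * w ^ (i : ℕ)) +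
              algebraMap k Ω (c (Fin.last n)) * algebraMap L Ω z) -
            ((∑ i, algebraMap k Ω (a i) * w ^ (i : ℕ)) -
              ∑ i, algebraMap k Ω (a i) * θ ^ (i : ℕ)) := by
          rw [hAθ]
          ring
        rw [h1]
        exact Valuation.map_sub_lt _ hc3 (hsum a)
      have hlast : c (Fin.last n) = 0 := by
        by_contra hne
        apply hcon
        refine ⟨Polynomial.C (-(c (Fin.last n))⁻¹) * A a, ?_⟩
        rw [ValuationSubring.mem_nonunits_iff]
        have hne' : algebraMap k Ω (c (Fin.last n)) ≠ 0 := (map_ne_zero _).2 hne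
        have h1 : algebraMap L Ω z - Polynomial.aeval θ (Polynomial.C (-(c (Fin.last n))⁻¹) * A a) =
            algebraMap k Ω (c (Fin.last n))⁻¹ * (Polynomial.aeval θ (A a) +
          algebraMap k Ω (c (Fin.last n)) * algebraMap L Ω z) := by
          rw [map_mul, Polynomial.aeval_C, map_neg, map_inv₀]
          field_simp
          ring
        rw [h1, map_mul, mul_comm]
        exact mul_lt_one_of_lt_of_le hc4 ((V.valuation_le_one_iff _).2 (hV _))
      rw [hlast, map_zero, zero_mul, add_zero] at hc4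
      have hA0 : Polynomial.aeval θ (A a) = 0 := by
        by_contra hne
        refine val_unit hV ?_ hne ((ValuationSubring.mem_nonunits_iff _).2 hc4)
        rw [hAθ]
        have hint : IsIntegral k θ := hθa.isIntegral
        have h1 : IsIntegral k (∑ i, algebraMap k Ω (a i) * θ ^ (i : ℕ)) :=
          IsIntegral.sum _ fun i _ => isIntegral_algebraMap.mul (hint.pow _)
        exact h1.isAlgebraic
      have hA1 : A a = 0 := by
        by_contra hne
        have h1 := Polynomial.natDegree_le_of_dvd (minpoly.dvd _ _ hA0) hne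
        have h2 := hAd a
        omega
      funext i
      refine Fin.lastCases ?_ (fun i => ?_) i
      · exact hlast
      · have h1 := hAc a i
        rw [hA1, Polynomial.coeff_zero, ha] at h1
        exact h1.symm
  have h1 : 1 * (n + 1) ≤ e * (n + 1) := Nat.mul_le_mul_right _ he
  omega

end Pool.Agent.H85.LK
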