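import Pool.Agent.H12.ON.Tir
import Pool.Agent.H12.ON.Deh

/-! # [H85 LK TIF] Irreducible leading form in the ultrapower

`F N` have degree `≤ n`, irreducible leading forms over `ℚ`. `Fh` = their class. `homogeneousComponent n (map Fh)` over `QS` is irreducible by `tir` (`Th` of it is the class of the leading forms over `ℚ`: `th_of`, coefficients `IsU`), so `homogeneousComponent n Fh` is irreducible over `Q0 H`
(`map` to `QS` is injective and reflects units), and `deh` (H12/ON/Deh.lean). The header of H12/ON/Trf.lean describes the same step (there with `Good`); if it is proved there first, use it. -/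

namespace Pool.Agent.H85.LK

open MvPolynomial Pool.Agent.H82.NS Pool.Agent.H12.ON

private theorem map_hc {A B : Type} [CommRing A] [CommRing B] (j : A →+* B) (n : ℕ) (P : MvPolynomial (Fin 2) A) :
    homogeneousComponent n (map j P) = map j (homogeneousComponent n P) := by
  ext m
  rw [coeff_homogeneousComponent, coeff_map, coeff_map, coeff_homogeneousComponent]
  split_ifs
  · rfl
  · rw [map_zero]

private theorem unit_of_map {A B : Type} [Field A] [Field B] (j : A →+* B) {a : MvPolynomial (Fin 2) A}
    (h : IsUnit (map j a)) : IsUnit a := by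
  rw [isUnit_iff_eq_C_of_isReduced] at h ⊢
  obtain ⟨r, hr, hm⟩ := h
  have h1 : a = C (coeff 0 a) := by
    apply map_injective j j.injective
    rw [map_C, hm]
    have h2 := congrArg (coeff 0) hm
    rw [coeff_map, coeff_C, if_pos rfl] at h2
    rw [h2]
  refine ⟨coeff 0 a, ?_, h1⟩
  rw [isUnit_iff_ne_zero]
  intro h0
  have h2 := congrArg (coeff 0) hm
  rw [coeff_map, coeff_C, if_pos rfl, h0, map_zero] at h2
  rw [← h2] at hr
  exact not_isUnit_zero hr

private theorem irr_of_map {A B : Type} [Field A] [Field B] (j : A →+* B) {a : MvPolynomial (Fin 2) A}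
    (h : Irreducible (map j a)) : Irreducible a := by
  constructor
  · intro hu
    exact h.not_isUnit (hu.map (MvPolynomial.map j))
  · intro b c hbc
    have h1 : map j a = map j b * map j c := by rw [hbc, map_mul]
    rcases h.isUnit_or_isUnit h1 with h2 | h2
    · exact Or.inl (unit_of_map j h2)
    · exact Or.inr (unit_of_map j h2)

private theorem th_lead {H : ℕ → ℕ} {n : ℕ} {F : ℕ → MvPolynomial (Fin 2) ℤ}
    {Fh : MvPolynomial (Fin 2) (Q0 H)} (hU : IsU H n F Fh) :
    Th ℚ (homogeneousComponent n (map (algebraMap (Q0 H) QS) Fh)) =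
      cl (fun N => map (Int.castRingHom ℚ) (homogeneousComponent n (F N))) := by
  refine th_of (n := n) (fun N => ?_) fun m => ?_
  · rw [← map_hc]
    exact (homogeneousComponent_isHomogeneous n _).totalDegree_le
  · rw [coeff_homogeneousComponent]
    split_ifs with hm
    · rw [coeff_map]
      refine (hU.2 m).trans ?_
      congr 1
      funext N
      rw [coeff_map, coeff_homogeneousComponent, if_pos hm]
      rfl
    · rw [cl_zero]
      congr 1
      funext N
      rw [coeff_map, coeff_homogeneousComponent, if_neg hm, map_zero]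

theorem tif {H : ℕ → ℕ} {n : ℕ} (hn : 3 ≤ n) {F : ℕ → MvPolynomial (Fin 2) ℤ} (hd : ∀ N, (F N).totalDegree ≤ n)
    (hF : ∀ N, Irreducible (map (Int.castRingHom ℚ) (homogeneousComponent n (F N))))
    {Fh : MvPolynomial (Fin 2) (Q0 H)} (hU : IsU H n F Fh) : Tp (Q0 H) n Fh := by
  have h1 : Irreducible (homogeneousComponent n (map (algebraMap (Q0 H) QS) Fh)) := tir (th_lead hU) hF
  rw [map_hc] at h1
  obtain ⟨d1, d2⟩ := deh (by omega) (irr_of_map _ h1)
  exact ⟨hn, hU.1, d1, d2⟩

end Pool.Agent.H85.LK
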