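import Pool.Agent.H85.LK.Lnk
import Pool.Agent.H85.LK.Rsm
import Pool.Agent.H85.LK.Tif
import Pool.Agent.H12.ON.Trf
import Pool.Agent.H12.ON.Zer
import Pool.Agent.H82.NS.Q0alg

/-! # [H85 LK SYS] The link theorem for sequences of points of smooth curves

`H` = a sequence with `2 ≤ H N`, coefficients of `F N` at most `H N`, `|a N| ≤ H N`, `a N ≠ 0`. `θ N` a real zero of `ftop n (F N)`, the point `(x N, y N)` is near `θ N` and larger than `(H N)^N`. `t N ∈ AA` is `θ N` as an algebraic number.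
(1) `Fh`: `exists_isu`; `Tp (Q0 H) n Fh`: `tif`. `X₀ = cl x`, `Y₀ = cl y` in `QS`, `L = adjoin (Q0 H) {X₀, Y₀}`, `Fh(X₀,Y₀) = 0` (`th_eval`, `eval_ult` or `zer_pt` of H12/ON/Zer.lean). `|θ N| ≤ (n+1) H N`-like bound (root bound: leading coefficient of `ftop n (F N)` is a nonzero integer) and `Near`: `|y| ≤ |θ||x| + |x|^(1/2)`, so
`|x N| ≥ max(|x|,|y|)/(n H N + 2) > (H N + 2)^C` almost always for every `C`: `X₀ ∉ V0 H`; so `X₀` is transcendental over `Q0 H` (`q0_alg`). `y/x - θ`: absolute value at most `|x|^(-1/2)`: `algebraMap (Y₀/X₀) - cl t ∈ (VA H).nonunits` (`va_non`). `aeval (cl t) (ftop n Fh) = 0`: `cl` of the values `ftop n (F N) (θ N) = 0`; so `cl t` is algebraic.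
(2) `res_sm` gives `hres` of `lk` for `L`. (3) `X = Y₀ + X₀^(n+1)`, `Y = a X₀`, `a = cl a ∈ Q0 H` not zero: `adjoin {X, Y} = adjoin {X₀, Y₀}`; `X ∉ V0 H` (`|y + x^(n+1)| ≥ |x|^(n+1) - |y| ≥ |x|`); `FF (Q0 H) X`: `ff_sm` gives `FF (Q0 H) X₀`; `ff_of_tr` (H82/NS/PlA.lean). (4) `lk`.
(`hB` is for the point `(y + x^(n+1), a x)`.) -/

namespace Pool.Agent.H85.LK

open MvPolynomial Pool.Agent.H82.NS Pool.Agent.H87.SA2 Pool.Agent.H34.AC Pool.Agent.H12.ON Filter

/-- the coefficients of `ftop` -/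
private theorem sys_coeff {k : Type} [CommRing k] (n : ℕ) (P : MvPolynomial (Fin 2) k) (j : ℕ) (hj : j ≤ n) :
    (ftop n P).coeff j = P.coeff (Finsupp.single 0 (n - j) + Finsupp.single 1 j) := by
  unfold ftop
  rw [Polynomial.finset_sum_coeff, Finset.sum_eq_single j]
  · simp
  · intro b _ hb
    rw [Polynomial.coeff_monomial, if_neg hb]
  · intro h
    exact absurd (Finset.mem_range.2 (Nat.lt_succ_of_le hj)) h

private theorem sys_deg {k : Type} [CommRing k] (n : ℕ) (P : MvPolynomial (Fin 2) k) :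
    (ftop n P).natDegree ≤ n := by
  unfold ftop
  refine Polynomial.natDegree_sum_le_of_forall_le _ _ fun j hj => ?_
  exact (Polynomial.natDegree_monomial_le _).trans (by simpa [Nat.lt_succ_iff] using hj)

private theorem sys_map {A B : Type} [CommRing A] [CommRing B] (f : A →+* B) (n : ℕ)
    (P : MvPolynomial (Fin 2) A) : ftop n (map f P) = (ftop n P).map f := by
  unfold ftop
  rw [Polynomial.map_sum]
  refine Finset.sum_congr rfl fun j _ => ?_
  rw [Polynomial.map_monomial, coeff_map]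

/-- the leading coefficient of `ftop` is not zero -/
private theorem sys_lead {n : ℕ} (hn : 3 ≤ n) {F : MvPolynomial (Fin 2) ℤ}
    (hl : Irreducible (map (Int.castRingHom ℚ) (homogeneousComponent n F))) :
    (ftop n F).coeff n ≠ 0 := by
  have h1 : homogeneousComponent n (map (Int.castRingHom ℚ) F) =
      map (Int.castRingHom ℚ) (homogeneousComponent n F) := by
    ext m
    rw [coeff_homogeneousComponent, coeff_map, coeff_map, coeff_homogeneousComponent]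
    split_ifs
    · rfl
    · rw [map_zero]
  have h2 := deh (k := ℚ) (n := n) (by omega) (F := map (Int.castRingHom ℚ) F) (by rw [h1]; exact hl)
  intro h3
  have h4 : (ftop n (map (Int.castRingHom ℚ) F)).coeff n ≠ 0 := by
    have h5 : (ftop n (map (Int.castRingHom ℚ) F)).leadingCoeff ≠ 0 :=
      Polynomial.leadingCoeff_ne_zero.2 h2.2.ne_zero
    rwa [Polynomial.leadingCoeff, h2.1] at h5
  apply h4
  rw [sys_map, Polynomial.coeff_map, h3, map_zero]

/-- the root bound -/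
private theorem sys_root {n : ℕ} (hn : 3 ≤ n) {F : MvPolynomial (Fin 2) ℤ}
    (hl : Irreducible (map (Int.castRingHom ℚ) (homogeneousComponent n F))) {b : ℕ}
    (hc : ∀ m, |F.coeff m| ≤ (b : ℤ)) {θ : ℝ} (hθ : Polynomial.aeval θ (ftop n F) = 0) :
    |θ| ≤ (b : ℝ) + 1 := by
  obtain ⟨p, hp⟩ : ∃ p : Polynomial ℝ, p = (ftop n F).map (Int.castRingHom ℝ) := ⟨_, rfl⟩
  have hlead := sys_lead hn hl
  have hcoef : ∀ j, p.coeff j = (((ftop n F).coeff j : ℤ) : ℝ) := by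
    intro j
    rw [hp, Polynomial.coeff_map]
    rfl
  have hdeg : p.natDegree = n := by
    apply le_antisymm
    · rw [hp]
      exact Polynomial.natDegree_map_le.trans (sys_deg n F)
    · apply Polynomial.le_natDegree_of_ne_zero
      rw [hcoef]
      exact_mod_cast hlead
  have hp0 : p ≠ 0 := by
    intro h0
    rw [h0, Polynomial.natDegree_zero] at hdeg
    omega
  have hroot : p.IsRoot θ := by
    rw [Polynomial.IsRoot.def, hp, Polynomial.eval_map]
    have h1 := hθ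
    rw [Polynomial.aeval_def] at h1
    exact h1
  have h1 := hroot.norm_lt_cauchyBound hp0
  have h2 : (p.cauchyBound : ℝ) ≤ (b : ℝ) + 1 := by
    have h3 : (1 : ℝ) ≤ ‖p.leadingCoeff‖ := by
      rw [Polynomial.leadingCoeff, hdeg, hcoef, Real.norm_eq_abs]
      have h4 : (1 : ℤ) ≤ |(ftop n F).coeff n| := Int.one_le_abs hlead
      exact_mod_cast h4
    have h4 : (Finset.range p.natDegree).sup (‖p.coeff ·‖₊) ≤ (b : NNReal) := by
      refine Finset.sup_le fun j hj => ?_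
      rw [Finset.mem_range, hdeg] at hj
      rw [← NNReal.coe_le_coe, coe_nnnorm, hcoef, sys_coeff n F j hj.le, Real.norm_eq_abs]
      have h5 := hc (Finsupp.single 0 (n - j) + Finsupp.single 1 j)
      have h6 : ((|F.coeff (Finsupp.single 0 (n - j) + Finsupp.single 1 j)| : ℤ) : ℝ) ≤ ((b : ℤ) : ℝ) :=
        Int.cast_le.2 h5
      rw [Int.cast_abs, Int.cast_natCast] at h6
      rw [NNReal.coe_natCast]
      exact h6
    have h5 : (1 : NNReal) ≤ ‖p.leadingCoeff‖₊ := by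
      rw [← NNReal.coe_le_coe, coe_nnnorm]
      exact_mod_cast h3
    have h6 : p.cauchyBound ≤ (b : NNReal) + 1 := by
      unfold Polynomial.cauchyBound
      refine add_le_add ?_ le_rfl
      calc (Finset.range p.natDegree).sup (‖p.coeff ·‖₊) / ‖p.leadingCoeff‖₊
          ≤ (Finset.range p.natDegree).sup (‖p.coeff ·‖₊) := div_le_self (by positivity) h5
        _ ≤ b := h4
    exact_mod_cast h6
  have h3 : |θ| < (p.cauchyBound : ℝ) := by
    have h4 : ((‖θ‖₊ : NNReal) : ℝ) < (p.cauchyBound : ℝ) := by exact_mod_cast h1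
    rwa [coe_nnnorm, Real.norm_eq_abs] at h4
  linarith

/-- nearness and the size of the point -/
private theorem sys_size {b N : ℕ} (hb : 2 ≤ b) {θ : ℝ} (hθ : |θ| ≤ (b : ℝ) + 1) {x y : ℤ} (hn : Near θ x y)
    (hbig : (b : ℤ) ^ N < max |x| |y|) {C : ℕ} (hC : 2 * (C + 1) ≤ N) :
    ((b + 2 : ℕ) : ℤ) ^ C ≤ |x| ∧ |(y : ℝ)| ≤ ((b : ℝ) + 2) * |(x : ℝ)| := by
  unfold Near at hn
  have hb0 : (0 : ℝ) ≤ (b : ℝ) := Nat.cast_nonneg _
  have hx2 : |(x : ℝ)| ≤ |(x : ℝ)| ^ 2 := by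
    have h1 : |x| ≤ |x| ^ 2 := by
      rcases (abs_nonneg x).lt_or_eq with h | h
      · nlinarith
      · rw [← h]
        norm_num
    have h2 : ((|x| : ℤ) : ℝ) ≤ (((|x| ^ 2 : ℤ)) : ℝ) := Int.cast_le.2 h1
    rwa [Int.cast_pow, Int.cast_abs] at h2
  have h1 : |(y : ℝ) - θ * x| ≤ |(x : ℝ)| := abs_le_of_sq_le_sq (hn.trans hx2) (abs_nonneg _)
  have h2 : |(y : ℝ)| ≤ ((b : ℝ) + 2) * |(x : ℝ)| := by
    calc |(y : ℝ)| = |((y : ℝ) - θ * x) + θ * x| := by ring_nf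
      _ ≤ |(y : ℝ) - θ * x| + |θ * x| := abs_add_le _ _
      _ = |(y : ℝ) - θ * x| + |θ| * |(x : ℝ)| := by rw [abs_mul]
      _ ≤ |(x : ℝ)| + ((b : ℝ) + 1) * |(x : ℝ)| := by
          have := mul_le_mul_of_nonneg_right hθ (abs_nonneg (x : ℝ))
          linarith
      _ = ((b : ℝ) + 2) * |(x : ℝ)| := by ring
  refine ⟨?_, h2⟩
  have h3 : |y| ≤ ((b : ℤ) + 2) * |x| := by
    have h4 : ((|y| : ℤ) : ℝ) ≤ ((((b : ℤ) + 2) * |x| : ℤ) : ℝ) := by
      push_cast
      exact h2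
    exact Int.cast_le.1 h4
  have hbz : (0 : ℤ) ≤ (b : ℤ) := Int.natCast_nonneg _
  have h4 : max |x| |y| ≤ ((b : ℤ) + 2) * |x| := by
    refine max_le ?_ h3
    have := abs_nonneg x
    nlinarith
  have h5 : ((b : ℤ) + 2) ^ (C + 1) ≤ (b : ℤ) ^ N := by
    have h6 : (b + 2) ^ (C + 1) ≤ b ^ N := by
      calc (b + 2) ^ (C + 1) ≤ (b ^ 2) ^ (C + 1) := Nat.pow_le_pow_left (by nlinarith) _
        _ = b ^ (2 * (C + 1)) := by rw [← pow_mul]
        _ ≤ b ^ N := Nat.pow_le_pow_right (by omega) hC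
    exact_mod_cast h6
  have h6 : ((b : ℤ) + 2) ^ (C + 1) < ((b : ℤ) + 2) * |x| := (h5.trans_lt hbig).trans_le h4
  rw [pow_succ'] at h6
  have h7 := lt_of_mul_lt_mul_left h6 (by positivity)
  push_cast
  exact h7.le

theorem lk_sm {n : ℕ} (hn : 3 ≤ n) {H : ℕ → ℕ} (hH : ∀ N, 2 ≤ H N) {F : ℕ → MvPolynomial (Fin 2) ℤ}
    (hd : ∀ N, (F N).totalDegree ≤ n)
    (hl : ∀ N, Irreducible (map (Int.castRingHom ℚ) (homogeneousComponent n (F N))))
    (hc : ∀ N m, |(F N).coeff m| ≤ (H N : ℤ)) {θ : ℕ → ℝ} (hθ : ∀ N, Polynomial.aeval (θ N) (ftop n (F N)) = 0)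
    {x y a : ℕ → ℤ} (hnear : ∀ N, Near (θ N) (x N) (y N)) (h0 : ∀ N, aeval ![x N, y N] (F N) = (0 : ℤ))
    (hbig : ∀ N, (H N : ℤ) ^ N < max |x N| |y N|) (ha0 : ∀ N, a N ≠ 0) (ha : ∀ N, |a N| ≤ (H N : ℤ))
    {d e : ℕ} {q : ℕ → ℕ} {T : ℕ → AA} {ξ : ℕ → PowerSeries AA}
    (hB : ∀ N, Br d e (H N) (y N + x N ^ (n + 1)) (a N * x N) (q N) (T N) (ξ N))
    {t : ℕ → AA} (ht : ∀ N, (t N : ℂ) = ((θ N : ℝ) : ℂ)) :
    ∀ᶠ N in UU, ∀ σ : AA ≃ₐ[ℚ] AA, σ (t N) = t N → ∃ ζ : AA, ζ ^ e = 1 ∧ act σ ζ (ξ N) = ξ N := by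
  -- (1) sizes
  have hroot : ∀ N, |θ N| ≤ (H N : ℝ) + 1 := fun N => sys_root hn (hl N) (hc N) (hθ N)
  have hge : ∀ C : ℕ, ∀ᶠ N in UU, 2 * (C + 1) ≤ N := fun C =>
    (eventually_ge_atTop (2 * (C + 1))).filter_mono Nat.hyperfilter_le_atTop
  have hlarge : ∀ C : ℕ, ∀ᶠ N in UU, ((H N + 2 : ℕ) : ℤ) ^ C ≤ |x N| := fun C =>
    (hge C).mono fun N hN => (sys_size (hH N) (hroot N) (hnear N) (hbig N) hN).1
  have hlarge' : ∀ C : ℕ, ∀ᶠ N in UU, ((H N + 2 : ℕ) : ℤ) ^ C ≤ |y N + x N ^ (n + 1)| := by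
    intro C
    filter_upwards [hge (C + 2)] with N hN
    obtain ⟨h1, h2⟩ := sys_size (hH N) (hroot N) (hnear N) (hbig N) hN
    have h3 : |y N| ≤ ((H N : ℤ) + 2) * |x N| := by
      have h4 : ((|y N| : ℤ) : ℝ) ≤ ((((H N : ℤ) + 2) * |x N| : ℤ) : ℝ) := by
        push_cast
        exact h2
      exact Int.cast_le.1 h4
    have hbz : (0 : ℤ) ≤ (H N : ℤ) := Int.natCast_nonneg _
    have h4 : (1 : ℤ) ≤ ((H N + 2 : ℕ) : ℤ) ^ C := one_le_pow₀ (by push_cast; linarith)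
    have h5 : ((H N + 2 : ℕ) : ℤ) ^ (C + 2) = ((H N + 2 : ℕ) : ℤ) ^ C * ((H N : ℤ) + 2) ^ 2 := by
      rw [pow_add]
      push_cast
      ring
    rw [h5] at h1
    have h6 : ((H N : ℤ) + 2) + 1 ≤ |x N| := by nlinarith
    have h7 : ((H N + 2 : ℕ) : ℤ) ^ C ≤ |x N| := by
      refine le_trans ?_ h1
      exact le_mul_of_one_le_right (by linarith) (one_le_pow₀ (by linarith))
    have h8 : |x N| ^ 2 ≤ |x N| ^ (n + 1) := pow_le_pow_right₀ (by linarith) (by omega)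
    have h9 : |x N| ^ (n + 1) ≤ |y N + x N ^ (n + 1)| + |y N| := by
      rw [← abs_pow]
      calc |x N ^ (n + 1)| = |(y N + x N ^ (n + 1)) - y N| := by ring_nf
        _ ≤ |y N + x N ^ (n + 1)| + |y N| := abs_sub _ _
    nlinarith
  -- (2) the curve
  obtain ⟨Fh, hU⟩ := exists_isu H hd hc
  have hT := tif hn hd hl hU
  have hz := zer_pt hd hU h0
  obtain ⟨X₀, hX₀⟩ : ∃ X₀ : QS, X₀ = cl (fun N => (x N : ℚ)) := ⟨_, rfl⟩
  obtain ⟨Y₀, hY₀⟩ : ∃ Y₀ : QS, Y₀ = cl (fun N => (y N : ℚ)) := ⟨_, rfl⟩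
  rw [← hX₀, ← hY₀] at hz
  have hXV : X₀ ∉ V0 H := by
    rw [hX₀]
    exact zer_big hlarge
  have htr : ∀ z : QS, z ∉ V0 H → Transcendental (Q0 H) z := by
    intro z hz1 hz2
    apply hz1
    have h1 := q0_alg H z hz2
    rcases abs_choice z with h | h
    · exact ⟨z, h1, h.le⟩
    · exact ⟨-z, (Q0 H).neg_mem h1, h.le⟩
  obtain ⟨L, hL⟩ : ∃ L : IntermediateField (Q0 H) QS, L = IntermediateField.adjoin (Q0 H) {X₀, Y₀} := ⟨_, rfl⟩
  have hXL : X₀ ∈ L := by
    rw [hL]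
    exact IntermediateField.subset_adjoin _ _ (Set.mem_insert _ _)
  have hYL : Y₀ ∈ L := by
    rw [hL]
    exact IntermediateField.subset_adjoin _ _ (Set.mem_insert_of_mem _ (Set.mem_singleton _))
  obtain ⟨XL, hXL'⟩ : ∃ XL : L, (XL : QS) = X₀ := ⟨⟨X₀, hXL⟩, rfl⟩
  obtain ⟨YL, hYL'⟩ : ∃ YL : L, (YL : QS) = Y₀ := ⟨⟨Y₀, hYL⟩, rfl⟩
  have hadj : IntermediateField.adjoin (Q0 H) {XL, YL} = ⊤ := by
    apply IntermediateField.lift_injective L
    rw [IntermediateField.lift_adjoin, IntermediateField.lift_top, Set.image_pair, hXL', hYL']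
    exact hL.symm
  have hzL : aeval ![XL, YL] Fh = 0 := by
    have h1 : algebraMap L QS (aeval ![XL, YL] Fh) = 0 := by
      rw [← aeval_algebraMap_apply]
      have h2 : (fun i => algebraMap L QS (![XL, YL] i)) = ![X₀, Y₀] := by
        funext i
        fin_cases i
        · exact hXL'
        · exact hYL'
      rw [← hz]
      congr 2
    exact (map_eq_zero _).1 h1
  have htrL : ∀ z : L, (z : QS) ∉ V0 H → Transcendental (Q0 H) z := by
    intro z hz1 hz2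
    exact htr _ hz1 (hz2.algebraMap)
  have htX : Transcendental (Q0 H) XL := htrL XL (by rwa [hXL'])
  -- the algebraic number at infinity
  have htt : Polynomial.aeval (cl t : AS) (ftop n Fh) = 0 := by
    have h1 : ∀ j, Polynomial.aeval (cl t : AS) (Polynomial.monomial j
        (Fh.coeff (Finsupp.single 0 (n - j) + Finsupp.single 1 j))) =
        clHom AA (fun N => algebraMap ℚ AA
          (((F N).coeff (Finsupp.single 0 (n - j) + Finsupp.single 1 j) : ℤ) : ℚ) * t N ^ j) := by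
      intro j
      rw [Polynomial.aeval_monomial]
      have h2 : algebraMap (Q0 H) AS (Fh.coeff (Finsupp.single 0 (n - j) + Finsupp.single 1 j)) =
          algebraMap QS AS ((Fh.coeff (Finsupp.single 0 (n - j) + Finsupp.single 1 j) : Q0 H) : QS) := rfl
      rw [h2, hU.2, map_cl]
      have h3 : (cl t : AS) ^ j = clHom AA (fun N => t N ^ j) := by
        rw [← clHom_apply, ← map_pow]
        rfl
      rw [h3]
      rfl
    unfold ftop
    rw [map_sum, Finset.sum_congr rfl fun j _ => h1 j, ← map_sum, clHom_apply, cl_zero]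
    congr 1
    funext N
    rw [Finset.sum_apply]
    have h2 := hθ N
    unfold ftop at h2
    rw [map_sum] at h2
    simp only [Polynomial.aeval_monomial] at h2
    apply Subtype.ext
    have h3 := congrArg (fun r : ℝ => (r : ℂ)) h2
    have h4 : ∀ z : AA, (z : ℂ) = algebraMap AA ℂ z := fun _ => rfl
    rw [h4, map_sum]
    simp only [map_mul, map_pow]
    rw [← h4 (t N), ht N]
    push_cast at h3
    rw [ZeroMemClass.coe_zero, ← h3]
    refine Finset.sum_congr rfl fun j _ => ?_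
    simp
  have hta : IsAlgebraic (Q0 H) (cl t : AS) := ⟨ftop n Fh, hT.irr.ne_zero, htt⟩
  have hnr : algebraMap QS AS (Y₀ / X₀) - cl t ∈ (VA H).nonunits := by
    have h1 : algebraMap QS AS (Y₀ / X₀) - cl t =
        cl (fun N => algebraMap ℚ AA ((y N : ℚ) / (x N : ℚ)) - t N) := by
      have h2 : Y₀ / X₀ = cl (fun N => (y N : ℚ) / (x N : ℚ)) := by
        rw [hX₀, hY₀, div_eq_mul_inv, cl_inv, cl_mul]
        rfl
      rw [h2, map_cl]
      rfl
    rw [h1, va_non]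
    intro C
    filter_upwards [hlarge (2 * C + 1)] with N h2
    have h3 : ((algebraMap ℚ AA ((y N : ℚ) / (x N : ℚ)) - t N : AA) : ℂ) =
        (((y N : ℝ) / (x N : ℝ) - θ N : ℝ) : ℂ) := by
      have h4 : ∀ z : AA, (z : ℂ) = algebraMap AA ℂ z := fun _ => rfl
      rw [h4, map_sub, ← h4 (t N), ht N]
      push_cast
      congr 1
    rw [h3, Complex.norm_real, Real.norm_eq_abs]
    have h4 := hnear N
    unfold Near at h4
    have h5 : ((H N : ℝ) + 2) ^ (2 * C + 1) ≤ |(x N : ℝ)| := by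
      have h6 : (((((H N + 2 : ℕ) : ℤ) ^ (2 * C + 1) : ℤ)) : ℝ) ≤ ((|x N| : ℤ) : ℝ) := Int.cast_le.2 h2
      rw [Int.cast_abs] at h6
      push_cast at h6
      exact h6
    have hB1 : (1 : ℝ) < (H N : ℝ) + 2 := by
      have : (0 : ℝ) ≤ (H N : ℝ) := Nat.cast_nonneg _
      linarith
    have h6 : ((H N : ℝ) + 2) ^ (2 * C) < |(x N : ℝ)| :=
      lt_of_lt_of_le (pow_lt_pow_right₀ hB1 (by omega)) h5
    have h7 : 0 < ((H N : ℝ) + 2) ^ (2 * C) := by positivity
    have h8 : 0 < |(x N : ℝ)| := h7.trans h6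
    have hx0 : (x N : ℝ) ≠ 0 := abs_pos.1 h8
    have h9 : ((y N : ℝ) / (x N : ℝ) - θ N) ^ 2 * |(x N : ℝ)| ≤ 1 := by
      have h10 : ((y N : ℝ) / (x N : ℝ) - θ N) ^ 2 * |(x N : ℝ)| ^ 2 = ((y N : ℝ) - θ N * x N) ^ 2 := by
        rw [sq_abs]
        field_simp
      have h11 : (((y N : ℝ) / (x N : ℝ) - θ N) ^ 2 * |(x N : ℝ)|) * |(x N : ℝ)| ≤ 1 * |(x N : ℝ)| := by
        rw [one_mul]
        refine le_trans (le_of_eq ?_) h4
        rw [← h10]
        ring
      exact le_of_mul_le_mul_right h11 h8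
    have h10 : (|(y N : ℝ) / (x N : ℝ) - θ N| * ((H N : ℝ) + 2) ^ C) ^ 2 < 1 := by
      rw [mul_pow, sq_abs, ← pow_mul, mul_comm C 2]
      rcases (sq_nonneg ((y N : ℝ) / (x N : ℝ) - θ N)).lt_or_eq with h | h
      · exact (mul_lt_mul_of_pos_left h6 h).trans_le h9
      · rw [← h, zero_mul]
        exact zero_lt_one
    exact (sq_lt_one_iff₀ (by positivity)).1 h10
  -- the residue field
  have htow : @IsScalarTower (Q0 H) L AS Algebra.toSMul Algebra.toSMul (instAlgQ0AS H).toSMul :=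
    IsScalarTower.of_algebraMap_eq (R := Q0 H) (S := L) (A := AS) fun _ => rfl
  have hres : ∀ z : L, (z : QS) ∈ V0 H → ∃ A : Polynomial (Q0 H),
      algebraMap QS AS (z : QS) - Polynomial.aeval (cl t : AS) A ∈ (VA H).nonunits := by
    intro z hzV
    refine res_sm (k := Q0 H) (L := L) (Ω := AS) hT hzL htX hadj (V := VA H) (va_base H) ?_ htt ?_ z
      ((va_qs H _).2 hzV)
    · intro h1
      have h2 : algebraMap L AS XL = algebraMap QS AS (XL : QS) := rfl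
      rw [h2, va_qs, hXL'] at h1
      exact hXV h1
    · have h2 : algebraMap L AS (YL / XL) = algebraMap QS AS (Y₀ / X₀) := by
        rw [← hXL', ← hYL']
        rfl
      rw [h2]
      exact hnr
  have hFF := (ff_sm hT hzL htX hadj).1
  -- (3) the new coordinates
  have haQ : (cl (fun N => (a N : ℚ)) : QS) ∈ Q0 H := by
    refine ⟨fun N => (a N : ℚ), ⟨1, fun N => ?_⟩, rfl⟩
    have h1 := ha N
    rw [Int.abs_eq_natAbs] at h1
    dsimp only
    rw [Rat.num_intCast, Rat.den_intCast, pow_one]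
    omega
  obtain ⟨a₀, ha₀⟩ : ∃ a₀ : Q0 H, (a₀ : QS) = cl (fun N => (a N : ℚ)) := ⟨⟨_, haQ⟩, rfl⟩
  have ha₀0 : a₀ ≠ 0 := by
    intro h1
    have h2 : (cl (fun N => (a N : ℚ)) : QS) = cl (fun _ => (0 : ℚ)) := by
      rw [← ha₀, h1]
      rfl
    rw [cl_eq] at h2
    obtain ⟨N, h3⟩ := h2.exists
    exact ha0 N (by exact_mod_cast h3)
  obtain ⟨X1, hX1⟩ : ∃ X1 : L, X1 = YL + XL ^ (n + 1) := ⟨_, rfl⟩
  obtain ⟨Y1, hY1⟩ : ∃ Y1 : L, Y1 = algebraMap (Q0 H) L a₀ * XL := ⟨_, rfl⟩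
  have hX1' : (X1 : QS) = cl (fun N => ((y N + x N ^ (n + 1) : ℤ) : ℚ)) := by
    have h1 : (X1 : QS) = Y₀ + X₀ ^ (n + 1) := by
      rw [hX1, ← hXL', ← hYL']
      rfl
    rw [h1, hX₀, hY₀, ← clHom_apply, ← clHom_apply, ← clHom_apply, ← map_pow, ← map_add]
    congr 1
    funext N
    simp only [Pi.add_apply, Pi.pow_apply]
    push_cast
    rfl
  have hY1' : (Y1 : QS) = cl (fun N => ((a N * x N : ℤ) : ℚ)) := by
    have h1 : (Y1 : QS) = (a₀ : QS) * X₀ := by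
      rw [hY1, ← hXL']
      rfl
    rw [h1, ha₀, hX₀, cl_mul]
    congr 1
    funext N
    push_cast
    rfl
  have hadj1 : IntermediateField.adjoin (Q0 H) {X1, Y1} = ⊤ := by
    rw [eq_top_iff, ← hadj, IntermediateField.adjoin_le_iff]
    have h1 : X1 ∈ IntermediateField.adjoin (Q0 H) {X1, Y1} :=
      IntermediateField.subset_adjoin _ _ (Set.mem_insert _ _)
    have h2 : Y1 ∈ IntermediateField.adjoin (Q0 H) {X1, Y1} :=
      IntermediateField.subset_adjoin _ _ (Set.mem_insert_of_mem _ (Set.mem_singleton _))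
    have h3 : XL ∈ IntermediateField.adjoin (Q0 H) {X1, Y1} := by
      have h4 : XL = algebraMap (Q0 H) L a₀⁻¹ * Y1 := by
        rw [hY1, ← mul_assoc, ← map_mul, inv_mul_cancel₀ ha₀0, map_one, one_mul]
      rw [h4]
      exact mul_mem (IntermediateField.algebraMap_mem _ _) h2
    have h4 : YL ∈ IntermediateField.adjoin (Q0 H) {X1, Y1} := by
      have h5 : YL = X1 - XL ^ (n + 1) := by
        rw [hX1]
        ring
      rw [h5]
      exact sub_mem h1 (pow_mem h3 _)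
    intro w hw
    rcases hw with rfl | hw
    · exact h3
    · rw [Set.mem_singleton_iff] at hw
      rw [hw]
      exact h4
  have hX1V : (X1 : QS) ∉ V0 H := by
    rw [hX1']
    exact zer_big hlarge'
  exact lk (Eventually.of_forall hB) hX1' hY1' hadj1 (ff_of_tr hFF (htrL X1 hX1V)) hX1V hres hta

end Pool.Agent.H85.LK
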