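import Pool.Agent.H85.LK.Ex1
import Pool.Agent.H85.LK.Sys

/-! # [H85 LK TYP] The type of an exceptional point near `θ` has the image `ℚ(θ)`

Suppose there is no such `E`. For each `N` take a counterexample for `E = max(cF n, cR n * N) …` (large enough: `(H^(cR n))^N < max(|x|,|y|)` and `H^(cF n) < max(|x|,|y|)`, e.g. `E = cF n + cR n * N`; the statement for a larger `E` has more hypotheses). `ex1` gives `τ N, a N, d N, e N, …`; all conclusions of `typ` hold except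
`τ.fieldRange = Subfield.closure {θ}`, so this is false for every `N`. Pigeonhole: `(d N, e N)` takes finitely many values (`d ≤ n(n+1)`, `e ≤ (n(n+1))!`), so one value `(d, e)` is taken for infinitely many `N`: for every `N` choose `φ N ≥ N` with this value and pass to the subsequence (`(H^(cR n))^N ≤ (H^(cR n))^(φ N)`).
`lk_sm` for `H' N = (H N)^(cR n)` (`≥ H N ≥ 2` since `cR n ≥ 1`: `cR n = … + 3`), `t N = θ N` as an element of `AA` (algebraic: a zero of `ftop n (F N) ≠ 0`). So for almost all `N`, in particular for some `N`: each `σ` which fixes `θ` fixes `τ z` for all `z` (`ex1`), so (`galA_mem` with `s = {θ}`, H87/SA2/GALA.lean; embeddings `AA →+* ℂ` come from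
automorphisms, `aa_equiv`) `τ z ∈ ℚ(θ)`; `τ z` is algebraic (`k` is a number field, `inr_nf`). So `τ.fieldRange ≤ Subfield.closure {θ}`; both have degree `n` over `ℚ` (`inr_nf`, `τ` injective), so they are equal: contradiction. -/

namespace Pool.Agent.H85.LK

open MvPolynomial Pool.Agent.H87.SA2 Pool.Agent.H34.AC Pool.Agent.H8.AS Pool.Agent.H12.ON Pool.Agent.H52.AC

private theorem mem_clo {θ : ℝ} {t b : AA} (ht : (t : ℂ) = ((θ : ℝ) : ℂ))
    (hb : b ∈ IntermediateField.adjoin ℚ {t}) : ∃ r ∈ Subfield.closure {θ}, (b : ℂ) = ((r : ℝ) : ℂ) := by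
  induction hb using IntermediateField.adjoin_induction with
  | mem x hx =>
    rw [Set.mem_singleton_iff] at hx
    subst hx
    exact ⟨θ, Subfield.subset_closure rfl, ht⟩
  | algebraMap q =>
    refine ⟨(q : ℝ), ?_, ?_⟩
    · exact SubfieldClass.ratCast_mem _ q
    · rw [Complex.ofReal_ratCast]
      rfl
  | add x y hx hy h1 h2 =>
    obtain ⟨r, hr, h1⟩ := h1
    obtain ⟨s, hs, h2⟩ := h2
    refine ⟨r + s, add_mem hr hs, ?_⟩
    push_cast
    rw [← h1, ← h2]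
  | inv x hx h1 =>
    obtain ⟨r, hr, h1⟩ := h1
    refine ⟨r⁻¹, inv_mem hr, ?_⟩
    push_cast
    rw [← h1]
  | mul x y hx hy h1 h2 =>
    obtain ⟨r, hr, h1⟩ := h1
    obtain ⟨s, hs, h2⟩ := h2
    refine ⟨r * s, mul_mem hr hs, ?_⟩
    push_cast
    rw [← h1, ← h2]

private theorem alg_clo {k : Type} [Field k] [NumberField k] (τ : k →+* ℝ) (z : k) :
    ((τ z : ℝ) : ℂ) ∈ AA := by
  rw [mem_algebraicClosure_iff]
  have h1 : IsAlgebraic ℚ z := Algebra.IsAlgebraic.isAlgebraic z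
  exact h1.algHom (Complex.ofRealHom.comp τ).toRatAlgHom

private theorem range_eq {θ : ℝ} [NumberField ↥(Subfield.closure {θ})]
    (τ : ↥(Subfield.closure {θ}) →+* ℝ) (h : ∀ z, τ z ∈ Subfield.closure {θ}) :
    τ.fieldRange = Subfield.closure {θ} := by
  have hbij := (Algebra.IsAlgebraic.algHom_bijective
    (τ.codRestrict (Subfield.closure {θ}) h).toRatAlgHom).2
  ext w
  constructor
  · rintro ⟨z, rfl⟩
    exact h z
  · intro hw
    obtain ⟨z, hz⟩ := hbij ⟨w, hw⟩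
    refine ⟨z, ?_⟩
    have := congrArg (fun v : ↥(Subfield.closure {θ}) => (v : ℝ)) hz
    exact this

theorem typ (n : ℕ) (hn : 3 ≤ n) : ∃ E : ℕ, ∀ (F : MvPolynomial (Fin 2) ℤ) (H : ℕ) (θ : ℝ) (x y : ℤ),
    F.totalDegree ≤ n → Irreducible (map (Int.castRingHom ℚ) (homogeneousComponent n F)) → 2 ≤ H →
    (∀ m, |F.coeff m| ≤ (H : ℤ)) → Polynomial.aeval θ (ftop n F) = 0 → Near θ x y →
    aeval ![x, y] F = (0 : ℤ) → (H : ℤ) ^ E < max |x| |y| →
    ∃ (τ : ↥(Subfield.closure {θ}) →+* ℝ) (a : ℤ), τ.fieldRange = Subfield.closure {θ} ∧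
      ExcS ↥(Subfield.closure {θ}) τ (n * (n + 1)) (cA (n * (n + 1))) (y + x ^ (n + 1)) (a * x) ∧
      max |x| |y| ≤ |y + x ^ (n + 1)| ^ (2 * n + 3) ∧ |y + x ^ (n + 1)| ≤ (max |x| |y|) ^ (2 * n + 3) := by
  by_contra hcon
  have hcR : 1 ≤ cR n := by
    unfold cR
    omega
  have hcon' : ∀ E : ℕ, ∃ (F : MvPolynomial (Fin 2) ℤ) (H : ℕ) (θ : ℝ) (x y : ℤ),
      F.totalDegree ≤ n ∧ Irreducible (map (Int.castRingHom ℚ) (homogeneousComponent n F)) ∧ 2 ≤ H ∧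
      (∀ m, |F.coeff m| ≤ (H : ℤ)) ∧ Polynomial.aeval θ (ftop n F) = 0 ∧ Near θ x y ∧
      aeval ![x, y] F = (0 : ℤ) ∧ (H : ℤ) ^ E < max |x| |y| ∧
      ¬ ∃ (τ : ↥(Subfield.closure {θ}) →+* ℝ) (a : ℤ), τ.fieldRange = Subfield.closure {θ} ∧
        ExcS ↥(Subfield.closure {θ}) τ (n * (n + 1)) (cA (n * (n + 1))) (y + x ^ (n + 1)) (a * x) ∧
        max |x| |y| ≤ |y + x ^ (n + 1)| ^ (2 * n + 3) ∧
        |y + x ^ (n + 1)| ≤ (max |x| |y|) ^ (2 * n + 3) := by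
    intro E
    by_contra hE
    exact hcon ⟨E, fun F H θ x y h1 h2 h3 h4 h5 h6 h7 h8 =>
      by_contra fun h9 => hE ⟨F, H, θ, x, y, h1, h2, h3, h4, h5, h6, h7, h8, h9⟩⟩
  choose F H θ x y hd hl hH hc hθ hnear h0 hbig hno using
    fun N : ℕ => hcon' (Pool.Agent.H8.AF.cF n + cR n * N)
  have hH1 : ∀ N, (1 : ℤ) ≤ (H N : ℤ) := fun N => by
    have := hH N
    exact_mod_cast (by omega : 1 ≤ H N)
  have hbF : ∀ N, (H N : ℤ) ^ Pool.Agent.H8.AF.cF n < max |x N| |y N| := fun N =>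
    lt_of_le_of_lt (pow_le_pow_right₀ (hH1 N) (Nat.le_add_right _ _)) (hbig N)
  choose τ a d e q T ξ ha0 haH hdn hen hexc hs1 hs2 hBr hfix using
    fun N => ex1 n hn (F N) (H N) (θ N) (x N) (y N) (hd N) (hl N) (hH N) (hc N) (hθ N) (h0 N) (hbF N)
  -- pigeonhole
  obtain ⟨D, E, hDE⟩ : ∃ D E : ℕ, ∀ N, ∃ M, N ≤ M ∧ d M = D ∧ e M = E := by
    obtain ⟨p, hp⟩ := Finite.exists_infinite_fiber
      (fun N : ℕ => ((⟨d N, Nat.lt_succ_of_le (hdn N)⟩, ⟨e N, Nat.lt_succ_of_le (hen N)⟩) :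
        Fin (n * (n + 1) + 1) × Fin ((n * (n + 1)).factorial + 1)))
    refine ⟨p.1, p.2, fun N => ?_⟩
    obtain ⟨M, hM, hNM⟩ := (Set.infinite_coe_iff.1 hp).exists_gt N
    have hM' : ((⟨d M, Nat.lt_succ_of_le (hdn M)⟩, ⟨e M, Nat.lt_succ_of_le (hen M)⟩) :
        Fin (n * (n + 1) + 1) × Fin ((n * (n + 1)).factorial + 1)) = p := hM
    refine ⟨M, hNM.le, ?_, ?_⟩
    · rw [← hM']
    · rw [← hM']
  choose φ hφ hφd hφe using hDE
  have hHp : ∀ N, H (φ N) ≤ (H (φ N)) ^ cR n := fun N => Nat.le_self_pow (by omega) _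
  have hHpz : ∀ N, (H (φ N) : ℤ) ≤ (((H (φ N)) ^ cR n : ℕ) : ℤ) := fun N => by
    exact_mod_cast hHp N
  have hNF : ∀ N, NumberField ↥(Subfield.closure {θ N}) := fun N => (inr_nf hn (hl N) (hθ N)).1
  have halg : ∀ N, ((θ N : ℝ) : ℂ) ∈ AA := fun N => by
    haveI := hNF N
    exact alg_clo (Subfield.subtype _) (⟨θ N, Subfield.subset_closure rfl⟩ : ↥(Subfield.closure {θ N}))
  have hlk := lk_sm hn (H := fun N => (H (φ N)) ^ cR n) (fun N => (hH (φ N)).trans (hHp N))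
    (F := fun N => F (φ N)) (fun N => hd (φ N)) (fun N => hl (φ N))
    (fun N m => (hc (φ N) m).trans (hHpz N)) (θ := fun N => θ (φ N)) (fun N => hθ (φ N))
    (x := fun N => x (φ N)) (y := fun N => y (φ N)) (a := fun N => a (φ N))
    (fun N => hnear (φ N)) (fun N => h0 (φ N))
    (fun N => by
      refine lt_of_le_of_lt ?_ (hbig (φ N))
      have h1 : ((((H (φ N)) ^ cR n : ℕ) : ℤ)) ^ N = (H (φ N) : ℤ) ^ (cR n * N) := by
        push_cast
        rw [← pow_mul]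
      rw [h1]
      refine pow_le_pow_right₀ (hH1 _) ?_
      have := Nat.mul_le_mul_left (cR n) (hφ N)
      omega)
    (fun N => ha0 (φ N)) (fun N => (haH (φ N)).trans (hHpz N))
    (d := D) (e := E) (q := fun N => q (φ N)) (T := fun N => T (φ N)) (ξ := fun N => ξ (φ N))
    (fun N => by
      have h1 := hBr (φ N)
      rw [hφd, hφe] at h1
      exact h1)
    (t := fun N => ⟨((θ (φ N) : ℝ) : ℂ), halg (φ N)⟩) (fun N => rfl)
  obtain ⟨N, hN⟩ := hlk.exists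
  obtain ⟨M, hM⟩ : ∃ M, M = φ N := ⟨_, rfl⟩
  have hE : e M = E := by rw [hM]; exact hφe N
  simp only [← hM] at hN
  haveI := hNF M
  refine hno M ⟨τ M, a M, range_eq (τ M) ?_, hexc M, hs1 M, hs2 M⟩
  intro z
  have hmem := galA_mem {(⟨((θ M : ℝ) : ℂ), halg M⟩ : AA)} (⟨((τ M z : ℝ) : ℂ), alg_clo (τ M) z⟩ : AA) (by
    intro σ hσ
    obtain ⟨ρ, hρ⟩ := aa_equiv σ
    have h1 : ρ (⟨((θ M : ℝ) : ℂ), halg M⟩ : AA) = ⟨((θ M : ℝ) : ℂ), halg M⟩ := by
      apply Subtype.ext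
      rw [hρ]
      exact hσ _ rfl
    obtain ⟨ζ, hζ, hact⟩ := hN ρ h1
    have h2 := hfix M ρ ζ (by rw [hE]; exact hζ) hact z (⟨((τ M z : ℝ) : ℂ), alg_clo (τ M) z⟩ : AA) rfl
    rw [← hρ, h2])
  obtain ⟨r, hr, h1⟩ := mem_clo (θ := θ M) rfl hmem
  have h2 : τ M z = r := Complex.ofReal_injective h1
  rw [h2]
  exact hr

end Pool.Agent.H85.LK
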