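import Pool.Agent.H34.AC.KapR
import Pool.Agent.H12.ON.Deh

/-! # [H85 LK INR] The points at infinity of a curve with irreducible leading form

`f` = leading form of degree `n ≥ 3`, irreducible over `ℚ`; `ftop n F = f(1,T)` over `ℚ` is irreducible of degree `n` (`deh`; `ftop` commutes with `map`). `θ` a real zero, `K = Subfield.closure {θ}` = `ℚ(θ)`.
* `inr_nf`: `K` is a number field of degree `n` (as a type; `ℚ(θ) ≅ ℚ[T]/f(1,T)`: `IntermediateField.adjoin.finrank`, the carriers of `Subfield.closure {θ}` and `ℚ⟮θ⟯` agree).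
* `inr_irr`: `F` is irreducible over `ℚ`: a factorisation `F = G₁ G₂` gives the factorisation of the leading form into the leading forms of `G_i` (`totalDegree` adds in a domain), one of them is a unit, so of degree 0, so `G_i` has degree 0.
* `inr`: `INFR K F`: let `K'` be a number field, `X, Y ∈ K'((t))`, `F(X,Y) = 0`, not both power series. Let `-m < 0` be the minimum of the orders of `X`, `Y`; `X = t^(-m) (x₀ + …)`, `Y = t^(-m)(y₀ + …)`, `(x₀,y₀) ≠ (0,0)`; the coefficient of `t^(-nm)` in `F(X,Y)` is `f(x₀,y₀) = 0` (multiply by `t^(nm)`: with `X = t^(-m) X₁`,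
`Y = t^(-m) Y₁`, power series: `∑_{i+j ≤ n} F_ij t^((n-i-j)m) X₁^i Y₁^j = 0`, constant coefficient). `f(0,1)` = the coefficient of `T^n` in `ftop`, not zero, so `x₀ ≠ 0` and `y₀/x₀ ∈ K'` is a zero of `f(1,T)`; `K ≅ ℚ[T]/f(1,T) → K'`. -/

namespace Pool.Agent.H85.LK

open MvPolynomial Pool.Agent.H34.AC Pool.Agent.H12.ON

private theorem map_hc {R S : Type} [CommRing R] [CommRing S] (φ : R →+* S) (n : ℕ)
    (F : MvPolynomial (Fin 2) R) :
    map φ (homogeneousComponent n F) = homogeneousComponent n (map φ F) := by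
  ext d
  rw [coeff_map, coeff_homogeneousComponent, coeff_homogeneousComponent, coeff_map]
  split_ifs
  · rfl
  · exact map_zero φ

private theorem ftop_map {R S : Type} [CommRing R] [CommRing S] (φ : R →+* S) (n : ℕ)
    (F : MvPolynomial (Fin 2) R) : ftop n (map φ F) = (ftop n F).map φ := by
  unfold ftop
  rw [Polynomial.map_sum]
  refine Finset.sum_congr rfl fun j _ => ?_
  rw [Polynomial.map_monomial, coeff_map]

private theorem dehZ {n : ℕ} (hn : 3 ≤ n) {F : MvPolynomial (Fin 2) ℤ}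
    (hl : Irreducible (map (Int.castRingHom ℚ) (homogeneousComponent n F))) :
    ((ftop n F).map (Int.castRingHom ℚ)).natDegree = n ∧
      Irreducible ((ftop n F).map (Int.castRingHom ℚ)) := by
  rw [map_hc] at hl
  have h := deh (by omega) hl
  rw [ftop_map] at h
  exact h

private theorem aeval_mapQ {K : Type} [Field K] [Algebra ℚ K] (p : Polynomial ℤ) (z : K) :
    Polynomial.aeval z (p.map (Int.castRingHom ℚ)) = Polynomial.aeval z p := by
  rw [Polynomial.aeval_def, Polynomial.eval₂_map, Polynomial.aeval_def]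
  congr 1
  exact RingHom.ext_int _ _

private theorem carrier_eq (θ : ℝ) (x : ℝ) :
    x ∈ Subfield.closure {θ} ↔ x ∈ IntermediateField.adjoin ℚ ({θ} : Set ℝ) := by
  have h1 : Subfield.closure (Set.range (algebraMap ℚ ℝ) ∪ {θ}) = Subfield.closure {θ} := by
    apply le_antisymm
    · rw [Subfield.closure_le]
      rintro y (⟨q, rfl⟩ | hy)
      · have h2 : algebraMap ℚ ℝ q = ((q : ℚ) : ℝ) := rfl
        rw [h2]
        exact SubfieldClass.ratCast_mem _ q
      · exact Subfield.subset_closure hy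
    · exact Subfield.closure_mono Set.subset_union_right
  rw [← h1]
  exact Iff.rfl

private noncomputable def eqv (θ : ℝ) :
    ↥(Subfield.closure ({θ} : Set ℝ)) ≃+* ↥(IntermediateField.adjoin ℚ ({θ} : Set ℝ)) where
  toFun x := ⟨x.1, (carrier_eq θ x.1).1 x.2⟩
  invFun x := ⟨x.1, (carrier_eq θ x.1).2 x.2⟩
  left_inv _ := rfl
  right_inv _ := rfl
  map_mul' _ _ := rfl
  map_add' _ _ := rfl

private theorem minp {n : ℕ} (hn : 3 ≤ n) {F : MvPolynomial (Fin 2) ℤ}
    (hl : Irreducible (map (Int.castRingHom ℚ) (homogeneousComponent n F))) {θ : ℝ}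
    (hθ : Polynomial.aeval θ (ftop n F) = 0) : IsIntegral ℚ θ ∧ (minpoly ℚ θ).natDegree = n ∧
      minpoly ℚ θ = (ftop n F).map (Int.castRingHom ℚ) *
        Polynomial.C ((ftop n F).map (Int.castRingHom ℚ)).leadingCoeff⁻¹ := by
  obtain ⟨h1, h2⟩ := dehZ hn hl
  have h3 : Polynomial.aeval θ ((ftop n F).map (Int.castRingHom ℚ)) = 0 := by
    rw [aeval_mapQ]
    exact hθ
  have h4 : IsAlgebraic ℚ θ := ⟨_, h2.ne_zero, h3⟩
  have h5 := minpoly.eq_of_irreducible h2 h3
  refine ⟨h4.isIntegral, ?_, h5.symm⟩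
  rw [← h5, Polynomial.natDegree_mul_C, h1]
  exact inv_ne_zero (Polynomial.leadingCoeff_ne_zero.2 h2.ne_zero)

theorem inr_nf {n : ℕ} (hn : 3 ≤ n) {F : MvPolynomial (Fin 2) ℤ}
    (hl : Irreducible (map (Int.castRingHom ℚ) (homogeneousComponent n F))) {θ : ℝ}
    (hθ : Polynomial.aeval θ (ftop n F) = 0) : NumberField ↥(Subfield.closure {θ}) ∧
      Module.finrank ℚ ↥(Subfield.closure {θ}) = n := by
  obtain ⟨h1, h2, -⟩ := minp hn hl hθ
  have h3 : FiniteDimensional ℚ ↥(IntermediateField.adjoin ℚ ({θ} : Set ℝ)) :=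
    IntermediateField.adjoin.finiteDimensional h1
  have h4 : Module.finrank ℚ ↥(IntermediateField.adjoin ℚ ({θ} : Set ℝ)) = n := by
    rw [IntermediateField.adjoin.finrank h1, h2]
  have e : ↥(Subfield.closure ({θ} : Set ℝ)) ≃ₗ[ℚ] ↥(IntermediateField.adjoin ℚ ({θ} : Set ℝ)) :=
    { (eqv θ : _ ≃+ _) with
      map_smul' := fun q x => by
        exact map_rat_smul (eqv θ) q x }
  have h5 : FiniteDimensional ℚ ↥(Subfield.closure ({θ} : Set ℝ)) := e.symm.finiteDimensional
  refine ⟨{ to_charZero := inferInstance, to_finiteDimensional := h5 }, ?_⟩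
  rw [e.finrank_eq, h4]

private theorem coeff_big {k : Type} [Field k] {P : MvPolynomial (Fin 2) k} {a : ℕ}
    (hP : P.totalDegree ≤ a) {d : Fin 2 →₀ ℕ} (hd : a < d.degree) : P.coeff d = 0 := by
  apply coeff_eq_zero_of_totalDegree_lt
  have h : d.degree = ∑ i ∈ d.support, d i := rfl
  rw [← h]
  omega

private theorem hc_mul {k : Type} [Field k] {P Q : MvPolynomial (Fin 2) k} {a b : ℕ}
    (hP : P.totalDegree ≤ a) (hQ : Q.totalDegree ≤ b) :
    homogeneousComponent (a + b) (P * Q) = homogeneousComponent a P * homogeneousComponent b Q := by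
  ext d
  rw [coeff_homogeneousComponent]
  split_ifs with hd
  · rw [coeff_mul, coeff_mul]
    refine Finset.sum_congr rfl fun x hx => ?_
    have hx' : x.1 + x.2 = d := Finset.HasAntidiagonal.mem_antidiagonal.1 hx
    have hdeg : x.1.degree + x.2.degree = a + b := by
      rw [← hd, ← hx', map_add]
    rw [coeff_homogeneousComponent, coeff_homogeneousComponent]
    rcases lt_trichotomy x.1.degree a with h | h | h
    · rw [coeff_big hQ (by omega), if_neg (by omega), mul_zero, zero_mul]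
    · rw [if_pos h, if_pos (by omega)]
    · rw [coeff_big hP h, if_neg (by omega), zero_mul, zero_mul]
  · have h1 : (homogeneousComponent a P * homogeneousComponent b Q).IsHomogeneous (a + b) :=
      (homogeneousComponent_isHomogeneous a P).mul (homogeneousComponent_isHomogeneous b Q)
    rw [h1.coeff_eq_zero hd]

private theorem unit_of_hc {k : Type} [Field k] {P : MvPolynomial (Fin 2) k}
    (h : IsUnit (homogeneousComponent P.totalDegree P)) : IsUnit P := by
  have h1 : (homogeneousComponent P.totalDegree P).totalDegree = P.totalDegree :=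
    (homogeneousComponent_isHomogeneous _ P).totalDegree h.ne_zero
  have h2 := (isUnit_iff_totalDegree_of_isReduced.1 h).2
  rw [h1] at h2
  have h3 : P = C (coeff 0 P) := totalDegree_eq_zero_iff_eq_C.1 h2
  have h4 : homogeneousComponent 0 P = C (coeff 0 P) := homogeneousComponent_zero P
  rw [h2, h4, ← h3] at h
  exact h

theorem inr_irr {n : ℕ} (hn : 3 ≤ n) {F : MvPolynomial (Fin 2) ℤ} (hd : F.totalDegree ≤ n)
    (hl : Irreducible (map (Int.castRingHom ℚ) (homogeneousComponent n F))) :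
    Irreducible (map (Int.castRingHom ℚ) F) := by
  rw [map_hc] at hl
  have hd' : (map (Int.castRingHom ℚ) F).totalDegree ≤ n := (Finset.sup_mono (support_map_subset _ _)).trans hd
  generalize map (Int.castRingHom ℚ) F = G at hl hd'
  have hG0 : G ≠ 0 := by
    rintro rfl
    rw [map_zero] at hl
    exact hl.ne_zero rfl
  have hdeg : G.totalDegree = n := by
    by_contra hne
    exact hl.ne_zero (homogeneousComponent_eq_zero n G (by omega))
  refine ⟨fun hu => ?_, fun a b hab => ?_⟩
  · have h2 := (isUnit_iff_totalDegree_of_isReduced.1 hu).2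
    omega
  · have ha : a ≠ 0 := by
      rintro rfl
      exact hG0 (by rw [hab, zero_mul])
    have hb : b ≠ 0 := by
      rintro rfl
      exact hG0 (by rw [hab, mul_zero])
    have h1 : a.totalDegree + b.totalDegree = n := by
      rw [← hdeg, hab, totalDegree_mul_of_isDomain ha hb]
    have h2 : homogeneousComponent n G =
        homogeneousComponent a.totalDegree a * homogeneousComponent b.totalDegree b := by
      rw [← hc_mul le_rfl le_rfl, h1, hab]
    rcases hl.isUnit_or_isUnit h2 with h3 | h3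
    · exact Or.inl (unit_of_hc h3)
    · exact Or.inr (unit_of_hc h3)

private theorem pole {K : Type} [Field K] (X : LaurentSeries K) :
    ∃ m : ℕ, ∀ m' ≥ m, ∃ X1 : PowerSeries K, HahnSeries.ofPowerSeries ℤ K X1 =
      HahnSeries.ofPowerSeries ℤ K PowerSeries.X ^ m' * X := by
  refine ⟨X.order.natAbs, fun m' hm' => ?_⟩
  refine ⟨PowerSeries.X ^ ((m' : ℤ) + X.order).toNat * X.powerSeriesPart, ?_⟩
  have h1 : (((m' : ℤ) + X.order).toNat : ℤ) = (m' : ℤ) + X.order := by
    apply Int.toNat_of_nonneg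
    omega
  rw [map_mul, HahnSeries.ofPowerSeries_X_pow, ← map_pow, HahnSeries.ofPowerSeries_X_pow, h1]
  conv_rhs => rw [← LaurentSeries.single_order_mul_powerSeriesPart X]
  rw [← mul_assoc, HahnSeries.single_mul_single, mul_one]

private theorem normal {K : Type} [Field K] (X Y : LaurentSeries K)
    (h : ¬ (X ∈ (HahnSeries.ofPowerSeries ℤ K).range ∧ Y ∈ (HahnSeries.ofPowerSeries ℤ K).range)) :
    ∃ (m : ℕ) (X1 Y1 : PowerSeries K), 1 ≤ m ∧
      HahnSeries.ofPowerSeries ℤ K X1 = HahnSeries.ofPowerSeries ℤ K PowerSeries.X ^ m * X ∧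
      HahnSeries.ofPowerSeries ℤ K Y1 = HahnSeries.ofPowerSeries ℤ K PowerSeries.X ^ m * Y ∧
      ¬ (PowerSeries.constantCoeff X1 = 0 ∧ PowerSeries.constantCoeff Y1 = 0) := by
  classical
  have hex : ∃ m : ℕ, ∃ X1 Y1 : PowerSeries K,
      HahnSeries.ofPowerSeries ℤ K X1 = HahnSeries.ofPowerSeries ℤ K PowerSeries.X ^ m * X ∧
      HahnSeries.ofPowerSeries ℤ K Y1 = HahnSeries.ofPowerSeries ℤ K PowerSeries.X ^ m * Y := by
    obtain ⟨m1, h1⟩ := pole X
    obtain ⟨m2, h2⟩ := pole Y
    obtain ⟨X1, hX⟩ := h1 (max m1 m2) (le_max_left _ _)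
    obtain ⟨Y1, hY⟩ := h2 (max m1 m2) (le_max_right _ _)
    exact ⟨_, X1, Y1, hX, hY⟩
  obtain ⟨X1, Y1, hX, hY⟩ := Nat.find_spec hex
  have hm : 1 ≤ Nat.find hex := by
    by_contra hc
    have h0 : Nat.find hex = 0 := by omega
    rw [h0, pow_zero, one_mul] at hX hY
    exact h ⟨⟨X1, hX⟩, ⟨Y1, hY⟩⟩
  refine ⟨Nat.find hex, X1, Y1, hm, hX, hY, ?_⟩
  rintro ⟨hx, hy⟩
  obtain ⟨X2, rfl⟩ := PowerSeries.X_dvd_iff.2 hx
  obtain ⟨Y2, rfl⟩ := PowerSeries.X_dvd_iff.2 hy
  have hT : HahnSeries.ofPowerSeries ℤ K PowerSeries.X ≠ 0 := by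
    rw [Ne, map_eq_zero_iff _ HahnSeries.ofPowerSeries_injective]
    exact PowerSeries.X_ne_zero
  refine Nat.find_min hex (m := Nat.find hex - 1) (by omega) ⟨X2, Y2, ?_, ?_⟩
  · rw [map_mul, show Nat.find hex = Nat.find hex - 1 + 1 from by omega, pow_succ', mul_assoc] at hX
    exact mul_left_cancel₀ hT hX
  · rw [map_mul, show Nat.find hex = Nat.find hex - 1 + 1 from by omega, pow_succ', mul_assoc] at hY
    exact mul_left_cancel₀ hT hY

private theorem d01 {F : MvPolynomial (Fin 2) ℤ} {n : ℕ} (hd : F.totalDegree ≤ n)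
    {d : Fin 2 →₀ ℕ} (h : d ∈ F.support) : d 0 + d 1 ≤ n := by
  refine le_trans ?_ ((le_totalDegree h).trans hd)
  rw [Finsupp.sum_fintype _ _ (by simp), Fin.sum_univ_two]

private theorem vl_sum {S : Type*} [CommRing S] (F : MvPolynomial (Fin 2) ℤ) (x y : S) :
    vl F x y = ∑ d ∈ F.support, ((F.coeff d : ℤ) : S) * (x ^ d 0 * y ^ d 1) := by
  unfold vl
  rw [eval₂_eq']
  refine Finset.sum_congr rfl fun d _ => ?_
  rw [Fin.prod_univ_two]
  rfl

private theorem top_zero {K : Type} [Field K] {n : ℕ} {F : MvPolynomial (Fin 2) ℤ}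
    (hd : F.totalDegree ≤ n) {X Y : LaurentSeries K} (hXY : vl F X Y = 0) {m : ℕ}
    {X1 Y1 : PowerSeries K} (hm : 1 ≤ m)
    (hX : HahnSeries.ofPowerSeries ℤ K X1 = HahnSeries.ofPowerSeries ℤ K PowerSeries.X ^ m * X)
    (hY : HahnSeries.ofPowerSeries ℤ K Y1 = HahnSeries.ofPowerSeries ℤ K PowerSeries.X ^ m * Y) :
    ∑ d ∈ F.support, ((F.coeff d : ℤ) : K) * ((0 : K) ^ (n - d 0 - d 1) *
      (PowerSeries.constantCoeff X1 ^ d 0 * PowerSeries.constantCoeff Y1 ^ d 1)) = 0 := by
  have h1 : HahnSeries.ofPowerSeries ℤ K (∑ d ∈ F.support, ((F.coeff d : ℤ) : PowerSeries K) *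
      ((PowerSeries.X ^ m) ^ (n - d 0 - d 1) * (X1 ^ d 0 * Y1 ^ d 1))) = 0 := by
    have h2 : (HahnSeries.ofPowerSeries ℤ K PowerSeries.X ^ m) ^ n * vl F X Y = 0 := by
      rw [hXY, mul_zero]
    rw [vl_sum, Finset.mul_sum] at h2
    rw [map_sum, ← h2]
    refine Finset.sum_congr rfl fun d hds => ?_
    have h3 := d01 hd hds
    rw [map_mul, map_mul, map_mul, map_pow, map_pow, map_pow, map_pow, hX, hY, map_intCast,
      mul_pow, mul_pow]
    have h4 : (HahnSeries.ofPowerSeries ℤ K PowerSeries.X ^ m) ^ n =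
        (HahnSeries.ofPowerSeries ℤ K PowerSeries.X ^ m) ^ (n - d 0 - d 1) *
        ((HahnSeries.ofPowerSeries ℤ K PowerSeries.X ^ m) ^ d 0 *
          (HahnSeries.ofPowerSeries ℤ K PowerSeries.X ^ m) ^ d 1) := by
      rw [← pow_add, ← pow_add]
      congr 1
      omega
    rw [h4]
    ring
  rw [map_eq_zero_iff _ HahnSeries.ofPowerSeries_injective] at h1
  have h2 := congrArg (PowerSeries.constantCoeff (R := K)) h1
  rw [map_sum, map_zero] at h2
  refine Eq.trans (Finset.sum_congr rfl fun d _ => ?_) h2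
  rw [map_mul, map_mul, map_mul, map_pow, map_pow, map_pow, map_pow, map_intCast,
    PowerSeries.constantCoeff_X, zero_pow (by omega : m ≠ 0)]

private theorem sum_ftop {K : Type} [Field K] {n : ℕ} {F : MvPolynomial (Fin 2) ℤ}
    (hd : F.totalDegree ≤ n) (x y : K) :
    ∑ d ∈ F.support, ((F.coeff d : ℤ) : K) * ((0 : K) ^ (n - d 0 - d 1) * (x ^ d 0 * y ^ d 1)) =
      ∑ j ∈ Finset.range (n + 1),
        ((F.coeff (Finsupp.single 0 (n - j) + Finsupp.single 1 j) : ℤ) : K) *
          (x ^ (n - j) * y ^ j) := by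
  classical
  have e0 : ∀ j, (Finsupp.single (0 : Fin 2) (n - j) + Finsupp.single 1 j : Fin 2 →₀ ℕ) 0 = n - j := by
    intro j
    simp
  have e1 : ∀ j, (Finsupp.single (0 : Fin 2) (n - j) + Finsupp.single 1 j : Fin 2 →₀ ℕ) 1 = j := by
    intro j
    simp
  have h1 : ∑ j ∈ Finset.range (n + 1),
        ((F.coeff (Finsupp.single 0 (n - j) + Finsupp.single 1 j) : ℤ) : K) *
          (x ^ (n - j) * y ^ j) =
      ∑ d ∈ (Finset.range (n + 1)).image
        (fun j => (Finsupp.single (0 : Fin 2) (n - j) + Finsupp.single 1 j : Fin 2 →₀ ℕ)),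
        ((F.coeff d : ℤ) : K) * (x ^ d 0 * y ^ d 1) := by
    rw [Finset.sum_image]
    · refine Finset.sum_congr rfl fun j _ => ?_
      rw [e0, e1]
    · intro a _ b _ hab
      have := congrArg (fun g : Fin 2 →₀ ℕ => g 1) hab
      simpa using this
  rw [h1]
  have h2 : ∑ d ∈ F.support, ((F.coeff d : ℤ) : K) *
      ((0 : K) ^ (n - d 0 - d 1) * (x ^ d 0 * y ^ d 1)) =
      ∑ d ∈ F.support.filter (fun d => d 0 + d 1 = n),
        ((F.coeff d : ℤ) : K) * (x ^ d 0 * y ^ d 1) := by
    rw [Finset.sum_filter]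
    refine Finset.sum_congr rfl fun d hds => ?_
    have h3 := d01 hd hds
    split_ifs with h4
    · rw [show n - d 0 - d 1 = 0 from by omega, pow_zero, one_mul]
    · rw [zero_pow (by omega), zero_mul, mul_zero]
  rw [h2]
  refine Finset.sum_subset ?_ ?_
  · intro d hds
    rw [Finset.mem_filter] at hds
    rw [Finset.mem_image]
    refine ⟨d 1, Finset.mem_range.2 (by omega), ?_⟩
    ext i
    fin_cases i
    · simp
      omega
    · simp
  · intro d hdi hdn
    rw [Finset.mem_image] at hdi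
    obtain ⟨j, hj, rfl⟩ := hdi
    rw [Finset.mem_range] at hj
    have h3 : (Finsupp.single (0 : Fin 2) (n - j) + Finsupp.single 1 j : Fin 2 →₀ ℕ) ∉ F.support := by
      intro h4
      exact hdn (Finset.mem_filter.2 ⟨h4, by rw [e0, e1]; omega⟩)
    rw [notMem_support_iff.1 h3, Int.cast_zero, zero_mul]

theorem inr {n : ℕ} (hn : 3 ≤ n) {F : MvPolynomial (Fin 2) ℤ} (hd : F.totalDegree ≤ n)
    (hl : Irreducible (map (Int.castRingHom ℚ) (homogeneousComponent n F))) {θ : ℝ}
    (hθ : Polynomial.aeval θ (ftop n F) = 0) : INFR ↥(Subfield.closure {θ}) F := by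
  intro K _ _ _ X Y hXY
  by_cases hboth : X ∈ (HahnSeries.ofPowerSeries ℤ K).range ∧
      Y ∈ (HahnSeries.ofPowerSeries ℤ K).range
  · exact Or.inl hboth
  · right
    obtain ⟨m, X1, Y1, hm, hX, hY, hne⟩ := normal X Y hboth
    have h1 := top_zero hd hXY hm hX hY
    rw [sum_ftop hd] at h1
    generalize PowerSeries.constantCoeff X1 = x at h1 hne
    generalize PowerSeries.constantCoeff Y1 = y at h1 hne
    obtain ⟨hdeg, hirr⟩ := dehZ hn hl
    have hcn : ((F.coeff (Finsupp.single 0 (n - n) + Finsupp.single 1 n) : ℤ) : K) ≠ 0 := by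
      rw [Int.cast_ne_zero]
      intro h0
      have h2 : (ftop n F).coeff n = 0 := by
        unfold ftop
        rw [Polynomial.finsetSum_coeff, Finset.sum_eq_single n]
        · rw [Polynomial.coeff_monomial, if_pos rfl, h0]
        · intro b _ hb
          rw [Polynomial.coeff_monomial, if_neg hb]
        · intro h
          exact absurd (Finset.mem_range.2 (Nat.lt_succ_self n)) h
      have h3 : ((ftop n F).map (Int.castRingHom ℚ)).leadingCoeff = 0 := by
        rw [Polynomial.leadingCoeff, hdeg, Polynomial.coeff_map, h2, map_zero]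
      exact hirr.ne_zero (Polynomial.leadingCoeff_eq_zero.1 h3)
    have hx : x ≠ 0 := by
      rintro rfl
      have hy : y ≠ 0 := fun h => hne ⟨rfl, h⟩
      rw [Finset.sum_eq_single n] at h1
      · rw [Nat.sub_self, pow_zero, one_mul] at h1
        rw [Nat.sub_self] at hcn
        exact (mul_ne_zero hcn (pow_ne_zero _ hy)) h1
      · intro b hb hbn
        rw [Finset.mem_range] at hb
        rw [zero_pow (by omega), zero_mul, mul_zero]
      · intro h
        exact absurd (Finset.mem_range.2 (Nat.lt_succ_self n)) h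
    have hz : Polynomial.aeval (y / x) (ftop n F) = 0 := by
      have h2 : x ^ n * Polynomial.aeval (y / x) (ftop n F) = 0 := by
        rw [← h1]
        unfold ftop
        rw [map_sum, Finset.mul_sum]
        refine Finset.sum_congr rfl fun j hj => ?_
        rw [Finset.mem_range] at hj
        rw [Polynomial.aeval_monomial, eq_intCast, div_pow]
        have h3 : x ^ n = x ^ (n - j) * x ^ j := by
          rw [← pow_add]
          congr 1
          omega
        rw [h3]
        field_simp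
      rcases mul_eq_zero.1 h2 with h3 | h3
      · exact absurd h3 (pow_ne_zero _ hx)
      · exact h3
    obtain ⟨hint, -, hmin⟩ := minp hn hl hθ
    have hmem : y / x ∈ (minpoly ℚ θ).aroots K := by
      rw [Polynomial.mem_aroots]
      refine ⟨minpoly.ne_zero hint, ?_⟩
      rw [hmin, map_mul, aeval_mapQ, hz, zero_mul]
    exact ⟨((IntermediateField.algHomAdjoinIntegralEquiv ℚ hint).symm ⟨y / x, hmem⟩ :
      _ →ₐ[ℚ] K).toRingHom.comp (eqv θ : _ →+* _)⟩

end Pool.Agent.H85.LK
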