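import Pool.Agent.H82.NS.PlC

/-! # [H85 LK FDI] The fundamental inequality

`z i` (`i < s`) are independent over `k` modulo the maximal ideal of `O`, `π` is a uniformizer, `π^e x` is a unit. Then the `e s` elements
`z i π^j` (`j < e`) are linearly independent over `k(x)`: in a relation `∑ c_ij(x) z i π^j = 0` (multiply by a power of `x` and a common denominator: `c_ij` polynomials
in `x`, not all zero; or: `c_ij = (1/x)^a (r + element of m)`, `r ∈ k`, `r ≠ 0`, for `c_ij ≠ 0`) the nonzero `c_ij` have `ord(c_ij) ∈ e ℤ` (`ord = ord_exists`, or compare with powers of `π`), and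
`ord(∑_i c_ij z i) = min_i ord(c_ij) ∈ e ℤ` since the `z i` are independent modulo `m`; so the terms `(∑_i c_ij z i) π^j`, `j < e`, that are not zero have different `ord`: the sum is not zero.
Useful: for `p ∈ k[X]`, `p ≠ 0`, `d = natDegree p`: `p(x)/x^d - leadingCoeff ∈ O.nonunits` (`x⁻¹ ∈ O.nonunits`).
Special case `e = 1` (only `1 ≤ e` is used for `π`): `s ≤ [L : k(x)]`. -/

namespace Pool.Agent.H85.LK

open Pool.Agent.H82.NS IntermediateField

private theorem fd_one {L K : Type*} [Field L] [Field K] [Algebra L K] {V : ValuationSubring K}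
    (hL : ∀ e : L, algebraMap L K e ∈ V) {e : L} (he : e ≠ 0) :
    V.valuation (algebraMap L K e) = 1 := by
  apply le_antisymm
  · exact (V.valuation_le_one_iff _).2 (hL e)
  · have h1 : V.valuation (algebraMap L K e⁻¹) ≤ 1 := (V.valuation_le_one_iff _).2 (hL e⁻¹)
    have h0 : V.valuation (algebraMap L K e) ≠ 0 := by
      rw [Valuation.ne_zero_iff]
      exact (map_ne_zero _).2 he
    rw [map_inv₀, map_inv₀] at h1
    exact (inv_le_one₀ (zero_lt_iff.2 h0)).1 h1

private theorem fd_gt {K : Type*} [Field K] {V : ValuationSubring K} {x : K} (hx : x ∉ V) :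
    1 < V.valuation x := by
  by_contra h
  exact hx ((V.valuation_le_one_iff _).1 (not_lt.1 h))

private theorem fd_poly {L K : Type*} [Field L] [Field K] [Algebra L K] {V : ValuationSubring K}
    (hL : ∀ e : L, algebraMap L K e ∈ V) {x : K} (hx : x ∉ V) {P : Polynomial L} (hP : P ≠ 0) :
    V.valuation (Polynomial.aeval x P) = V.valuation x ^ P.natDegree := by
  have hx1 : 1 < V.valuation x := fd_gt hx
  have hx0 : 0 < V.valuation x := lt_trans zero_lt_one hx1
  have hlead : V.valuation (algebraMap L K P.leadingCoeff * x ^ P.natDegree)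
      = V.valuation x ^ P.natDegree := by
    rw [map_mul, map_pow, fd_one hL (Polynomial.leadingCoeff_ne_zero.2 hP), one_mul]
  have hsplit : Polynomial.aeval x P =
      (∑ i ∈ Finset.range P.natDegree, algebraMap L K (P.coeff i) * x ^ i) +
        algebraMap L K P.leadingCoeff * x ^ P.natDegree := by
    rw [Polynomial.aeval_eq_sum_range, Finset.sum_range_succ]
    simp only [Algebra.smul_def]
    rfl
  have hlt : V.valuation (∑ i ∈ Finset.range P.natDegree, algebraMap L K (P.coeff i) * x ^ i)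
      < V.valuation x ^ P.natDegree := by
    apply Valuation.map_sum_lt _ (pow_pos hx0 _).ne'
    intro i hi
    rw [map_mul, map_pow]
    calc V.valuation (algebraMap L K (P.coeff i)) * V.valuation x ^ i
        ≤ 1 * V.valuation x ^ i :=
          mul_le_mul' ((V.valuation_le_one_iff _).2 (hL _)) (le_refl _)
      _ = V.valuation x ^ i := one_mul _
      _ < V.valuation x ^ P.natDegree := pow_lt_pow_right₀ hx1 (Finset.mem_range.1 hi)
  rw [hsplit, Valuation.map_add_eq_of_lt_right V.valuation (by rw [hlead]; exact hlt), hlead]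

private theorem fd_adj {E K : Type*} [Field E] [Field K] [Algebra E K] {x : K}
    {V : ValuationSubring K} (hV : Inf E x V) {a : K} (ha : a ∈ E⟮x⟯) (ha0 : a ≠ 0) :
    ∃ n : ℤ, V.valuation a = V.valuation x ^ n := by
  rw [IntermediateField.mem_adjoin_simple_iff] at ha
  obtain ⟨r, s, rfl⟩ := ha
  have hr : r ≠ 0 := by rintro rfl; simp at ha0
  have hs : s ≠ 0 := by rintro rfl; simp at ha0
  have hx0 : V.valuation x ≠ 0 := (lt_trans zero_lt_one (fd_gt hV.pole)).ne'
  refine ⟨(r.natDegree : ℤ) - (s.natDegree : ℤ), ?_⟩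
  rw [map_div₀, fd_poly hV.base hV.pole hr, fd_poly hV.base hV.pole hs, zpow_sub₀ hx0,
    zpow_natCast, zpow_natCast]

private theorem fd_sum {K Γ : Type*} [Field K] [LinearOrderedCommGroupWithZero Γ] (v : Valuation K Γ)
    {ι : Type*} (s : Finset ι) (t : ι → K)
    (h : ∀ i ∈ s, ∀ j ∈ s, t i ≠ 0 → t j ≠ 0 → v (t i) = v (t j) → i = j)
    (hs : ∑ i ∈ s, t i = 0) : ∀ i ∈ s, t i = 0 := by
  classical
  by_contra hc
  push Not at hc
  obtain ⟨i1, hi1, hti1⟩ := hc
  have hne : (s.filter fun i => t i ≠ 0).Nonempty := ⟨i1, Finset.mem_filter.2 ⟨hi1, hti1⟩⟩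
  obtain ⟨i0, hi0, hmax⟩ := Finset.exists_max_image _ (fun i => v (t i)) hne
  rw [Finset.mem_filter] at hi0
  have hv0 : v (t i0) ≠ 0 := (Valuation.ne_zero_iff _).2 hi0.2
  have hlt : v (∑ i ∈ s.erase i0, t i) < v (t i0) := by
    apply Valuation.map_sum_lt _ hv0
    intro i hi
    rw [Finset.mem_erase] at hi
    by_cases h0 : t i = 0
    · rw [h0, map_zero]
      exact zero_lt_iff.2 hv0
    · refine lt_of_le_of_ne (hmax i (Finset.mem_filter.2 ⟨hi.2, h0⟩)) ?_
      intro heq
      exact hi.1 (h i hi.2 i0 hi0.1 h0 hi0.2 heq)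
  have hsum : t i0 + ∑ i ∈ s.erase i0, t i = 0 := by
    rw [Finset.add_sum_erase _ _ hi0.1]
    exact hs
  have h3 := Valuation.map_add_eq_of_lt_left v hlt
  rw [hsum, map_zero] at h3
  exact hv0 h3.symm

private theorem fd_res {k L : Type} [Field k] [Field L] [Algebra k L] {x : L} {O : ValuationSubring L}
    (hO : Inf k x O) {a : L} (ha : a ∈ k⟮x⟯) (h1 : O.valuation a ≤ 1) :
    ∃ c : k, O.valuation (a - algebraMap k L c) < 1 := by
  by_cases ha0 : a = 0
  · refine ⟨0, ?_⟩
    rw [ha0, map_zero, sub_zero, map_zero]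
    exact zero_lt_one
  have hx1 : 1 < O.valuation x := fd_gt hO.pole
  have hx0 : 0 < O.valuation x := lt_trans zero_lt_one hx1
  rw [IntermediateField.mem_adjoin_simple_iff] at ha
  obtain ⟨P, Q, rfl⟩ := ha
  have hP : P ≠ 0 := by rintro rfl; simp at ha0
  have hQ : Q ≠ 0 := by rintro rfl; simp at ha0
  have hvQ : O.valuation (Polynomial.aeval x Q) = O.valuation x ^ Q.natDegree :=
    fd_poly hO.base hO.pole hQ
  have hvQ0 : 0 < O.valuation (Polynomial.aeval x Q) := by
    rw [hvQ]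
    exact pow_pos hx0 _
  have hQx : Polynomial.aeval x Q ≠ 0 := (Valuation.ne_zero_iff _).1 hvQ0.ne'
  have hdeg : P.natDegree ≤ Q.natDegree := by
    rw [map_div₀, div_le_one₀ hvQ0, hvQ, fd_poly hO.base hO.pole hP] at h1
    exact (pow_le_pow_iff_right₀ hx1).1 h1
  have hlc : Q.leadingCoeff ≠ 0 := Polynomial.leadingCoeff_ne_zero.2 hQ
  obtain ⟨c, hc⟩ : ∃ c : k, c = P.coeff Q.natDegree / Q.leadingCoeff := ⟨_, rfl⟩
  obtain ⟨R, hR⟩ : ∃ R : Polynomial k, R = P - Polynomial.C c * Q := ⟨_, rfl⟩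
  have hcn : R.coeff Q.natDegree = 0 := by
    rw [hR, Polynomial.coeff_sub, Polynomial.coeff_C_mul, hc, Polynomial.coeff_natDegree,
      div_mul_cancel₀ _ hlc, sub_self]
  have hRd : R.natDegree ≤ Q.natDegree := by
    rw [hR]
    refine (Polynomial.natDegree_sub_le _ _).trans (max_le hdeg ?_)
    exact Polynomial.natDegree_C_mul_le _ _
  have hRv : O.valuation (Polynomial.aeval x R) < O.valuation x ^ Q.natDegree := by
    by_cases hR0 : R = 0
    · rw [hR0, map_zero, map_zero]
      exact pow_pos hx0 _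
    · rw [fd_poly hO.base hO.pole hR0]
      refine pow_lt_pow_right₀ hx1 (lt_of_le_of_ne hRd ?_)
      intro h2
      rw [← h2, Polynomial.coeff_natDegree] at hcn
      exact hR0 (Polynomial.leadingCoeff_eq_zero.1 hcn)
  refine ⟨c, ?_⟩
  have h2 : Polynomial.aeval x P / Polynomial.aeval x Q - algebraMap k L c =
      Polynomial.aeval x R / Polynomial.aeval x Q := by
    rw [hR, map_sub, map_mul, Polynomial.aeval_C, sub_div, mul_div_assoc, div_self hQx, mul_one]
  rw [h2, map_div₀, div_lt_one₀ hvQ0, hvQ]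
  exact hRv

private theorem fd_A {k L : Type} [Field k] [Field L] [Algebra k L] {x : L} {O : ValuationSubring L}
    (hO : Inf k x O) {s : ℕ} {z : Fin s → L} (hz : ∀ i, z i ∈ O)
    (hli : ∀ c : Fin s → k, ∑ i, algebraMap k L (c i) * z i ∈ O.nonunits → c = 0)
    (g : Fin s → L) (hg : ∀ i, g i ∈ k⟮x⟯) (hg0 : ∃ i, g i ≠ 0) :
    ∃ n : ℤ, O.valuation (∑ i, g i * z i) = O.valuation x ^ n := by
  have hx1 : 1 < O.valuation x := fd_gt hO.pole
  have hx0 : 0 < O.valuation x := lt_trans zero_lt_one hx1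
  have hxne : x ≠ 0 := (Valuation.ne_zero_iff _).1 hx0.ne'
  obtain ⟨i1, hi1⟩ := hg0
  obtain ⟨i0, -, hmax⟩ := Finset.exists_max_image Finset.univ (fun i => O.valuation (g i))
    ⟨i1, Finset.mem_univ i1⟩
  have hgi0 : g i0 ≠ 0 := by
    intro h
    have h2 := hmax i1 (Finset.mem_univ i1)
    rw [h, map_zero] at h2
    exact (Valuation.ne_zero_iff _).2 hi1 (le_antisymm h2 zero_le)
  obtain ⟨n, hn⟩ := fd_adj hO (hg i0) hgi0
  obtain ⟨a, ha⟩ : ∃ a : Fin s → L, a = fun i => g i * x ^ (-n) := ⟨_, rfl⟩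
  have hamem : ∀ i, a i ∈ k⟮x⟯ := by
    intro i
    rw [ha]
    exact mul_mem (hg i) (zpow_mem (IntermediateField.mem_adjoin_simple_self k x) _)
  have hxn : O.valuation x ^ n * O.valuation x ^ (-n) = 1 := by
    rw [← zpow_add₀ hx0.ne', add_neg_cancel, zpow_zero]
  have hav : ∀ i, O.valuation (a i) ≤ 1 := by
    intro i
    rw [ha, map_mul, map_zpow₀, ← hxn]
    refine mul_le_mul' ?_ (le_refl _)
    rw [← hn]
    exact hmax i (Finset.mem_univ i)
  have hai0 : O.valuation (a i0) = 1 := by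
    rw [ha, map_mul, map_zpow₀, ← hxn, hn]
  choose c hc using fun i => fd_res hO (hamem i) (hav i)
  have hcne : c ≠ 0 := by
    intro h
    have h2 := hc i0
    rw [h, Pi.zero_apply, map_zero, sub_zero, hai0] at h2
    exact lt_irrefl _ h2
  have hnon : ∑ i, algebraMap k L (c i) * z i ∉ O.nonunits := fun h => hcne (hli c h)
  have hmem : ∑ i, algebraMap k L (c i) * z i ∈ O :=
    sum_mem fun i _ => mul_mem (hO.base _) (hz i)
  have hv1 : O.valuation (∑ i, algebraMap k L (c i) * z i) = 1 := by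
    rw [ValuationSubring.mem_nonunits_iff, not_lt] at hnon
    exact le_antisymm ((O.valuation_le_one_iff _).2 hmem) hnon
  have hv2 : O.valuation (∑ i, (a i - algebraMap k L (c i)) * z i) < 1 := by
    refine Valuation.map_sum_lt _ one_ne_zero fun i _ => ?_
    rw [map_mul]
    exact mul_lt_one_of_lt_of_le (hc i) ((O.valuation_le_one_iff _).2 (hz i))
  have hsum : ∑ i, a i * z i = (∑ i, algebraMap k L (c i) * z i) +
      ∑ i, (a i - algebraMap k L (c i)) * z i := by
    rw [← Finset.sum_add_distrib]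
    refine Finset.sum_congr rfl fun i _ => ?_
    ring
  have hv3 : O.valuation (∑ i, a i * z i) = 1 := by
    rw [hsum, Valuation.map_add_eq_of_lt_left _ (by rw [hv1]; exact hv2), hv1]
  refine ⟨n, ?_⟩
  have h4 : ∑ i, g i * z i = x ^ n * ∑ i, a i * z i := by
    rw [Finset.mul_sum, ha]
    refine Finset.sum_congr rfl fun i _ => ?_
    have h5 : x ^ n * x ^ (-n) = 1 := by
      rw [← zpow_add₀ hxne, add_neg_cancel, zpow_zero]
    calc g i * z i = (x ^ n * x ^ (-n)) * (g i * z i) := by rw [h5, one_mul]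
      _ = x ^ n * (g i * x ^ (-n) * z i) := by ring
  rw [h4, map_mul, map_zpow₀, hv3, mul_one]

theorem fund {k L : Type} [Field k] [Field L] [Algebra k L] {x : L} (hK : FF k x) {O : ValuationSubring L}
    (hO : Inf k x O) {π : L} {e : ℕ} (hπ0 : π ≠ 0) (hπ : π ∈ O.nonunits) (he : 1 ≤ e)
    (hx1 : x⁻¹ / π ^ e ∈ O) (hx2 : π ^ e * x ∈ O) {s : ℕ} {z : Fin s → L} (hz : ∀ i, z i ∈ O)
    (hli : ∀ c : Fin s → k, ∑ i, algebraMap k L (c i) * z i ∈ O.nonunits → c = 0) :
    e * s ≤ Module.finrank k⟮x⟯ L := by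
  classical
  have hfin := hK.fin
  have hx1' : 1 < O.valuation x := fd_gt hO.pole
  have hx0 : 0 < O.valuation x := lt_trans zero_lt_one hx1'
  obtain ⟨γ, hγ⟩ : ∃ γ, γ = O.valuation π := ⟨_, rfl⟩
  have hγ0 : 0 < γ := by
    rw [hγ]
    exact zero_lt_iff.2 ((Valuation.ne_zero_iff _).2 hπ0)
  have hγ1 : γ < 1 := by
    rw [hγ]
    exact (ValuationSubring.mem_nonunits_iff _).1 hπ
  have hvx : O.valuation x = (γ ^ e)⁻¹ := by
    rw [← O.valuation_le_one_iff, map_div₀, map_inv₀, map_pow, ← hγ, div_le_one₀ (pow_pos hγ0 e)] at hx1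
    rw [← O.valuation_le_one_iff, map_mul, map_pow, ← hγ] at hx2
    apply le_antisymm
    · rw [le_inv_comm₀ hx0 (pow_pos hγ0 e), ← one_div, le_div_iff₀ hx0]
      exact hx2
    · rw [inv_le_comm₀ (pow_pos hγ0 e) hx0]
      exact hx1
  have hli' : LinearIndependent k⟮x⟯ (fun ij : Fin s × Fin e => z ij.1 * π ^ (ij.2 : ℕ)) := by
    rw [Fintype.linearIndependent_iff]
    intro g hg
    obtain ⟨w, hw⟩ : ∃ w : Fin e → L, w = fun j => ∑ i, (g (i, j) : L) * z i := ⟨_, rfl⟩
    have hsum : ∑ j, w j * π ^ (j : ℕ) = 0 := by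
      rw [← hg, Fintype.sum_prod_type, Finset.sum_comm, hw]
      refine Finset.sum_congr rfl fun j _ => ?_
      rw [Finset.sum_mul]
      refine Finset.sum_congr rfl fun i _ => ?_
      rw [Algebra.smul_def, mul_assoc]
      rfl
    have hval : ∀ j, w j ≠ 0 → ∃ n : ℤ, O.valuation (w j) = O.valuation x ^ n := by
      intro j hj
      rw [hw] at hj ⊢
      refine fd_A hO hz hli (fun i => (g (i, j) : L)) (fun i => (g (i, j)).2) ?_
      by_contra hcon
      push Not at hcon
      apply hj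
      exact Finset.sum_eq_zero fun i _ => by rw [hcon i, zero_mul]
    have hval2 : ∀ j, (∃ i, g (i, j) ≠ 0) → w j ≠ 0 := by
      rintro j ⟨i, hi⟩ hj
      obtain ⟨n, hn⟩ := fd_A hO hz hli (fun i => (g (i, j) : L)) (fun i => (g (i, j)).2)
        ⟨i, fun h => hi (Subtype.ext h)⟩
      rw [hw] at hj
      simp only at hj
      rw [hj, map_zero] at hn
      exact (zpow_pos hx0 n).ne hn
    have hall : ∀ j ∈ Finset.univ, w j * π ^ (j : ℕ) = 0 := by
      refine fd_sum O.valuation Finset.univ (fun j : Fin e => w j * π ^ (j : ℕ)) ?_ hsum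
      intro j _ j' _ hj hj' heq
      obtain ⟨n, hn⟩ := hval j (left_ne_zero_of_mul hj)
      obtain ⟨n', hn'⟩ := hval j' (left_ne_zero_of_mul hj')
      have hform : ∀ (m : ℤ) (t : ℕ), O.valuation x ^ m * γ ^ t = γ ^ ((t : ℤ) + e * (-m)) := by
        intro m t
        rw [hvx, ← zpow_natCast, ← zpow_natCast, ← zpow_neg, ← zpow_mul, ← zpow_add₀ hγ0.ne']
        congr 1
        ring
      simp only [map_mul, map_pow] at heq
      rw [hn, hn', ← hγ, hform, hform] at heq
      have h1 := zpow_right_injective₀ hγ0 hγ1.ne heq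
      have h2 : ∀ (m : ℤ) (t : Fin e), (((t : ℕ) : ℤ) + e * (-m)) % e = ((t : ℕ) : ℤ) := by
        intro m t
        rw [Int.add_mul_emod_self_left]
        exact Int.emod_eq_of_lt (by positivity) (by exact_mod_cast t.2)
      have h3 : ((j : ℕ) : ℤ) = ((j' : ℕ) : ℤ) := by
        rw [← h2 n j, ← h2 n' j']
        rw [h1]
      exact Fin.ext (by exact_mod_cast h3)
    intro ij
    by_contra hne
    have h1 := hval2 ij.2 ⟨ij.1, hne⟩
    exact mul_ne_zero h1 (pow_ne_zero _ hπ0) (hall ij.2 (Finset.mem_univ _))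
  have h1 := hli'.fintype_card_le_finrank
  rw [Fintype.card_prod, Fintype.card_fin, Fintype.card_fin, mul_comm] at h1
  exact h1

end Pool.Agent.H85.LK
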