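import Pool.Agent.H12.ON.Apx

/-! # [H85 LK APZ] Expansions: uniqueness, inverse, division by powers of `T`

`Apx ι V T z g`: for all `N`: `z = ∑_{a<N} ι(g_a) T^a + r T^N`, `r ∈ V`. `ι(kk) ⊆ V`, so `ι c` is a unit of `V` for `c ≠ 0`.
* `apx_res`: `N = 1`: `z = ι(g_0) + r T`.
* `apx_loc`: if `z ∈ V.nonunits` then `ι(g_0) ∈ V.nonunits`, so `g_0 = 0`.
* `apx_uniq`: if the first different coefficient is at `a`: subtract the two expansions for `N = a + 1`: `ι(g_a - g'_a) T^a ∈ T^(a+1) V`, so `ι(g_a - g'_a) ∈ V.nonunits`, contradiction.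
* `apx_shift`: `z = T^j z'`: from the expansion of `z` with `N + j` terms (coefficients of `X^j g`: zero for `a < j`).
* `apx_inv`: `g_0 ≠ 0`: `z` is a unit of `V` (`apx_res`). Let `h = g⁻¹` and `p` = the truncation of `h` at `N` evaluated at `T` (`∑_{a<N} ι(h_a) T^a ∈ V`); `Apx ι V T (z p) (g (trunc N h))` (`Apx.mul`) and `g (trunc N h) ≡ 1 mod X^N`, so `z p = 1 + r T^N`,
`z⁻¹ = p - z⁻¹ r T^N`. -/

namespace Pool.Agent.H85.LK

open Pool.Agent.H12.ON

variable {kk Ω : Type} [Field kk] [Field Ω] {ι : kk →+* Ω} {V : ValuationSubring Ω} {T z z' : Ω}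
  {g g' : PowerSeries kk}

private theorem apz_one (hι : ∀ c, ι c ∈ V) {c : kk} (hc : c ≠ 0) : V.valuation (ι c) = 1 := by
  have h1 := (V.valuation_le_one_iff _).2 (hι c)
  have h2 := (V.valuation_le_one_iff _).2 (hι c⁻¹)
  rw [map_inv₀, map_inv₀] at h2
  refine le_antisymm h1 ?_
  have h3 : V.valuation (ι c) ≠ 0 := by
    rw [Valuation.ne_zero_iff]
    exact fun h => hc ((map_eq_zero ι).1 h)
  have h4 := mul_le_mul_left h2 (V.valuation (ι c))
  rwa [inv_mul_cancel₀ h3, one_mul] at h4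

private theorem apz_eval_mem (hι : ∀ c, ι c ∈ V) (hT : T ∈ V) (p : Polynomial kk) : p.eval₂ ι T ∈ V := by
  rw [Polynomial.eval₂_eq_sum_range]
  exact sum_mem fun i _ => mul_mem (hι _) (pow_mem hT i)

private theorem apz_mul_lt {r : Ω} (hr : r ∈ V) (hT : T ∈ V.nonunits) : V.valuation (r * T) < 1 := by
  rw [map_mul]
  have h1 := (V.valuation_le_one_iff _).2 hr
  have h2 := (V.mem_nonunits_iff).1 hT
  calc V.valuation r * V.valuation T ≤ 1 * V.valuation T := mul_le_mul_left h1 _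
    _ = V.valuation T := one_mul _
    _ < 1 := h2

theorem apx_res (hι : ∀ c, ι c ∈ V) (hT : T ∈ V.nonunits) (h : Apx ι V T z g) :
    z - ι (PowerSeries.constantCoeff g) ∈ V.nonunits := by
  obtain ⟨r, hr, h1⟩ := h 1
  rw [V.mem_nonunits_iff]
  have h2 : z - ι (PowerSeries.constantCoeff g) = r * T := by
    rw [h1]
    simp
  rw [h2]
  exact apz_mul_lt hr hT

theorem apx_loc (hι : ∀ c, ι c ∈ V) (hT : T ∈ V.nonunits) (h : Apx ι V T z g) (hz : z ∈ V.nonunits) :
    PowerSeries.constantCoeff g = 0 := by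
  by_contra h0
  have h1 := (V.mem_nonunits_iff).1 (apx_res hι hT h)
  have h2 := (V.mem_nonunits_iff).1 hz
  have h3 := V.valuation.map_sub_lt h2 h1
  rw [sub_sub_cancel, apz_one hι h0] at h3
  exact lt_irrefl _ h3

theorem apx_uniq (hι : ∀ c, ι c ∈ V) (hT : T ∈ V.nonunits) (hT0 : T ≠ 0) (h : Apx ι V T z g)
    (h' : Apx ι V T z g') : g = g' := by
  ext a
  induction a using Nat.strong_induction_on with
  | _ a ih =>
    by_contra hne
    obtain ⟨r, hr, h1⟩ := h (a + 1)
    obtain ⟨r', hr', h1'⟩ := h' (a + 1)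
    rw [Finset.sum_range_succ] at h1 h1'
    have h2 : ∑ b ∈ Finset.range a, ι (PowerSeries.coeff b g) * T ^ b =
        ∑ b ∈ Finset.range a, ι (PowerSeries.coeff b g') * T ^ b :=
      Finset.sum_congr rfl fun b hb => by rw [ih b (Finset.mem_range.1 hb)]
    have h3 : ι (PowerSeries.coeff a g - PowerSeries.coeff a g') * T ^ a = (r' - r) * T * T ^ a := by
      rw [map_sub]
      rw [h2] at h1
      linear_combination h1' - h1
    have h4 := mul_right_cancel₀ (pow_ne_zero a hT0) h3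
    have h5 := apz_mul_lt (sub_mem hr' hr) hT
    rw [← h4, apz_one hι (sub_ne_zero.2 hne)] at h5
    exact lt_irrefl _ h5

theorem apx_shift (hT0 : T ≠ 0) {j : ℕ} (h : Apx ι V T z (PowerSeries.X ^ j * g)) :
    Apx ι V T (z / T ^ j) g := by
  intro N
  obtain ⟨r, hr, h1⟩ := h (j + N)
  refine ⟨r, hr, ?_⟩
  rw [div_eq_iff (pow_ne_zero j hT0), h1, Finset.sum_range_add]
  have h2 : ∑ x ∈ Finset.range j, ι (PowerSeries.coeff x (PowerSeries.X ^ j * g)) * T ^ x = 0 := by
    refine Finset.sum_eq_zero fun x hx => ?_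
    rw [PowerSeries.coeff_X_pow_mul', if_neg (by have := Finset.mem_range.1 hx; omega), map_zero, zero_mul]
  rw [h2, zero_add, add_mul, Finset.sum_mul]
  congr 1
  · refine Finset.sum_congr rfl fun x _ => ?_
    rw [Nat.add_comm j x, PowerSeries.coeff_X_pow_mul, pow_add]
    ring
  · rw [pow_add]
    ring

theorem apx_inv (hι : ∀ c, ι c ∈ V) (hT : T ∈ V.nonunits) (h : Apx ι V T z g)
    (h0 : PowerSeries.constantCoeff g ≠ 0) : Apx ι V T z⁻¹ g⁻¹ := by
  have hTV : T ∈ V := V.mem_of_valuation_le_one _ ((V.mem_nonunits_iff).1 hT).le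
  have hz1 : V.valuation z = 1 := by
    have h1 := (V.mem_nonunits_iff).1 (apx_res hι hT h)
    rw [← apz_one hι h0] at h1
    have h2 := V.valuation.map_add_eq_of_lt_right h1
    rw [sub_add_cancel, apz_one hι h0] at h2
    exact h2
  have hz0 : z ≠ 0 := by
    intro h1
    rw [h1, map_zero] at hz1
    exact zero_ne_one hz1
  have hzV : z⁻¹ ∈ V := V.mem_of_valuation_le_one _ (by rw [map_inv₀, hz1, inv_one])
  intro N
  rcases Nat.eq_zero_or_pos N with hN | hN
  · subst hN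
    exact ⟨z⁻¹, hzV, by simp⟩
  · obtain ⟨r, hr, h1⟩ := h N
    rw [← PowerSeries.eval₂_trunc_eq_sum_range] at h1
    rw [← PowerSeries.eval₂_trunc_eq_sum_range]
    have hd : (Polynomial.X : Polynomial kk) ^ N ∣
        PowerSeries.trunc N g * PowerSeries.trunc N g⁻¹ - 1 := by
      rw [Polynomial.X_pow_dvd_iff]
      intro d hd
      have e1 : (1 : Polynomial kk).coeff d = PowerSeries.coeff d (g * g⁻¹) := by
        rw [PowerSeries.mul_inv_cancel g h0, Polynomial.coeff_one, PowerSeries.coeff_one]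
      rw [Polynomial.coeff_sub, Polynomial.coeff_mul, e1, PowerSeries.coeff_mul, sub_eq_zero]
      refine Finset.sum_congr rfl fun x hx => ?_
      have hx' := Finset.HasAntidiagonal.mem_antidiagonal.1 hx
      rw [PowerSeries.coeff_trunc, PowerSeries.coeff_trunc, if_pos (by omega), if_pos (by omega)]
    obtain ⟨q, hq⟩ := hd
    have h2 : (PowerSeries.trunc N g).eval₂ ι T * (PowerSeries.trunc N g⁻¹).eval₂ ι T =
        1 + T ^ N * q.eval₂ ι T := by
      have h3 := congrArg (Polynomial.eval₂ ι T) hq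
      rw [Polynomial.eval₂_sub, Polynomial.eval₂_mul, Polynomial.eval₂_mul, Polynomial.eval₂_pow,
        Polynomial.eval₂_X, Polynomial.eval₂_one] at h3
      linear_combination h3
    have hq' := apz_eval_mem hι hTV q
    have hP := apz_eval_mem hι hTV (PowerSeries.trunc N g⁻¹)
    obtain ⟨P, hPdef⟩ : ∃ P, P = (PowerSeries.trunc N g⁻¹).eval₂ ι T := ⟨_, rfl⟩
    obtain ⟨G, hGdef⟩ : ∃ G, G = (PowerSeries.trunc N g).eval₂ ι T := ⟨_, rfl⟩
    rw [← hPdef] at h2 hP ⊢
    rw [← hGdef] at h1 h2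
    refine ⟨-(z⁻¹ * (q.eval₂ ι T + r * P)), neg_mem (mul_mem hzV (add_mem hq' (mul_mem hr hP))), ?_⟩
    have h4 : z * P = 1 + T ^ N * (q.eval₂ ι T + r * P) := by
      rw [h1]
      linear_combination h2
    have h5 : z⁻¹ * z = 1 := inv_mul_cancel₀ hz0
    linear_combination P * h5 - z⁻¹ * h4

end Pool.Agent.H85.LK
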