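import Pool.Agent.H85.LK.Def
import Pool.Agent.H85.LK.Apz

/-! # [H85 LK EMB] The expansion of the valuation ring `O = V ∩ L`

(i) Every `a ∈ k[t,z]` (`Algebra.adjoin k {t,z}`) has an expansion: `∃ p, Apx ι V T a p` (`Apx.const`, `Apx.add`, `Apx.mul`; `ι (algebraMap k kk c) = algebraMap k Ω c = algebraMap L Ω (algebraMap k L c)`).
(ii) Every `a ∈ L` is `a₁/a₂`, `a_i ∈ k[t,z]`, `a₂ ≠ 0` (`IntermediateField.mem_adjoin_iff_div`, `hL`).
(iii) Let `a ∈ L`, `a ∈ V` (in `Ω`), `a ≠ 0`, `a = a₁/a₂`, expansions `p₁`, `p₂`. `p_i ≠ 0`: if `p_i = 0` then `a_i ∈ T^M V` for all `M`; by `harch` `T^M₀/a_i ∈ V`; take `M = M₀ + 1`: `T⁻¹ ∈ V`, contradiction with `T ∈ V.nonunits` and `T ≠ 0`.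
`p_i = X^(j_i) q_i`, `q_i(0) ≠ 0` (`PowerSeries.X_pow_order_dvd`, order); `a_i = T^(j_i) b_i`, `b_i` expansion `q_i` (`apx_shift`), units of `V` (`apx_res`). As `a = T^(j₁ - j₂) b₁/b₂ ∈ V` and `T` is not a unit: `j₁ ≥ j₂`; `a = T^(j₁-j₂) b₁ b₂⁻¹` has the expansion
`X^(j₁-j₂) q₁ q₂⁻¹` (`apx_inv`, `Apx.mul`, `Apx.var`, `Apx.pow`).
(iv) So every `a ∈ O` has exactly one expansion (`apx_uniq`); `f a` = this expansion is a ring homomorphism (uniqueness and `Apx.add`, `Apx.mul`, `Apx.const`); `Ser.loc` by `apx_loc`. -/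

namespace Pool.Agent.H85.LK

open Pool.Agent.H12.ON

/-- a nonzero power series is a power of `X` times a unit -/
private theorem x_unit' {kk : Type} [Field kk] {p : PowerSeries kk} (hp : p ≠ 0) :
    ∃ (j : ℕ) (w : PowerSeries kk), p = PowerSeries.X ^ j * w ∧ PowerSeries.constantCoeff w ≠ 0 := by
  classical
  have hex : ∃ n, PowerSeries.coeff n p ≠ 0 := PowerSeries.exists_coeff_ne_zero_iff_ne_zero.2 hp
  have hd : (PowerSeries.X : PowerSeries kk) ^ (Nat.find hex) ∣ p := by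
    rw [PowerSeries.X_pow_dvd_iff]
    intro m hm
    by_contra h
    exact Nat.find_min hex hm h
  have h1 := Nat.find_spec hex
  generalize Nat.find hex = j at hd h1
  obtain ⟨w, hw⟩ := hd
  refine ⟨j, w, hw, ?_⟩
  rw [hw, PowerSeries.coeff_X_pow_mul'] at h1
  simpa using h1

private theorem pow_inv_notMem {Ω : Type} [Field Ω] {V : ValuationSubring Ω} {T : Ω}
    (hT : T ∈ V.nonunits) (hT0 : T ≠ 0) {j : ℕ} (hj : 1 ≤ j) : (T ^ j)⁻¹ ∉ V := by
  intro h
  have hTV : T ∈ V := V.nonunits_subset hT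
  have h1 : T⁻¹ ∉ V := by
    rcases (V.mem_nonunits_iff_or).1 hT with h2 | h2
    · exact absurd h2 hT0
    · exact h2
  apply h1
  have h3 : T⁻¹ = T ^ (j - 1) * (T ^ j)⁻¹ := by
    obtain ⟨i, rfl⟩ : ∃ i, j = i + 1 := ⟨j - 1, by omega⟩
    rw [Nat.add_sub_cancel, pow_succ]
    field_simp
  rw [h3]
  exact V.mul_mem _ _ (pow_mem hTV _) h

/-- the expansion of a nonzero element is not zero -/
private theorem apx_nz {kk Ω : Type} [Field kk] [Field Ω] {ι : kk →+* Ω} {V : ValuationSubring Ω} {T b : Ω}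
    {p : PowerSeries kk} (hT : T ∈ V.nonunits) (hT0 : T ≠ 0) (hb : b ≠ 0)
    (harch : ∃ M : ℕ, T ^ M / b ∈ V) (h : Apx ι V T b p) : p ≠ 0 := by
  rintro rfl
  obtain ⟨M, hM⟩ := harch
  obtain ⟨r, hr, h1⟩ := h (M + 1)
  have h2 : b = r * T ^ (M + 1) := by
    rw [h1]
    simp
  have hr0 : r ≠ 0 := by
    rintro rfl
    rw [zero_mul] at h2
    exact hb h2
  apply pow_inv_notMem hT hT0 (le_refl 1)
  have h3 : (T ^ 1)⁻¹ = r * (T ^ M / b) := by
    rw [h2, pow_one, pow_succ]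
    field_simp
  rw [h3]
  exact V.mul_mem _ _ hr hM

private theorem apx_pow_mul {kk Ω : Type} [Field kk] [Field Ω] {ι : kk →+* Ω} {V : ValuationSubring Ω}
    {T b : Ω} {p : PowerSeries kk} (hι : ∀ c, ι c ∈ V) (hT : T ∈ V) (h : Apx ι V T b p) (j : ℕ) :
    Apx ι V T (T ^ j * b) (PowerSeries.X ^ j * p) := by
  induction j with
  | zero => simpa using h
  | succ j ih =>
    have h1 := (Apx.var hι hT).mul hι hT ih
    have h2 : T * (T ^ j * b) = T ^ (j + 1) * b := by ring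
    have h3 : (PowerSeries.X : PowerSeries kk) * (PowerSeries.X ^ j * p) = PowerSeries.X ^ (j + 1) * p := by
      ring
    rw [h2, h3] at h1
    exact h1

theorem emb {k L kk Ω : Type} [Field k] [Field L] [Field kk] [Field Ω] [Algebra k L] [Algebra k kk]
    [Algebra k Ω] [Algebra L Ω] [IsScalarTower k L Ω] (ι : kk →ₐ[k] Ω) {V : ValuationSubring Ω}
    (hι : ∀ c, ι c ∈ V) {T : Ω} (hT : T ∈ V.nonunits) (hT0 : T ≠ 0) {t z : L} {pt pz : PowerSeries kk}
    (ht : Apx (ι : kk →+* Ω) V T (algebraMap L Ω t) pt) (hz : Apx (ι : kk →+* Ω) V T (algebraMap L Ω z) pz)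
    (hL : IntermediateField.adjoin k {t, z} = ⊤)
    (harch : ∀ a : L, a ≠ 0 → ∃ M : ℕ, T ^ M / algebraMap L Ω a ∈ V) :
    ∃ f : (V.comap (algebraMap L Ω)) →+* PowerSeries kk, Ser k (V.comap (algebraMap L Ω)) f ∧
      ∀ a : V.comap (algebraMap L Ω), Apx (ι : kk →+* Ω) V T (algebraMap L Ω (a : L)) (f a) := by
  have hι' : ∀ c, (ι : kk →+* Ω) c ∈ V := hι
  have hTV : T ∈ V := V.nonunits_subset hT
  have hconst : ∀ c : k, (ι : kk →+* Ω) (algebraMap k kk c) = algebraMap L Ω (algebraMap k L c) := by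
    intro c
    rw [← IsScalarTower.algebraMap_apply k L Ω]
    exact ι.commutes c
  -- (i)
  have h1 : ∀ a ∈ Algebra.adjoin k ({t, z} : Set L),
      ∃ p, Apx (ι : kk →+* Ω) V T (algebraMap L Ω a) p := by
    intro a ha
    induction ha using Algebra.adjoin_induction with
    | mem x hx =>
      rcases hx with rfl | hx
      · exact ⟨pt, ht⟩
      · rw [Set.mem_singleton_iff] at hx
        subst hx
        exact ⟨pz, hz⟩
    | algebraMap r =>
      refine ⟨PowerSeries.C (algebraMap k kk r), ?_⟩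
      rw [← hconst]
      exact Apx.const hι' hTV _
    | add x y _ _ hx hy =>
      obtain ⟨p, hp⟩ := hx
      obtain ⟨q, hq⟩ := hy
      refine ⟨p + q, ?_⟩
      rw [map_add]
      exact hp.add hι' hTV hq
    | mul x y _ _ hx hy =>
      obtain ⟨p, hp⟩ := hx
      obtain ⟨q, hq⟩ := hy
      refine ⟨p * q, ?_⟩
      rw [map_mul]
      exact hp.mul hι' hTV hq
  -- normal form of an element of `k[t,z]`
  have h2 : ∀ a ∈ Algebra.adjoin k ({t, z} : Set L), a ≠ 0 → ∃ (j : ℕ) (q : PowerSeries kk),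
      PowerSeries.constantCoeff q ≠ 0 ∧ Apx (ι : kk →+* Ω) V T (algebraMap L Ω a / T ^ j) q := by
    intro a ha ha0
    obtain ⟨p, hp⟩ := h1 a ha
    have hb0 : algebraMap L Ω a ≠ 0 := by
      intro h
      exact ha0 ((map_eq_zero _).1 h)
    have hp0 := apx_nz hT hT0 hb0 (harch a ha0) hp
    obtain ⟨j, q, rfl, hq⟩ := x_unit' hp0
    exact ⟨j, q, hq, apx_shift hT0 hp⟩
  -- (iii)
  have h3 : ∀ a : L, algebraMap L Ω a ∈ V → ∃ p, Apx (ι : kk →+* Ω) V T (algebraMap L Ω a) p := by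
    intro a haV
    by_cases ha0 : a = 0
    · subst ha0
      refine ⟨PowerSeries.C 0, ?_⟩
      have h := Apx.const (ι := (ι : kk →+* Ω)) hι' hTV 0
      rw [map_zero (ι : kk →+* Ω)] at h
      rw [map_zero]
      exact h
    · have haL : a ∈ IntermediateField.adjoin k ({t, z} : Set L) := by
        rw [hL]; exact IntermediateField.mem_top
      obtain ⟨a₁, ha₁, a₂, ha₂, rfl⟩ := IntermediateField.mem_adjoin_iff_div.1 haL
      have h10 : a₁ ≠ 0 := by rintro rfl; exact ha0 (zero_div _)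
      have h20 : a₂ ≠ 0 := by rintro rfl; exact ha0 (div_zero _)
      obtain ⟨j₁, q₁, hq₁, hA₁⟩ := h2 a₁ ha₁ h10
      obtain ⟨j₂, q₂, hq₂, hA₂⟩ := h2 a₂ ha₂ h20
      set b₁ := algebraMap L Ω a₁ / T ^ j₁ with hb₁
      set b₂ := algebraMap L Ω a₂ / T ^ j₂ with hb₂
      have c₁ : algebraMap L Ω a₁ ≠ 0 := fun h => h10 ((map_eq_zero _).1 h)
      have c₂ : algebraMap L Ω a₂ ≠ 0 := fun h => h20 ((map_eq_zero _).1 h)
      have hb₁0 : b₁ ≠ 0 := div_ne_zero c₁ (pow_ne_zero _ hT0)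
      have hb₂0 : b₂ ≠ 0 := div_ne_zero c₂ (pow_ne_zero _ hT0)
      have hB₁ : Apx (ι : kk →+* Ω) V T b₁⁻¹ q₁⁻¹ := apx_inv hι' hT hA₁ hq₁
      have hB₂ : Apx (ι : kk →+* Ω) V T b₂⁻¹ q₂⁻¹ := apx_inv hι' hT hA₂ hq₂
      have e₁ : algebraMap L Ω a₁ = T ^ j₁ * b₁ := by
        rw [hb₁]; field_simp
      have e₂ : algebraMap L Ω a₂ = T ^ j₂ * b₂ := by
        rw [hb₂]; field_simp
      have hj : j₂ ≤ j₁ := by
        by_contra hlt
        push Not at hlt
        apply pow_inv_notMem hT hT0 (j := j₂ - j₁) (by omega)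
        have h4 : (T ^ (j₂ - j₁))⁻¹ = algebraMap L Ω (a₁ / a₂) * (b₂ * b₁⁻¹) := by
          obtain ⟨i, rfl⟩ : ∃ i, j₂ = j₁ + i := ⟨j₂ - j₁, by omega⟩
          rw [Nat.add_sub_cancel_left, map_div₀, e₁, e₂, pow_add]
          have : T ^ j₁ ≠ 0 := pow_ne_zero _ hT0
          have : T ^ i ≠ 0 := pow_ne_zero _ hT0
          field_simp
        rw [h4]
        exact V.mul_mem _ _ haV (V.mul_mem _ _ hA₂.mem hB₁.mem)
      refine ⟨PowerSeries.X ^ (j₁ - j₂) * (q₁ * q₂⁻¹), ?_⟩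
      have h5 : algebraMap L Ω (a₁ / a₂) = T ^ (j₁ - j₂) * (b₁ * b₂⁻¹) := by
        obtain ⟨i, rfl⟩ : ∃ i, j₁ = j₂ + i := ⟨j₁ - j₂, by omega⟩
        rw [Nat.add_sub_cancel_left, map_div₀, e₁, e₂, pow_add]
        have : T ^ j₂ ≠ 0 := pow_ne_zero _ hT0
        field_simp
      rw [h5]
      exact apx_pow_mul hι' hTV (hA₁.mul hι' hTV hB₂) _
  -- (iv)
  choose F hF using h3
  have huniq : ∀ {w : Ω} {p q : PowerSeries kk}, Apx (ι : kk →+* Ω) V T w p →
      Apx (ι : kk →+* Ω) V T w q → p = q := fun h h' => apx_uniq hι' hT hT0 h h'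
  have hFe : ∀ (a : V.comap (algebraMap L Ω)) (p : PowerSeries kk),
      Apx (ι : kk →+* Ω) V T (algebraMap L Ω (a : L)) p → F a a.2 = p := fun a p h => huniq (hF a a.2) h
  let f : (V.comap (algebraMap L Ω)) →+* PowerSeries kk :=
    { toFun := fun a => F a a.2
      map_one' := by
        apply hFe
        have h := Apx.const (ι := (ι : kk →+* Ω)) hι' hTV 1
        rw [map_one (ι : kk →+* Ω)] at h
        have h6 : algebraMap L Ω ((1 : V.comap (algebraMap L Ω)) : L) = 1 := map_one _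
        rw [h6]
        simpa using h
      map_zero' := by
        apply hFe
        have h := Apx.const (ι := (ι : kk →+* Ω)) hι' hTV 0
        rw [map_zero (ι : kk →+* Ω)] at h
        have h6 : algebraMap L Ω ((0 : V.comap (algebraMap L Ω)) : L) = 0 := map_zero _
        rw [h6]
        simpa using h
      map_mul' := by
        intro a b
        apply hFe
        have h6 : algebraMap L Ω ((a * b : V.comap (algebraMap L Ω)) : L) =
          algebraMap L Ω (a : L) * algebraMap L Ω (b : L) := map_mul _ _ _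
        rw [h6]
        exact (hF a a.2).mul hι' hTV (hF b b.2)
      map_add' := by
        intro a b
        apply hFe
        have h6 : algebraMap L Ω ((a + b : V.comap (algebraMap L Ω)) : L) =
          algebraMap L Ω (a : L) + algebraMap L Ω (b : L) := map_add _ _ _
        rw [h6]
        exact (hF a a.2).add hι' hTV (hF b b.2) }
  refine ⟨f, ⟨?_, ?_⟩, fun a => hF a a.2⟩
  · intro c hc
    show F _ _ = _
    apply hFe ⟨algebraMap k L c, hc⟩
    show Apx (ι : kk →+* Ω) V T (algebraMap L Ω (algebraMap k L c)) _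
    rw [← hconst]
    exact Apx.const hι' hTV _
  · intro a ha
    refine apx_loc hι' hT (hF a a.2) ?_
    rw [ValuationSubring.mem_nonunits_iff_or] at ha ⊢
    rcases ha with h | h
    · left; rw [h, map_zero]
    · right
      rw [← map_inv₀]
      exact h

end Pool.Agent.H85.LK
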