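import Pool.Agent.H85.LK.Unf
import Pool.Agent.H85.LK.Fdi

/-! # [H85 LK PRM] The residue field of a place at infinity is generated by one element

Residue field `κ = O/m` (a field over `k`; the algebra structure over `k` comes from `k → O`). Any elements of `O` which are independent over `k` modulo `m` are at most `[L : k(x)]` many
(`fund` with `unif`), so `κ` is finite over `k`, `k` has characteristic zero: primitive element (`Field.exists_primitive_element`); lift it to `g ∈ O`, `P` = its minimal polynomial.
(Or without residue field: choose `g ∈ O` with `P(g) ∈ m`, `P` irreducible of maximal degree; ...) -/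

namespace Pool.Agent.H85.LK

open Pool.Agent.H82.NS

private theorem prim_res {k R κ : Type} [Field k] [CharZero k] [Field κ] [Algebra k κ]
    [FiniteDimensional k κ] [CommRing R] (ρ : R →+* κ) (hρ : Function.Surjective ρ) (ι : k →+* R)
    (hι : ∀ c, ρ (ι c) = algebraMap k κ c) : ∃ (g : R) (P : Polynomial k), Irreducible P ∧
      ρ (Polynomial.eval g (P.map ι)) = 0 ∧ ∀ a, ∃ A : Polynomial k, ρ (a - Polynomial.eval g (A.map ι)) = 0 := by
  obtain ⟨α, hα⟩ := Field.exists_primitive_element k κ
  obtain ⟨g, rfl⟩ := hρ α
  have hint : IsIntegral k (ρ g) := Algebra.IsIntegral.isIntegral _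
  have hev : ∀ A : Polynomial k, ρ (Polynomial.eval g (A.map ι)) = Polynomial.aeval (ρ g) A := by
    intro A
    rw [Polynomial.eval_map, Polynomial.aeval_def, Polynomial.hom_eval₂]
    congr 1
    exact RingHom.ext hι
  refine ⟨g, minpoly k (ρ g), minpoly.irreducible hint, ?_, ?_⟩
  · rw [hev, minpoly.aeval]
  · intro a
    have h1 : ρ a ∈ IntermediateField.adjoin k {ρ g} := by
      rw [hα]
      exact IntermediateField.mem_top
    rw [← IntermediateField.mem_toSubalgebra,
      IntermediateField.adjoin_simple_toSubalgebra_of_isAlgebraic hint.isAlgebraic,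
      Algebra.adjoin_singleton_eq_range_aeval] at h1
    obtain ⟨A, hA⟩ := h1
    refine ⟨A, ?_⟩
    rw [map_sub, hev, sub_eq_zero]
    exact hA.symm

private theorem finite_res {k κ : Type} [Field k] [Field κ] [Algebra k κ] (D : ℕ)
    (h : ∀ (s : ℕ) (z : Fin s → κ), LinearIndependent k z → s ≤ D) : FiniteDimensional k κ := by
  have h1 : Module.rank k κ ≤ D := by
    refine rank_le fun s hs => ?_
    refine h s.card (fun i => ((s.equivFin.symm i : s) : κ)) ?_
    exact hs.comp _ s.equivFin.symm.injective
  exact Module.rank_lt_aleph0_iff.1 (h1.trans_lt (Cardinal.natCast_lt_aleph0))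

theorem prim {k L : Type} [Field k] [CharZero k] [Field L] [Algebra k L] {x : L} (hK : FF k x)
    {O : ValuationSubring L} (hO : Inf k x O) : ∃ (g : L) (P : Polynomial k), g ∈ O ∧ Irreducible P ∧
      Polynomial.aeval g P ∈ O.nonunits ∧ ∀ a ∈ O, ∃ A : Polynomial k, a - Polynomial.aeval g A ∈ O.nonunits := by
  obtain ⟨π, e, hπ0, hπ, -, he, hx1, hx2⟩ := unif hK hO
  have hιex : ∃ ι : k →+* O, ∀ c, ((ι c : O) : L) = algebraMap k L c :=
    ⟨(algebraMap k L).codRestrict O.toSubring hO.base, fun c => rfl⟩
  obtain ⟨ι, hι⟩ := hιex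
  have hev : ∀ (G : O) (P : Polynomial k), ((Polynomial.eval G (P.map ι) : O) : L) = Polynomial.aeval (G : L) P := by
    intro G P
    rw [Polynomial.eval_map, Polynomial.aeval_def]
    have h1 := Polynomial.hom_eval₂ P ι O.subtype G
    have h2 : O.subtype.comp ι = algebraMap k L := RingHom.ext fun c => hι c
    rw [h2] at h1
    exact h1
  have hm : ∀ a : O, IsLocalRing.residue O a = 0 ↔ (a : L) ∈ O.nonunits := fun a => by
    rw [IsLocalRing.residue_eq_zero_iff]
    exact (ValuationSubring.coe_mem_nonunits_iff (A := O)).symm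
  let _ : Algebra k (IsLocalRing.ResidueField O) := ((IsLocalRing.residue O).comp ι).toAlgebra
  have hfin : FiniteDimensional k (IsLocalRing.ResidueField O) := by
    refine finite_res (Module.finrank (IntermediateField.adjoin k {x}) L) fun s z hz => ?_
    choose w hw using fun i => IsLocalRing.residue_surjective (z i)
    have h1 := fund hK hO hπ0 hπ he hx1 hx2 (z := fun i => ((w i : O) : L)) (fun i => (w i).2) (by
      intro c hc
      have h2 : ∑ i, c i • z i = 0 := by
        have h3 : (∑ i, algebraMap k L (c i) * ((w i : O) : L)) = ((∑ i, ι (c i) * w i : O) : L) := by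
          rw [AddSubmonoidClass.coe_finsetSum]
          refine Finset.sum_congr rfl fun i _ => ?_
          rw [← hι]
          rfl
        rw [h3] at hc
        have h4 := (hm _).2 hc
        rw [map_sum] at h4
        rw [← h4]
        refine Finset.sum_congr rfl fun i _ => ?_
        rw [Algebra.smul_def, map_mul, hw]
        rfl
      funext i
      exact Fintype.linearIndependent_iff.1 hz c h2 i)
    calc s = 1 * s := (one_mul s).symm
      _ ≤ e * s := Nat.mul_le_mul_right _ he
      _ ≤ _ := h1
  obtain ⟨g, P, h1, h2, h3⟩ := prim_res (IsLocalRing.residue O) IsLocalRing.residue_surjective ι (fun c => rfl)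
  refine ⟨g, P, g.2, h1, ?_, ?_⟩
  · rw [← hev]
    exact (hm _).1 h2
  · intro a ha
    obtain ⟨A, hA⟩ := h3 ⟨a, ha⟩
    refine ⟨A, ?_⟩
    rw [← hev]
    exact (hm _).1 hA

end Pool.Agent.H85.LK
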