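import Pool.Agent.H85.LK.Unq
import Pool.Agent.H85.LK.Emb
import Pool.Agent.H85.LK.Prm

/-! # [H85 LK ABS] The link theorem, algebraic form

`O = V ∩ L` (`V.comap (algebraMap L Ω)`), `Inf k x O`. `T ∈ V.nonunits`, `T ≠ 0`: `(q T)^e = 1/x`, `x ∉ V`, `q ∈ k` not zero is a unit of `V`. `t = x⁻¹` has the expansion `C (q^e) X^e` (`Apx.const`, `Apx.var`, `Apx.pow`, `Apx.mul`).
`harch` of `emb`: for `a ≠ 0` `pole_bdd` (H82/NS/PlA.lean) for `a⁻¹`: `a⁻¹ x⁻¹^j ∈ O`, `x⁻¹ = (q T)^e`, so `T^(e j)/a ∈ V`. `emb` gives `f₁`; `f₂ = (PowerSeries.map σ).comp f₁` is again `Ser` (`σ` is over `k`), `f₂(t) = C (q^e) X^e` too.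
`unif`, `prim` give `π`, `e₁`, `g`, `P`. Residue of `g`: `g - ι c ∈ m`, `σ c = c` (`hσ`), and `g - ι(f₁(g)(0)) ∈ m` (`apx_res`), so `f₁(g)(0) = c` is fixed by `σ`. `unq`: `f₂(z) = rescale ζ (f₁ z)`, `f₁ z = pz` (`apx_uniq`); compare coefficients (`PowerSeries.coeff_rescale`). -/

namespace Pool.Agent.H85.LK

open Pool.Agent.H12.ON Pool.Agent.H82.NS

/-- elements of the image of `kk` which are not units of `V` are zero -/
private theorem abs_unit {kk Ω : Type} [Field kk] [Field Ω] (ι : kk →+* Ω) {V : ValuationSubring Ω}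
    (hι : ∀ c, ι c ∈ V) {c : kk} (hc : ι c ∈ V.nonunits) : c = 0 := by
  by_contra h0
  have h1 : V.valuation (ι c) < 1 := V.mem_nonunits_iff.1 hc
  have h2 : V.valuation (ι c⁻¹) ≤ 1 := (V.valuation_le_one_iff _).2 (hι _)
  have h3 : V.valuation (ι c) * V.valuation (ι c⁻¹) = 1 := by
    rw [← map_mul, ← map_mul, mul_inv_cancel₀ h0, map_one, map_one]
  have h4 : V.valuation (ι c) * V.valuation (ι c⁻¹) < 1 :=
    lt_of_le_of_lt (mul_le_mul' le_rfl h2) (by rwa [mul_one])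
  rw [h3] at h4
  exact lt_irrefl _ h4

private theorem abs_sub_nonunits {Ω : Type} [Field Ω] {V : ValuationSubring Ω} {a b : Ω}
    (ha : a ∈ V.nonunits) (hb : b ∈ V.nonunits) : a - b ∈ V.nonunits := by
  rw [ValuationSubring.mem_nonunits_iff] at ha hb ⊢
  exact lt_of_le_of_lt (V.valuation.map_sub a b) (max_lt ha hb)

theorem lnk_abs {k L kk Ω : Type} [Field k] [CharZero k] [Field L] [Field kk] [IsAlgClosed kk] [Field Ω]
    [Algebra k L] [Algebra k kk] [Algebra k Ω] [Algebra L Ω] [IsScalarTower k L Ω] (ι : kk →ₐ[k] Ω)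
    {V : ValuationSubring Ω} (hι : ∀ c, ι c ∈ V) {x z : L} (hK : FF k x) (hx : algebraMap L Ω x ∉ V)
    {T : Ω} {q : k} (hq : q ≠ 0) {e : ℕ} (he : 1 ≤ e)
    (hpar : (algebraMap k Ω q * T) ^ e * algebraMap L Ω x = 1) (hL : IntermediateField.adjoin k {x⁻¹, z} = ⊤)
    {pz : PowerSeries kk} (hz : Apx (ι : kk →+* Ω) V T (algebraMap L Ω z) pz) (σ : kk →ₐ[k] kk)
    (hσ : ∀ a : L, algebraMap L Ω a ∈ V → ∃ c : kk, σ c = c ∧ algebraMap L Ω a - ι c ∈ V.nonunits) :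
    ∃ ζ : kk, ζ ^ e = 1 ∧ ∀ m, σ (PowerSeries.coeff m pz) = ζ ^ m * PowerSeries.coeff m pz := by
  -- constants
  have hιk : ∀ c : k, (ι : kk →+* Ω) (algebraMap k kk c) = algebraMap k Ω c := fun c => ι.commutes c
  have hkL : ∀ c : k, algebraMap L Ω (algebraMap k L c) = algebraMap k Ω c := fun c =>
    (IsScalarTower.algebraMap_apply k L Ω c).symm
  have hkV : ∀ c : k, algebraMap k Ω c ∈ V := fun c => by
    rw [← hιk c]
    exact hι _
  have hι' : ∀ c, (ι : kk →+* Ω) c ∈ V := hι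
  obtain ⟨O, hOdef⟩ : ∃ O, O = V.comap (algebraMap L Ω) := ⟨_, rfl⟩
  have hmem : ∀ a : L, a ∈ O ↔ algebraMap L Ω a ∈ V := by
    intro a
    rw [hOdef]
    exact Iff.rfl
  have hO : ∀ c : k, algebraMap k L c ∈ O := fun c => by
    rw [hmem, hkL]
    exact hkV c
  have hInf : Inf k x O := ⟨hO, fun h => hx ((hmem x).1 h)⟩
  -- the parameter `T`
  have hqΩ : algebraMap k Ω q ≠ 0 := (map_ne_zero _).2 hq
  have hqT : algebraMap k Ω q * T ≠ 0 := by
    intro h0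
    rw [h0, zero_pow (by omega), zero_mul] at hpar
    exact zero_ne_one hpar
  have hT0 : T ≠ 0 := right_ne_zero_of_mul hqT
  have hx0 : algebraMap L Ω x ≠ 0 := by
    intro h0
    rw [h0, mul_zero] at hpar
    exact zero_ne_one hpar
  have hvq : V.valuation (algebraMap k Ω q) = 1 := by
    have h1 : V.valuation (algebraMap k Ω q) ≤ 1 := (V.valuation_le_one_iff _).2 (hkV q)
    have h2 : V.valuation (algebraMap k Ω q⁻¹) ≤ 1 := (V.valuation_le_one_iff _).2 (hkV q⁻¹)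
    refine le_antisymm h1 ?_
    by_contra h
    rw [not_le] at h
    have h3 : V.valuation (algebraMap k Ω q) * V.valuation (algebraMap k Ω q⁻¹) = 1 := by
      rw [← map_mul, ← map_mul, mul_inv_cancel₀ hq, map_one, map_one]
    have h4 : V.valuation (algebraMap k Ω q) * V.valuation (algebraMap k Ω q⁻¹) < 1 :=
      lt_of_le_of_lt (mul_le_mul' le_rfl h2) (by rwa [mul_one])
    rw [h3] at h4
    exact lt_irrefl _ h4
  have hvx : 1 < V.valuation (algebraMap L Ω x) := by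
    rw [← not_le, V.valuation_le_one_iff]
    exact hx
  have hT : T ∈ V.nonunits := by
    rw [ValuationSubring.mem_nonunits_iff]
    by_contra h
    rw [not_lt] at h
    have h1 := congrArg V.valuation hpar
    rw [map_mul, map_pow, map_mul, hvq, one_mul, map_one] at h1
    have h2 : 1 ≤ V.valuation T ^ e := one_le_pow₀ h
    have h3 : 1 < V.valuation T ^ e * V.valuation (algebraMap L Ω x) :=
      lt_of_lt_of_le hvx (le_mul_of_one_le_left' h2)
    rw [h1] at h3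
    exact lt_irrefl _ h3
  have hTV : T ∈ V := by
    rw [← V.valuation_le_one_iff]
    exact le_of_lt (V.mem_nonunits_iff.1 hT)
  have hxinv : algebraMap L Ω x⁻¹ = (algebraMap k Ω q * T) ^ e := by
    rw [map_inv₀]
    exact (eq_inv_of_mul_eq_one_left hpar).symm
  -- the expansion of `t`
  obtain ⟨c₀, hc₀⟩ : ∃ c₀ : kk, c₀ = algebraMap k kk q := ⟨_, rfl⟩
  have hc₀0 : c₀ ≠ 0 := by
    rw [hc₀]
    exact (map_ne_zero _).2 hq
  have ht : Apx (ι : kk →+* Ω) V T (algebraMap L Ω x⁻¹) (PowerSeries.C (c₀ ^ e) * PowerSeries.X ^ e) := by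
    have h1 := Apx.const (t := T) hι' hTV c₀
    have h2 := Apx.var (t := T) hι' hTV
    have h3 := Apx.pow hι' hTV (Apx.mul hι' hTV h1 h2) e
    have h4 : (ι : kk →+* Ω) c₀ = algebraMap k Ω q := by rw [hc₀, hιk]
    rw [h4, ← hxinv, mul_pow, ← map_pow] at h3
    exact h3
  -- the archimedean property
  have harch : ∀ a : L, a ≠ 0 → ∃ M : ℕ, T ^ M / algebraMap L Ω a ∈ V := by
    intro a ha
    obtain ⟨j, hj⟩ := pole_bdd hK hInf a⁻¹
    rw [hmem, map_mul, map_pow, hxinv, map_inv₀] at hj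
    refine ⟨e * j, ?_⟩
    have h1 : T ^ (e * j) / algebraMap L Ω a = algebraMap k Ω (q⁻¹ ^ (e * j)) *
        ((algebraMap L Ω a)⁻¹ * ((algebraMap k Ω q * T) ^ e) ^ j) := by
      rw [map_pow, map_inv₀, ← pow_mul, mul_pow, inv_pow]
      field_simp
    rw [h1]
    exact V.mul_mem _ _ (hkV _) hj
  subst hOdef
  obtain ⟨f₁, hS₁, hA₁⟩ := emb ι hι hT hT0 ht hz hL harch
  -- the conjugate
  obtain ⟨f₂, hf₂⟩ : ∃ f₂ : (V.comap (algebraMap L Ω)) →+* PowerSeries kk,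
      f₂ = (PowerSeries.map (σ : kk →+* kk)).comp f₁ := ⟨_, rfl⟩
  have hf₂a : ∀ a m, PowerSeries.coeff m (f₂ a) = σ (PowerSeries.coeff m (f₁ a)) := by
    intro a m
    rw [hf₂, RingHom.comp_apply, PowerSeries.coeff_map]
    rfl
  have hS₂ : Ser k (V.comap (algebraMap L Ω)) f₂ := by
    refine ⟨fun c hc => ?_, fun a ha => ?_⟩
    · rw [hf₂, RingHom.comp_apply, hS₁.base c hc, PowerSeries.map_C]
      congr 1
      exact σ.commutes c
    · rw [← PowerSeries.coeff_zero_eq_constantCoeff_apply, hf₂a,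
        PowerSeries.coeff_zero_eq_constantCoeff_apply, hS₁.loc a ha, map_zero]
  -- the images of `t`
  obtain ⟨π, e₁, hπ0, hπ, huni, he₁, hx1, hx2⟩ := unif hK hInf
  obtain ⟨g, P, hg, hP, hPg, hres⟩ := prim hK hInf
  have hx0L : x ≠ 0 := by
    rintro rfl
    exact hx0 (map_zero _)
  have htO : x⁻¹ ∈ V.comap (algebraMap L Ω) := by
    rw [hmem, hxinv]
    exact pow_mem (V.mul_mem _ _ (hkV q) hTV) _
  have ht₁ : f₁ ⟨x⁻¹, htO⟩ = PowerSeries.C (c₀ ^ e) * PowerSeries.X ^ e :=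
    apx_uniq hι' hT hT0 (hA₁ ⟨x⁻¹, htO⟩) ht
  have hσc : σ c₀ = c₀ := by
    rw [hc₀]
    exact σ.commutes q
  have ht₂ : f₂ ⟨x⁻¹, htO⟩ = PowerSeries.C (c₀ ^ e) * PowerSeries.X ^ e := by
    have h0 : (σ : kk →+* kk) (c₀ ^ e) = c₀ ^ e := by
      show σ (c₀ ^ e) = c₀ ^ e
      rw [map_pow, hσc]
    rw [hf₂, RingHom.comp_apply, ht₁]
    have h1 : PowerSeries.map (σ : kk →+* kk) (PowerSeries.C (c₀ ^ e) * PowerSeries.X ^ e) =
        PowerSeries.map (σ : kk →+* kk) (PowerSeries.C (c₀ ^ e)) *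
          (PowerSeries.map (σ : kk →+* kk) PowerSeries.X) ^ e := by
      rw [← map_pow (PowerSeries.map (σ : kk →+* kk)) PowerSeries.X e, ← map_mul]
    rw [h1, PowerSeries.map_X, PowerSeries.map_C, h0]
  -- the residue of `g`
  have hgg : PowerSeries.constantCoeff (f₁ ⟨g, hg⟩) = PowerSeries.constantCoeff (f₂ ⟨g, hg⟩) := by
    obtain ⟨c, hc1, hc2⟩ := hσ g ((hmem g).1 hg)
    have h1 := apx_res hι' hT (hA₁ ⟨g, hg⟩)
    have h2 : (ι : kk →+* Ω) (PowerSeries.constantCoeff (f₁ ⟨g, hg⟩) - c) ∈ V.nonunits := by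
      have h3 := abs_sub_nonunits hc2 h1
      have h4 : (ι : kk →+* Ω) (PowerSeries.constantCoeff (f₁ ⟨g, hg⟩) - c) =
          algebraMap L Ω g - ι c - (algebraMap L Ω g -
            (ι : kk →+* Ω) (PowerSeries.constantCoeff (f₁ ⟨g, hg⟩))) := by
        rw [map_sub]
        show (ι : kk →+* Ω) _ - ι c = _
        ring
      rw [h4]
      exact h3
    have h3 := sub_eq_zero.1 (abs_unit (ι : kk →+* Ω) hι' h2)
    rw [← PowerSeries.coeff_zero_eq_constantCoeff_apply (f₂ _), hf₂a,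
      PowerSeries.coeff_zero_eq_constantCoeff_apply, h3, hc1]
  obtain ⟨ζ, hζ, hζf⟩ := unq (O := V.comap (algebraMap L Ω)) (t := ⟨x⁻¹, htO⟩) (g := ⟨g, hg⟩) hO hπ0 hπ
    huni he₁ (by
      intro h0
      exact inv_ne_zero hx0L (congrArg Subtype.val h0)) hx1 (by
      show π ^ e₁ / x⁻¹ ∈ _
      rw [div_inv_eq_mul]
      exact hx2) hP hPg hres hS₁ hS₂ (pow_ne_zero e hc₀0) he ht₁ ht₂ hgg
  refine ⟨ζ, hζ, fun m => ?_⟩
  have hzO : z ∈ V.comap (algebraMap L Ω) := (hmem z).2 hz.mem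
  have h1 : f₁ ⟨z, hzO⟩ = pz := apx_uniq hι' hT hT0 (hA₁ ⟨z, hzO⟩) hz
  have h2 := congrArg (PowerSeries.coeff m) (hζf ⟨z, hzO⟩)
  rw [hf₂a, PowerSeries.coeff_rescale, h1] at h2
  exact h2

end Pool.Agent.H85.LK
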