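import Pool.Agent.H85.LK.Def

/-! # [H85 LK ALC] The coefficients of the branch are algebraic over `Q0 H`

`Br.int`: almost always `a_N = coeff m (ξ N)` is a zero of a monic `p_N ∈ ℤ[X]` of degree `d` with coefficients at most `2^d (H N)^((m+1)d) ≤ (H N + 2)^C` (`C = d + (m+1) d`). For the other `N` put `p_N = X^d`. The class of the sequence of the `j`-th coefficients is in
`Q0 H` (`Small`: an integer has denominator 1). So `cl a` is a zero of the monic polynomial `∑_j cl(p_N.coeff j) X^j` of degree `d` over `Q0 H` (evaluate: `cl` of a finite sum; for almost all `N` the value is 0). -/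

namespace Pool.Agent.H85.LK

open Pool.Agent.H82.NS Pool.Agent.H87.SA2 Filter

private noncomputable def clH : (ℕ → AA) →+* AS where
  toFun := cl
  map_one' := rfl
  map_zero' := rfl
  map_mul' := fun _ _ => rfl
  map_add' := fun _ _ => rfl

private theorem clH_apply (f : ℕ → AA) : clH f = cl f := rfl

private theorem cl_pow' (f : ℕ → AA) (n : ℕ) : (cl f : AS) ^ n = cl (fun N => f N ^ n) := by
  rw [← clH_apply, ← map_pow]; rfl

private theorem cl_sum' (s : Finset ℕ) (f : ℕ → ℕ → AA) :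
    ∑ i ∈ s, (cl (f i) : AS) = cl (fun N => ∑ i ∈ s, f i N) := by
  have : ∑ i ∈ s, (cl (f i) : AS) = clH (∑ i ∈ s, f i) := by
    rw [map_sum]; rfl
  rw [this, clH_apply]
  congr 1
  funext N
  simp

theorem alc {H : ℕ → ℕ} {d e : ℕ} {x y : ℕ → ℤ} {q : ℕ → ℕ} {T : ℕ → AA} {ξ : ℕ → PowerSeries AA}
    (hB : ∀ᶠ N in UU, Br d e (H N) (x N) (y N) (q N) (T N) (ξ N)) (m : ℕ) :
    IsAlgebraic (Q0 H) (cl (fun N => PowerSeries.coeff m (ξ N)) : AS) := by
  classical
  obtain ⟨C, hC⟩ : ∃ C, C = d + (m + 1) * d := ⟨_, rfl⟩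
  have key : ∀ N, ∃ p : Polynomial ℤ, p.Monic ∧ p.natDegree = d ∧
      (∀ j, (p.coeff j).natAbs ≤ (H N + 2) ^ C) ∧
      (Br d e (H N) (x N) (y N) (q N) (T N) (ξ N) → Polynomial.aeval (PowerSeries.coeff m (ξ N)) p = 0) := by
    intro N
    by_cases h : Br d e (H N) (x N) (y N) (q N) (T N) (ξ N)
    · obtain ⟨p, h1, h2, h3, h4⟩ := h.int m
      refine ⟨p, h1, h2, fun j => ?_, fun _ => h4⟩
      have h5 := h3 j
      have h6 : ((p.coeff j).natAbs : ℤ) ≤ (((2 ^ d * H N ^ ((m + 1) * d) : ℕ)) : ℤ) := by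
        rw [Int.natCast_natAbs]
        push_cast
        exact h5
      have h7 : (p.coeff j).natAbs ≤ 2 ^ d * H N ^ ((m + 1) * d) := by exact_mod_cast h6
      refine h7.trans ?_
      rw [hC, pow_add]
      exact Nat.mul_le_mul (Nat.pow_le_pow_left (by omega) d) (Nat.pow_le_pow_left (by omega) _)
    · refine ⟨Polynomial.X ^ d, Polynomial.monic_X_pow d, Polynomial.natDegree_X_pow d, fun j => ?_, fun h' => absurd h' h⟩
      rw [Polynomial.coeff_X_pow]
      have h1 : 1 ≤ (H N + 2) ^ C := Nat.one_le_pow _ _ (by omega)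
      split_ifs
      · simpa using h1
      · simp
  choose P hP1 hP2 hP3 hP4 using key
  have hsm : ∀ j, Small H (fun N => (((P N).coeff j : ℤ) : ℚ)) := by
    intro j
    refine ⟨C, fun N => ?_⟩
    rw [Rat.num_intCast, Rat.den_intCast]
    exact ⟨hP3 N j, Nat.one_le_pow _ _ (by omega)⟩
  obtain ⟨c, hc⟩ : ∃ c : ℕ → Q0 H, ∀ j, ((c j : Q0 H) : QS) = cl (fun N => (((P N).coeff j : ℤ) : ℚ)) :=
    ⟨fun j => ⟨cl (fun N => (((P N).coeff j : ℤ) : ℚ)), ⟨_, hsm j, rfl⟩⟩, fun j => rfl⟩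
  have hcd : c d = 1 := by
    apply Subtype.ext
    rw [hc]
    show _ = (1 : QS)
    rw [cl_one]
    congr 1
    funext N
    have h1 : (P N).coeff d = 1 := by
      have h2 := (hP1 N).coeff_natDegree
      rwa [hP2 N] at h2
    rw [h1, Int.cast_one]
  refine ⟨∑ j ∈ Finset.range (d + 1), Polynomial.C (c j) * Polynomial.X ^ j, ?_, ?_⟩
  · intro h0
    have h1 := congrArg (fun p => Polynomial.coeff p d) h0
    simp only [Polynomial.finsetSum_coeff, Polynomial.coeff_C_mul_X_pow, Polynomial.coeff_zero] at h1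
    rw [Finset.sum_ite_eq, if_pos (Finset.mem_range.2 (Nat.lt_succ_self d)), hcd] at h1
    exact one_ne_zero h1
  · rw [map_sum]
    have h1 : ∀ j ∈ Finset.range (d + 1), Polynomial.aeval (cl (fun N => PowerSeries.coeff m (ξ N)) : AS)
        (Polynomial.C (c j) * Polynomial.X ^ j) =
        cl (fun N => (((P N).coeff j : ℤ) : AA) * (PowerSeries.coeff m (ξ N)) ^ j) := by
      intro j _
      rw [map_mul, Polynomial.aeval_C, map_pow, Polynomial.aeval_X, cl_pow']
      have h2 : algebraMap (Q0 H) AS (c j) = algebraMap QS AS ((c j : Q0 H) : QS) := rfl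
      rw [h2, hc, map_cl, cl_mul]
      congr 1
    rw [Finset.sum_congr rfl h1, cl_sum', cl_zero, cl_eq]
    filter_upwards [hB] with N hN
    have h3 := hP4 N hN
    rw [Polynomial.aeval_eq_sum_range, hP2 N] at h3
    rw [← h3]
    refine Finset.sum_congr rfl fun j _ => ?_
    rw [zsmul_eq_mul]

end Pool.Agent.H85.LK
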