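import Pool.Agent.H82.NS.Int
import Pool.Agent.H34.AC.KapA
import Pool.Agent.H12.ON.Apx

/-! # [H85 LK] The link theorem: definitions

`AS` = the ultrapower of the field `AA` of the algebraic numbers in `ℂ`. `VA H` = the valuation ring of the elements of `AS` of
absolute value at most `H^C`, `C` standard. `Ser k O f`: `f : O → kk[[X]]` is a homomorphism over `k` which maps the maximal ideal into
the maximal ideal. `Br d e b x y q T ξ`: the integer point `(x,y)` lies on the branch `y/x = ξ(T)`, `(q T)^e x = 1`, all constants are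
bounded by `b`. -/

namespace Pool.Agent.H85.LK

open Pool.Agent.H82.NS Pool.Agent.H87.SA2 Pool.Agent.H34.AC Filter

/-- the ultrapower of the field of algebraic numbers -/
abbrev AS : Type := Ult AA

noncomputable instance instAlgQSAS : Algebra QS AS := (germMap (algebraMap ℚ AA)).toAlgebra

noncomputable instance instAlgQ0AS (H : ℕ → ℕ) : Algebra (Q0 H) AS :=
  ((algebraMap QS AS).comp (Q0 H).subtype).toAlgebra

instance instTowAS (H : ℕ → ℕ) : IsScalarTower (Q0 H) QS AS :=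
  IsScalarTower.of_algebraMap_eq (R := Q0 H) (S := QS) (A := AS) (fun _ => rfl)

theorem map_cl (a : ℕ → ℚ) : algebraMap QS AS (cl a) = cl (fun N => algebraMap ℚ AA (a N)) := rfl

/-- the elements of `AS` of absolute value at most `H^C` for a standard `C` -/
noncomputable def VA (H : ℕ → ℕ) : ValuationSubring AS where
  carrier := {z | ∃ (f : ℕ → AA) (C : ℕ), z = cl f ∧ ∀ᶠ N in UU, ‖(f N : ℂ)‖ ≤ ((H N : ℝ) + 2) ^ C}
  one_mem' := ⟨fun _ => 1, 0, rfl, Eventually.of_forall fun N => by simp⟩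
  zero_mem' := ⟨fun _ => 0, 0, rfl, Eventually.of_forall fun N => by simp⟩
  mul_mem' := by
    rintro a b ⟨f, C, rfl, hf⟩ ⟨g, D, rfl, hg⟩
    refine ⟨fun N => f N * g N, C + D, rfl, ?_⟩
    filter_upwards [hf, hg] with N h1 h2
    have h3 : (((f N * g N : AA)) : ℂ) = (f N : ℂ) * (g N : ℂ) := rfl
    rw [h3, norm_mul, pow_add]
    exact mul_le_mul h1 h2 (norm_nonneg _) (by positivity)
  add_mem' := by
    rintro a b ⟨f, C, rfl, hf⟩ ⟨g, D, rfl, hg⟩
    refine ⟨fun N => f N + g N, C + D + 1, rfl, ?_⟩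
    filter_upwards [hf, hg] with N h1 h2
    have h3 : (((f N + g N : AA)) : ℂ) = (f N : ℂ) + (g N : ℂ) := rfl
    have h4 : (1 : ℝ) ≤ (H N : ℝ) + 2 := by
      have : (0 : ℝ) ≤ (H N : ℝ) := Nat.cast_nonneg _
      linarith
    have h5 : (2 : ℝ) ≤ (H N : ℝ) + 2 := by
      have : (0 : ℝ) ≤ (H N : ℝ) := Nat.cast_nonneg _
      linarith
    rw [h3]
    have h6 : ((H N : ℝ) + 2) ^ C ≤ ((H N : ℝ) + 2) ^ (C + D) := pow_le_pow_right₀ h4 (by omega)
    have h7 : ((H N : ℝ) + 2) ^ D ≤ ((H N : ℝ) + 2) ^ (C + D) := pow_le_pow_right₀ h4 (by omega)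
    have h8 : (0 : ℝ) ≤ ((H N : ℝ) + 2) ^ (C + D) := by positivity
    calc ‖(f N : ℂ) + (g N : ℂ)‖ ≤ ‖(f N : ℂ)‖ + ‖(g N : ℂ)‖ := norm_add_le _ _
      _ ≤ ((H N : ℝ) + 2) ^ (C + D) + ((H N : ℝ) + 2) ^ (C + D) := by linarith
      _ = ((H N : ℝ) + 2) ^ (C + D) * 2 := by ring
      _ ≤ ((H N : ℝ) + 2) ^ (C + D) * ((H N : ℝ) + 2) := mul_le_mul_of_nonneg_left h5 h8
      _ = ((H N : ℝ) + 2) ^ (C + D + 1) := (pow_succ _ _).symm
  neg_mem' := by
    rintro a ⟨f, C, rfl, hf⟩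
    refine ⟨fun N => - f N, C, rfl, ?_⟩
    filter_upwards [hf] with N h1
    have h3 : (((- f N : AA)) : ℂ) = - (f N : ℂ) := rfl
    rwa [h3, norm_neg]
  mem_or_inv_mem' := by
    intro a
    obtain ⟨f, rfl⟩ := cl_surj a
    rcases (Ultrafilter.em (hyperfilter ℕ) (fun N => ‖(f N : ℂ)‖ ≤ 1)) with h | h
    · exact Or.inl ⟨f, 0, rfl, by simpa using h⟩
    · refine Or.inr ⟨fun N => (f N)⁻¹, 0, rfl, ?_⟩
      filter_upwards [h] with N h1
      have h3 : ((((f N)⁻¹ : AA)) : ℂ) = (f N : ℂ)⁻¹ := rfl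
      rw [h3, norm_inv, pow_zero]
      exact inv_le_one_of_one_le₀ (not_le.1 h1).le

/-- homomorphisms `O → kk[[X]]` over `k` which respect the maximal ideals -/
structure Ser (k : Type) {L kk : Type} [Field k] [Field L] [Algebra k L] [Field kk] [Algebra k kk]
    (O : ValuationSubring L) (f : O →+* PowerSeries kk) : Prop where
  base : ∀ (c : k) (hc : algebraMap k L c ∈ O), f ⟨algebraMap k L c, hc⟩ = PowerSeries.C (algebraMap k kk c)
  loc : ∀ a : O, (a : L) ∈ O.nonunits → PowerSeries.constantCoeff (f a) = 0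

/-- the point `(x,y)` lies on the branch `y/x = ξ(T)`, `(q T)^e x = 1`; `b` bounds all constants -/
structure Br (d e b : ℕ) (x y : ℤ) (q : ℕ) (T : AA) (ξ : PowerSeries AA) : Prop where
  q1 : 1 ≤ q
  qb : q ≤ b
  e1 : 1 ≤ e
  par : ((q : AA) * T) ^ e * (x : AA) = 1
  sum : HasSum (fun m => ((PowerSeries.coeff m ξ : AA) : ℂ) * (T : ℂ) ^ m) ((y : ℂ) / (x : ℂ))
  grow : ∀ m, ‖((PowerSeries.coeff m ξ : AA) : ℂ)‖ ≤ (b : ℝ) ^ (m + 1)
  int : ∀ m, ∃ p : Polynomial ℤ, p.Monic ∧ p.natDegree = d ∧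
    (∀ j, |p.coeff j| ≤ 2 ^ d * (b : ℤ) ^ ((m + 1) * d)) ∧ Polynomial.aeval (PowerSeries.coeff m ξ) p = 0
  sep : ∀ (σ : AA ≃ₐ[ℚ] AA) (ζ : AA), ζ ^ e = 1 →
    (∀ m ≤ 2 * d * d * e, ζ ^ m * σ (PowerSeries.coeff m ξ) = PowerSeries.coeff m ξ) → act σ ζ ξ = ξ

end Pool.Agent.H85.LK
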