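import Pool.Agent.H85.LK.Pds
import Pool.Agent.H85.LK.Def
import Pool.Agent.H8.AS.Pt

/-! # [H85 LK BRC] Exceptional points lie on a branch in the sense of `Br`

(1) Copy the proof of `CrvS.exc` (H8/AS/Pt.lean; it ends with `refine ⟨τ, d, b, F, Q, i, T, …⟩`): there are `τ`, `i`, `T : ℂ` with `(q T)^e x = 1`, `HasSum … (y/x)`, `i ∈ S`, `kap i = ofReal ∘ τ`; this gives `ExcS`.
(2) `exists_xi Q.pd` (H34/AC/KapA.lean): `ξ i ∈ AA[[X]]` with image `Q.pd.x i`. `T ∈ AA` since `(q T)^e x = 1`, `x ≠ 0`. `Br`: `q1`, `e1`: `q_pos`, `e_pos`; `qb`: `q_le`; `par`, `sum`: given (coercions); `grow`: `Q.pd.growth` and `R ≤ b`; `int`: `pd_int` (a zero in `ℂ` is a zero in `AA`, injectivity);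
`sep`: `act σ ζ (ξ i) = ξ j` for some `j` (`act_root`); if `j ≠ i` then `pd_sep` (`Q.bez`, `f = fI d F`) contradicts the hypothesis (the coefficients of `act σ ζ (ξ i)` and `ξ i` agree up to `2dde`).
`e ≤ d! ≤ n!` (`Q.e_le`, `Q.dn`).
(3) The last clause: `act σ ζ (ξ i) = ξ i`, `ζ^e = 1`. Let `σ' : AA →+* ℂ`, `σ' a = (σ a : ℂ)`, `j` with `σ'(coeff m (x_i)) = coeff m (x_j)` for all `m` (`perm_gal`). Then `rescale ζ (x_j) = x_i` (coefficients), so `kap i = kap j` (`Q.kp.rot ζ j .. i`), and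
`gal σ' i hi j` gives `σ' a = kap j z = kap i z = τ z = a`. -/

namespace Pool.Agent.H85.LK

open Pool.Agent.H72.ES Pool.Agent.H87.SA2 Pool.Agent.H34.AC Pool.Agent.H8.AS Pool.Agent.H8.AW

theorem br_crv {k : Type} [Field k] [NumberField k] {n d b : ℕ} {F : ℕ → ℕ → ℤ} (Q : CrvS k n d b F) {c : ℕ}
    (hc : 4 * n.factorial ≤ c) {x y : ℤ} (hz : ev d F x y = 0) (hx : (b : ℝ) ^ c ≤ |(x : ℝ)|) :
    ∃ (τ : k →+* ℝ) (e q : ℕ) (T : AA) (ξ : PowerSeries AA), ExcS k τ n c x y ∧ e ≤ n.factorial ∧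
      Br d e b x y q T ξ ∧ ∀ (σ : AA ≃ₐ[ℚ] AA) (ζ : AA), ζ ^ e = 1 →
        act σ ζ ξ = ξ → ∀ (z : k) (a : AA), (a : ℂ) = ((τ z : ℝ) : ℂ) → σ a = a := by
  classical
  have hb2 : (2 : ℝ) ≤ b := by exact_mod_cast Q.b2
  have hn1 : 1 ≤ n.factorial := Nat.factorial_pos n
  have hb1 : (b : ℝ) + 1 ≤ |(x : ℝ)| := by
    calc (b : ℝ) + 1 ≤ (b : ℝ) ^ 2 := by nlinarith
      _ ≤ (b : ℝ) ^ c := pow_le_pow_right₀ (by linarith) (by omega)
      _ ≤ _ := hx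
  have hx0 : x ≠ 0 := by
    rintro rfl
    rw [Int.cast_zero, abs_zero] at hb1
    linarith
  have hxC : (x : ℂ) ≠ 0 := by exact_mod_cast hx0
  have he : 0 < Q.pd.e := Q.pd.e_pos
  have hq0 : (Q.pd.q : ℂ) ≠ 0 := by
    have := Q.pd.q_pos
    exact_mod_cast (by omega : Q.pd.q ≠ 0)
  obtain ⟨S, hS⟩ := IsAlgClosed.exists_pow_nat_eq (1 / (x : ℂ)) he
  obtain ⟨T, hTdef⟩ : ∃ T : ℂ, T = S / (Q.pd.q : ℂ) := ⟨_, rfl⟩
  have hqT : (Q.pd.q : ℂ) * T = S := by rw [hTdef]; field_simp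
  have hTx : ((Q.pd.q : ℂ) * T) ^ Q.pd.e * (x : ℂ) = 1 := by
    rw [hqT, hS]
    field_simp
  have hSn : ‖S‖ < 1 / (b : ℝ) ^ 2 := by
    by_contra hcon
    push Not at hcon
    have hb0 : (0 : ℝ) < (b : ℝ) ^ 2 := by positivity
    have h1 : (1 / (b : ℝ) ^ 2) ^ Q.pd.e ≤ ‖S‖ ^ Q.pd.e :=
      pow_le_pow_left₀ (by positivity) hcon _
    rw [← norm_pow, hS, norm_div, norm_one, Complex.norm_intCast, one_div_pow] at h1
    have hxp : (0 : ℝ) < |(x : ℝ)| := by linarith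
    rw [one_div_le_one_div (by positivity) hxp, ← pow_mul] at h1
    have h2 : 2 * Q.pd.e < c := by
      have h3 : Q.pd.e ≤ n.factorial := Q.e_le.trans (Nat.factorial_le Q.dn)
      omega
    have h3 : (b : ℝ) ^ (2 * Q.pd.e) < (b : ℝ) ^ c := pow_lt_pow_right₀ (by linarith) h2
    linarith
  have hTn : ‖T‖ ≤ ‖S‖ := by
    rw [hTdef, norm_div, Complex.norm_natCast]
    have h1 : (1 : ℝ) ≤ Q.pd.q := by exact_mod_cast Q.pd.q_pos
    exact div_le_self (norm_nonneg _) h1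
  have hT : Q.pd.R * ‖T‖ < 1 := by
    have h1 : Q.pd.R * ‖T‖ ≤ b * ‖S‖ :=
      mul_le_mul Q.R_le hTn (norm_nonneg _) (by linarith)
    have h2 : (b : ℝ) * ‖S‖ < b * (1 / (b : ℝ) ^ 2) :=
      mul_lt_mul_of_pos_left hSn (by linarith)
    have h3 : (b : ℝ) * (1 / (b : ℝ) ^ 2) ≤ 1 := by
      have : (b : ℝ) ≠ 0 := by linarith
      rw [mul_one_div, div_le_one (by positivity)]
      nlinarith
    linarith
  obtain ⟨i, hi⟩ := Q.toQ.branch hz hx0 hT hTx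
  change evT T (Q.pd.x i) = (y : ℂ) / (x : ℂ) at hi
  obtain ⟨hiS, τ, hτ⟩ := Q.real hb1 hT hTx hi
  have hR : 0 ≤ Q.pd.R := by linarith [Q.pd.R_ge]
  have hsum : HasSum (fun m => PowerSeries.coeff m (Q.pd.x i) * T ^ m) ((y : ℂ) / (x : ℂ)) := by
    rw [← hi]
    exact (CvT_of hR (Q.pd.growth i) hT).hasSum
  -- `T` is algebraic
  have hTA : T ∈ AA := by
    rw [mem_algebraicClosure_iff]
    have h1 : T ^ Q.pd.e = algebraMap ℚ ℂ (1 / ((Q.pd.q : ℚ) ^ Q.pd.e * (x : ℚ))) := by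
      rw [mul_pow] at hTx
      have h2 : (Q.pd.q : ℂ) ^ Q.pd.e ≠ 0 := pow_ne_zero _ hq0
      rw [map_div₀, map_one, map_mul, map_pow, map_natCast, map_intCast, eq_div_iff (mul_ne_zero h2 hxC)]
      rw [← hTx]
      ring
    have h2 : IsIntegral ℚ (T ^ Q.pd.e) := by
      rw [h1]
      exact isIntegral_algebraMap
    exact (IsIntegral.of_pow he h2).isAlgebraic
  obtain ⟨ξ, hξ1, hξ2, -⟩ := exists_xi Q.pd
  have hcoe : ∀ l m, ((PowerSeries.coeff m (ξ l) : AA) : ℂ) = PowerSeries.coeff m (Q.pd.x l) := by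
    intro l m
    rw [← hξ1 l, PowerSeries.coeff_map]
    rfl
  have hinj : ∀ a b : AA, (a : ℂ) = (b : ℂ) → a = b := fun a b h => Subtype.ext h
  refine ⟨τ, Q.pd.e, Q.pd.q, ⟨T, hTA⟩, ξ i,
    ⟨d, b, F, Q, i, T, hz, hTx, hsum, hiS, hτ, hx⟩, Q.e_le.trans (Nat.factorial_le Q.dn), ?_, ?_⟩
  · refine ⟨Q.pd.q_pos, Q.q_le, Q.pd.e_pos, ?_, ?_, ?_, ?_, ?_⟩
    · apply hinj
      have h1 : (((((Q.pd.q : ℕ) : AA) * (⟨T, hTA⟩ : AA)) ^ Q.pd.e * (x : AA) : AA) : ℂ) =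
          ((Q.pd.q : ℂ) * T) ^ Q.pd.e * (x : ℂ) := by
        push_cast
        rfl
      rw [h1, hTx]
      rfl
    · simp only [hcoe]
      exact hsum
    · intro m
      rw [hcoe]
      exact (Q.pd.growth i m).trans (pow_le_pow_left₀ hR Q.R_le _)
    · intro m
      obtain ⟨p, hp1, hp2, hp3, hp4⟩ := pd_int Q.pd Q.R_le i m
      refine ⟨p, hp1, hp2, hp3, ?_⟩
      apply hinj
      rw [← hcoe] at hp4
      have h1 : ((Polynomial.aeval (PowerSeries.coeff m (ξ i)) p : AA) : ℂ) =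
          Polynomial.aeval (((PowerSeries.coeff m (ξ i) : AA)) : ℂ) p :=
        (Polynomial.aeval_algebraMap_apply ℂ (PowerSeries.coeff m (ξ i)) p).symm
      rw [h1, hp4]
      rfl
    · intro σ ζ hζ h
      obtain ⟨j, hj⟩ := act_root hξ2 σ ζ hζ i
      by_cases hij : i = j
      · rw [hj, hij]
      · exfalso
        obtain ⟨u, v, c', hc', hbez, hdeg, -⟩ := Q.bez
        obtain ⟨m, hm, hne⟩ := pd_sep Q.pd hc' hbez hdeg hij
        apply hne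
        rw [← hcoe, ← hcoe, ← hj, coeff_act, h m hm]
  · intro σ ζ hζ hact z a ha
    obtain ⟨σ', hσ'⟩ : ∃ σ' : AA →+* ℂ, ∀ a, σ' a = ((σ a : AA) : ℂ) :=
      ⟨(algebraMap AA ℂ).comp (σ : AA →+* AA), fun a => rfl⟩
    obtain ⟨π, hπ⟩ := Pool.Agent.H52.AC.perm_gal Q.pd σ'
    obtain ⟨hjS, hj⟩ := Q.kp.gal σ' i hiS (π i) (fun m a ha => hπ i m a ha)
    have hζC : (ζ : ℂ) ^ Q.pd.e = 1 := by
      have := congrArg (fun t : AA => (t : ℂ)) hζ
      simpa using this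
    have hrot : PowerSeries.rescale (ζ : ℂ) (Q.pd.x (π i)) = Q.pd.x i := by
      ext m
      rw [PowerSeries.coeff_rescale, ← hπ i m (PowerSeries.coeff m (ξ i)) (hcoe i m), hσ', ← hcoe i m]
      have h1 := congrArg (fun s => ((PowerSeries.coeff m s : AA) : ℂ)) hact
      simp only [coeff_act] at h1
      rw [← h1]
      push_cast
      rfl
    have hkk : Q.kp.kap i = Q.kp.kap (π i) := (Q.kp.rot (ζ : ℂ) (π i) hjS i hζC hrot).2
    apply hinj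
    have hz1 : (a : ℂ) = Q.kp.kap i z := by
      rw [ha, hτ]
      rfl
    rw [← hσ', hj z a hz1, ← hkk, ← hz1]

end Pool.Agent.H85.LK
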