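import Pool.Agent.H85.LK.Def
import Pool.Agent.H82.NS.Tra

/-! # [H85 LK STA] The ultrapower `AS` of the algebraic numbers and its valuation ring `VA H`

* `va_qs`: `V0 H` = the `z ∈ QS` with `|z| ≤ r` for some `r ∈ Q0 H`; an element of `Q0 H` is bounded by `(H+2)^C`, and the class of `(H+2)^C` is in `Q0 H`.
* `va_non`: `cl f` is in the maximal ideal of `VA H` iff for every `C` almost always `‖f N‖ (H N + 2)^C < 1` (`z ∈ nonunits ↔ z = 0 ∨ z⁻¹ ∉ V`; not eventually `‖1/f‖ ≤ (H+2)^C` means eventually `>` by the ultrafilter).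
* `as_closed`: the ultrapower of an algebraically closed field is algebraically closed: copy the proof of `alg_closed_ult` (H82/NS/Tra.lean; it is for `Qb` but only uses that `Qb` is an algebraically closed field); `AA` is algebraically closed (`algebraicClosure ℚ ℂ`,
instance `IsAlgClosure`/`IsAlgClosed` in Mathlib: `algebraicClosure.isAlgClosure`). `aq_closed`: as `alg_closed_bar`. -/

namespace Pool.Agent.H85.LK

open Pool.Agent.H82.NS Pool.Agent.H87.SA2 Filter

private theorem sta_norm (q : ℚ) : ‖((algebraMap ℚ AA q : AA) : ℂ)‖ = |(q : ℝ)| := by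
  have h1 : ((algebraMap ℚ AA q : AA) : ℂ) = ((q : ℝ) : ℂ) := by
    have h2 : ((algebraMap ℚ AA q : AA) : ℂ) = algebraMap ℚ ℂ q := rfl
    rw [h2, eq_ratCast]
    push_cast
    rfl
  rw [h1, Complex.norm_real, Real.norm_eq_abs]

private theorem sta_abs (f : ℕ → ℚ) : |cl f| = cl (fun N => |f N|) :=
  Germ.abs_def (cl f : Germ UU ℚ)

private theorem sta_pow_mem (H : ℕ → ℕ) (C : ℕ) :
    cl (fun N => (((H N + 2) ^ C : ℕ) : ℚ)) ∈ Q0 H := by
  refine ⟨fun N => (((H N + 2) ^ C : ℕ) : ℚ), ⟨C, fun N => ⟨?_, ?_⟩⟩, rfl⟩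
  · rw [Rat.num_natCast, Int.natAbs_natCast]
  · rw [Rat.den_natCast]
    exact Nat.one_le_pow _ _ (by omega)

theorem va_qs (H : ℕ → ℕ) (z : QS) : algebraMap QS AS z ∈ VA H ↔ z ∈ V0 H := by
  obtain ⟨f, rfl⟩ := cl_surj z
  constructor
  · rintro ⟨g, C, hg, hb⟩
    rw [map_cl, cl_eq] at hg
    refine ⟨_, sta_pow_mem H C, ?_⟩
    rw [sta_abs, cl_le]
    filter_upwards [hg, hb] with N h1 h2
    rw [← h1, sta_norm] at h2
    have h3 : ((|f N| : ℚ) : ℝ) ≤ (((((H N + 2) ^ C : ℕ) : ℚ)) : ℝ) := by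
      push_cast
      exact h2
    exact_mod_cast h3
  · rintro ⟨r, ⟨g, ⟨C, hC⟩, rfl⟩, hr⟩
    rw [sta_abs, cl_le] at hr
    refine ⟨fun N => algebraMap ℚ AA (f N), C, map_cl f, ?_⟩
    filter_upwards [hr] with N h1
    rw [sta_norm]
    obtain ⟨h2, -⟩ := hC N
    have h3 : g N ≤ (((g N).num.natAbs : ℕ) : ℚ) := by
      have h4 : g N ≤ ((g N).num : ℚ) ∨ g N ≤ 0 := by
        rcases le_or_gt (g N) 0 with h5 | h5
        · exact Or.inr h5
        · left
          have h6 : (1 : ℚ) ≤ ((g N).den : ℚ) := by exact_mod_cast (g N).den_pos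
          calc g N = g N * 1 := (mul_one _).symm
            _ ≤ g N * ((g N).den : ℚ) := mul_le_mul_of_nonneg_left h6 h5.le
            _ = ((g N).num : ℚ) := Rat.mul_den_eq_num _
      rcases h4 with h4 | h4
      · refine h4.trans ?_
        have h5 : ((g N).num : ℤ) ≤ ((g N).num.natAbs : ℤ) := Int.le_natAbs
        have h6 : (((g N).num : ℤ) : ℚ) ≤ (((g N).num.natAbs : ℤ) : ℚ) := Int.cast_le.2 h5
        rw [Int.cast_natCast] at h6
        exact h6
      · exact h4.trans (Nat.cast_nonneg _)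
    have h4 : (((g N).num.natAbs : ℕ) : ℚ) ≤ (((H N + 2) ^ C : ℕ) : ℚ) := by exact_mod_cast h2
    have h5 : |f N| ≤ (((H N + 2) ^ C : ℕ) : ℚ) := h1.trans (h3.trans h4)
    have h6 : ((|f N| : ℚ) : ℝ) ≤ (((((H N + 2) ^ C : ℕ) : ℚ)) : ℝ) := by exact_mod_cast h5
    push_cast at h6
    exact h6

theorem va_base (H : ℕ → ℕ) (c : Q0 H) : algebraMap (Q0 H) AS c ∈ VA H := by
  have h1 : algebraMap (Q0 H) AS c = algebraMap QS AS (c : QS) := rfl
  rw [h1, va_qs]
  rcases abs_choice (c : QS) with h | h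
  · exact ⟨(c : QS), c.2, le_of_eq h⟩
  · exact ⟨-(c : QS), (Q0 H).neg_mem c.2, le_of_eq h⟩

theorem va_non (H : ℕ → ℕ) (f : ℕ → AA) :
    (cl f : AS) ∈ (VA H).nonunits ↔ ∀ C : ℕ, ∀ᶠ N in UU, ‖(f N : ℂ)‖ * ((H N : ℝ) + 2) ^ C < 1 := by
  have hinv : ∀ x : AA, ((x⁻¹ : AA) : ℂ) = (x : ℂ)⁻¹ := fun x => rfl
  have hpos : ∀ (N C : ℕ), (0 : ℝ) < ((H N : ℝ) + 2) ^ C := fun N C => by positivity
  rw [ValuationSubring.mem_nonunits_iff]
  constructor
  · intro h C
    rcases Ultrafilter.em (hyperfilter ℕ)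
      (fun N => ‖(f N : ℂ)‖ * ((H N : ℝ) + 2) ^ C < 1) with h1 | h1
    · exact h1
    · exfalso
      have h2 : ((cl f : AS))⁻¹ ∈ VA H := by
        refine ⟨fun N => (f N)⁻¹, C, rfl, ?_⟩
        filter_upwards [h1] with N h3
        rw [not_lt] at h3
        have h4 : 0 < ‖(f N : ℂ)‖ := by
          rcases (norm_nonneg (f N : ℂ)).lt_or_eq with h5 | h5
          · exact h5
          · rw [← h5, zero_mul] at h3
            linarith
        rw [hinv, norm_inv]
        rw [inv_le_iff_one_le_mul₀ h4, mul_comm]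
        exact h3
      have h3 : (cl f : AS) ≠ 0 := by
        rw [cl_zero, Ne, cl_eq]
        intro h4
        obtain ⟨N, h5, h6⟩ := (h1.and h4).exists
        apply h5
        rw [h6]
        simp
      have h4 := (ValuationSubring.valuation_le_one_iff (VA H) _).2 h2
      have h5 : (VA H).valuation (cl f : AS) * (VA H).valuation ((cl f : AS)⁻¹) = 1 := by
        rw [← map_mul, mul_inv_cancel₀ h3, map_one]
      have h6 : (VA H).valuation (cl f : AS) * (VA H).valuation ((cl f : AS)⁻¹) < 1 :=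
        lt_of_le_of_lt (mul_le_mul' le_rfl h4) (by rwa [mul_one])
      rw [h5] at h6
      exact lt_irrefl _ h6
  · intro h
    by_contra h1
    rw [not_lt] at h1
    have h3 : (cl f : AS) ≠ 0 := by
      intro h4
      rw [h4, map_zero] at h1
      exact absurd h1 (not_le.2 zero_lt_one)
    have h5 : (VA H).valuation (cl f : AS) * (VA H).valuation ((cl f : AS)⁻¹) = 1 := by
      rw [← map_mul, mul_inv_cancel₀ h3, map_one]
    have h2 : ((cl f : AS))⁻¹ ∈ VA H := by
      rw [← ValuationSubring.valuation_le_one_iff]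
      calc (VA H).valuation ((cl f : AS)⁻¹) = 1 * (VA H).valuation ((cl f : AS)⁻¹) := (one_mul _).symm
        _ ≤ (VA H).valuation (cl f : AS) * (VA H).valuation ((cl f : AS)⁻¹) := mul_le_mul' h1 le_rfl
        _ = 1 := h5
    obtain ⟨g, C, hg, hb⟩ := h2
    rw [cl_inv, cl_eq] at hg
    have h4 : ∀ᶠ N in UU, f N ≠ 0 := by
      rw [cl_zero, Ne, cl_eq] at h3
      rcases Ultrafilter.em (hyperfilter ℕ) (fun N => f N = 0) with h6 | h6
      · exact absurd h6 h3
      · exact h6
    obtain ⟨N, h6, h7, h8, h9⟩ := (hg.and (hb.and (h4.and (h C)))).exists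
    rw [← h6, hinv, norm_inv] at h7
    have h10 : 0 < ‖(f N : ℂ)‖ := by
      rw [norm_pos_iff]
      intro h11
      exact h8 (Subtype.ext h11)
    rw [inv_le_iff_one_le_mul₀ h10, mul_comm] at h7
    linarith

private noncomputable def sta_cl (R : Type*) [CommRing R] : (ℕ → R) →+* Ult R where
  toFun := cl
  map_one' := rfl
  map_zero' := rfl
  map_mul' := fun _ _ => rfl
  map_add' := fun _ _ => rfl

private theorem sta_cl_apply {R : Type*} [CommRing R] (f : ℕ → R) : sta_cl R f = cl f := rfl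

private theorem sta_cl_pow {R : Type*} [CommRing R] (f : ℕ → R) (n : ℕ) :
    cl f ^ n = cl (fun N => f N ^ n) := by
  rw [← sta_cl_apply, ← map_pow]; rfl

private theorem sta_cl_sum {R ι : Type*} [CommRing R] (s : Finset ι) (f : ι → ℕ → R) :
    ∑ i ∈ s, cl (f i) = cl (fun N => ∑ i ∈ s, f i N) := by
  have : ∑ i ∈ s, cl (f i) = sta_cl R (∑ i ∈ s, f i) := by
    rw [map_sum]; rfl
  rw [this, sta_cl_apply]
  congr 1
  funext N
  simp

theorem as_closed : IsAlgClosed AS := by
  have hAA : IsAlgClosed AA := by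
    have h1 : IsAlgClosed ℂ := Complex.isAlgClosed
    have h2 : IsAlgClosure ℚ (algebraicClosure ℚ ℂ) := algebraicClosure.isAlgClosure ℚ ℂ
    exact h2.isAlgClosed
  refine IsAlgClosed.of_exists_root _ fun p hmon hirr => ?_
  have hd : 0 < p.natDegree := hirr.natDegree_pos
  choose f hf using fun i : ℕ => cl_surj (p.coeff i)
  have hroot : ∀ N : ℕ, ∃ z : AA, z ^ p.natDegree + ∑ i ∈ Finset.range p.natDegree, f i N * z ^ i = 0 := by
    intro N
    let P : Polynomial AA := Polynomial.X ^ p.natDegree +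
      ∑ i ∈ Finset.range p.natDegree, Polynomial.C (f i N) * Polynomial.X ^ i
    have hlt : (∑ i ∈ Finset.range p.natDegree, Polynomial.C (f i N) * Polynomial.X ^ i : Polynomial AA).degree
        < (p.natDegree : WithBot ℕ) := by
      refine (Polynomial.degree_sum_le _ _).trans_lt ?_
      rw [Finset.sup_lt_iff (WithBot.bot_lt_coe _)]
      intro i hi
      refine (Polynomial.degree_C_mul_X_pow_le _ _).trans_lt ?_
      exact_mod_cast Finset.mem_range.mp hi
    have hP : P.degree = (p.natDegree : WithBot ℕ) := by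
      have h1 : (Polynomial.X ^ p.natDegree : Polynomial AA).degree = (p.natDegree : WithBot ℕ) :=
        Polynomial.degree_X_pow _
      change (Polynomial.X ^ p.natDegree + _ : Polynomial AA).degree = _
      rw [Polynomial.degree_add_eq_left_of_degree_lt (by rw [h1]; exact hlt), h1]
    obtain ⟨z, hz⟩ := IsAlgClosed.exists_root P (by rw [hP]; exact_mod_cast hd.ne')
    refine ⟨z, ?_⟩
    have := hz
    simp only [Polynomial.IsRoot.def, P, Polynomial.eval_add, Polynomial.eval_pow, Polynomial.eval_X,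
      Polynomial.eval_finsetSum, Polynomial.eval_mul, Polynomial.eval_C] at this
    exact this
  choose z hz using hroot
  refine ⟨cl z, ?_⟩
  rw [Polynomial.eval_eq_sum_range, Finset.sum_range_succ]
  have h1 : p.coeff p.natDegree = 1 := hmon.coeff_natDegree
  rw [h1, one_mul]
  have h2 : ∑ i ∈ Finset.range p.natDegree, p.coeff i * cl z ^ i =
      cl (fun N => ∑ i ∈ Finset.range p.natDegree, f i N * z N ^ i) := by
    rw [← sta_cl_sum]
    refine Finset.sum_congr rfl fun i _ => ?_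
    rw [hf i, sta_cl_pow, cl_mul]
  rw [h2, sta_cl_pow, cl_add, cl_zero]
  congr 1
  funext N
  rw [add_comm]
  exact hz N

theorem aq_closed (H : ℕ → ℕ) : IsAlgClosed (algebraicClosure (Q0 H) AS) := by
  have h1 : IsAlgClosed AS := as_closed
  have h2 : IsAlgClosure (Q0 H) (algebraicClosure (Q0 H) AS) := inferInstance
  exact h2.isAlgClosed

/-- algebraic elements over `Q0 H` are in `VA H` -/
theorem va_alg (H : ℕ → ℕ) (c : algebraicClosure (Q0 H) AS) : (c : AS) ∈ VA H := by
  have hint : IsIntegral (Q0 H) (c : AS) := isAlgebraic_iff_isIntegral.mp (mem_algebraicClosure_iff.1 c.2)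
  have h1 : IsIntegral (VA H) (c : AS) := by
    obtain ⟨p, hp, hpz⟩ := hint
    let φ : Q0 H →+* VA H := (algebraMap (Q0 H) AS).codRestrict (VA H) (va_base H)
    refine ⟨p.map φ, hp.map φ, ?_⟩
    rw [Polynomial.eval₂_map]
    exact hpz
  obtain ⟨w, hw⟩ := IsIntegrallyClosed.isIntegral_iff.mp h1
  rw [← hw]
  exact w.2

end Pool.Agent.H85.LK
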