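import Pool.Agent.H85.LK.Alc
import Pool.Agent.H85.LK.Sta

/-! # [H85 LK BRX] The expansion of `y/x` in `AS`

`pz = PowerSeries.mk fun m => ⟨cl (coeff m (ξ N)), alc⟩` (the class is algebraic over `Q0 H`). `x N ≠ 0` almost always (`Br.par`). `x ∉ V0 H`: for every `C` almost always `(H N + 2)^C < |x N|`; `(q T)^e x = 1`, `q ≥ 1`, so `‖T‖^e ≤ 1/|x|`, and almost always `(H N + 2)^2 ‖T‖ ≤ 1/2`... in particular `b ‖T‖ ≤ 1/2`, `b = H N`.
Then (`Br.sum`, `Br.grow`) `‖y/x - ∑_{m<M} c_m T^m‖ ≤ ∑_{m≥M} b^(m+1) ‖T‖^m ≤ 2 b^(M+1) ‖T‖^M`. `T ≠ 0`, so `r_N = (y/x - ∑_{m<M} c_m T^m)/T^M` (an element of `AA`: all terms are algebraic) has `‖r_N‖ ≤ 2 b^(M+1) ≤ (H N + 2)^(M+2)`: `cl r ∈ VA H`. -/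

namespace Pool.Agent.H85.LK

open Pool.Agent.H82.NS Pool.Agent.H87.SA2 Pool.Agent.H12.ON Filter

private theorem big {H : ℕ → ℕ} {x : ℕ → ℤ} (hx : (cl (fun N => (x N : ℚ)) : QS) ∉ V0 H) (C : ℕ) :
    ∀ᶠ N in UU, ((H N : ℝ) + 2) ^ C < |(x N : ℝ)| := by
  rcases Ultrafilter.em (hyperfilter ℕ) (fun N => ((H N : ℝ) + 2) ^ C < |(x N : ℝ)|) with h | h
  · exact h
  · exfalso
    apply hx
    have h1 : ∀ᶠ N in UU, |(x N : ℚ)| ≤ ((H N : ℚ) + 2) ^ C := by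
      refine Filter.Eventually.mono h fun N hN => ?_
      have h2 := not_lt.1 hN
      exact_mod_cast h2
    refine ⟨cl (fun N => ((H N : ℚ) + 2) ^ C), ⟨_, ⟨C, fun N => ?_⟩, rfl⟩, ?_⟩
    · have h3 : ((H N : ℚ) + 2) ^ C = (((H N + 2) ^ C : ℕ) : ℚ) := by push_cast; rfl
      rw [h3, Rat.num_natCast, Rat.den_natCast, Int.natAbs_natCast]
      exact ⟨le_refl _, Nat.one_le_pow _ _ (by omega)⟩
    · rw [abs_le]
      constructor
      · rw [cl_neg, cl_le]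
        exact h1.mono fun N hN => (abs_le.1 hN).1
      · rw [cl_le]
        exact h1.mono fun N hN => (abs_le.1 hN).2

private theorem tail {c : ℕ → ℂ} {t z : ℂ} {b : ℝ} (hb0 : 0 ≤ b) (hbt : b * ‖t‖ ≤ 1 / 2)
    (hs : HasSum (fun m => c m * t ^ m) z) (hc : ∀ m, ‖c m‖ ≤ b ^ (m + 1)) (M : ℕ) :
    ‖z - ∑ m ∈ Finset.range M, c m * t ^ m‖ ≤ 2 * b ^ (M + 1) * ‖t‖ ^ M := by
  have h1 := (hasSum_nat_add_iff' M).2 hs
  have h0 : 0 ≤ b * ‖t‖ := mul_nonneg hb0 (norm_nonneg _)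
  have h2 : HasSum (fun j : ℕ => (b ^ (M + 1) * ‖t‖ ^ M) * (b * ‖t‖) ^ j)
      ((b ^ (M + 1) * ‖t‖ ^ M) * (1 - b * ‖t‖)⁻¹) :=
    (hasSum_geometric_of_lt_one h0 (by linarith)).mul_left _
  have h3 := h1.norm_le_of_bounded h2 (fun j => by
    rw [norm_mul, norm_pow]
    calc ‖c (j + M)‖ * ‖t‖ ^ (j + M) ≤ b ^ (j + M + 1) * ‖t‖ ^ (j + M) :=
          mul_le_mul_of_nonneg_right (hc _) (by positivity)
      _ = (b ^ (M + 1) * ‖t‖ ^ M) * (b * ‖t‖) ^ j := by rw [mul_pow]; ring)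
  refine h3.trans ?_
  have h4 : (1 - b * ‖t‖)⁻¹ ≤ 2 := by
    rw [inv_le_comm₀ (by linarith) (by norm_num)]
    linarith
  calc b ^ (M + 1) * ‖t‖ ^ M * (1 - b * ‖t‖)⁻¹ ≤ b ^ (M + 1) * ‖t‖ ^ M * 2 :=
        mul_le_mul_of_nonneg_left h4 (by positivity)
    _ = 2 * b ^ (M + 1) * ‖t‖ ^ M := by ring

private theorem small_T {b q e : ℕ} {t : ℂ} {x : ℤ} (hq : 1 ≤ q)
    (hpar : ((q : ℂ) * t) ^ e * (x : ℂ) = 1) (hx : ((b : ℝ) + 2) ^ (2 * e) < |(x : ℝ)|) :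
    (b : ℝ) * ‖t‖ ≤ 1 / 2 := by
  have h1 : ((q : ℝ) * ‖t‖) ^ e * |(x : ℝ)| = 1 := by
    have h2 := congrArg norm hpar
    rw [norm_mul, norm_pow, norm_mul, Complex.norm_natCast, Complex.norm_intCast, norm_one] at h2
    exact h2
  have hq1 : (1 : ℝ) ≤ q := by exact_mod_cast hq
  have hb0 : (0 : ℝ) ≤ b := Nat.cast_nonneg _
  have h3 : ‖t‖ ^ e * |(x : ℝ)| ≤ 1 := by
    rw [← h1]
    refine mul_le_mul_of_nonneg_right ?_ (abs_nonneg _)
    refine pow_le_pow_left₀ (norm_nonneg _) ?_ _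
    nlinarith [norm_nonneg t]
  by_contra hcon
  have h4 : 1 < 2 * ((b : ℝ) * ‖t‖) := by linarith [not_le.1 hcon]
  have h5 : 1 ≤ (2 * ((b : ℝ) * ‖t‖)) ^ e := one_le_pow₀ h4.le
  have h6 : (2 * ((b : ℝ) * ‖t‖)) ^ e = (2 * (b : ℝ)) ^ e * ‖t‖ ^ e := by rw [← mul_pow]; ring_nf
  have h7 : (2 * (b : ℝ)) ^ e ≤ ((b : ℝ) + 2) ^ (2 * e) := by
    rw [pow_mul]
    refine pow_le_pow_left₀ (by positivity) ?_ _
    nlinarith
  have ht : 0 < ‖t‖ := by
    rcases (norm_nonneg t).lt_or_eq with h | h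
    · exact h
    · rw [← h] at h4
      linarith
  have h8 : (2 * (b : ℝ)) ^ e * ‖t‖ ^ e < 1 := by
    calc (2 * (b : ℝ)) ^ e * ‖t‖ ^ e ≤ ((b : ℝ) + 2) ^ (2 * e) * ‖t‖ ^ e :=
          mul_le_mul_of_nonneg_right h7 (by positivity)
      _ < |(x : ℝ)| * ‖t‖ ^ e := mul_lt_mul_of_pos_right hx (by positivity)
      _ = ‖t‖ ^ e * |(x : ℝ)| := mul_comm _ _
      _ ≤ 1 := h3
  rw [h6] at h5
  linarith

/-- the class of a sequence as a ring homomorphism -/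
private noncomputable def clh (A : Type) [CommRing A] : (ℕ → A) →+* Ult A where
  toFun := cl
  map_one' := rfl
  map_zero' := rfl
  map_mul' := fun _ _ => rfl
  map_add' := fun _ _ => rfl

private theorem cl_form (M : ℕ) (c : ℕ → ℕ → AA) (r T : ℕ → AA) :
    (∑ a ∈ Finset.range M, (cl (c a) : AS) * (cl T) ^ a) + cl r * (cl T) ^ M =
      cl (fun N => (∑ a ∈ Finset.range M, c a N * T N ^ a) + r N * T N ^ M) := by
  have h := map_add (clh AA) (∑ a ∈ Finset.range M, c a * T ^ a) (r * T ^ M)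
  rw [map_sum, map_mul, map_pow] at h
  have h2 : (∑ a ∈ Finset.range M, (clh AA) (c a * T ^ a)) = ∑ a ∈ Finset.range M, (cl (c a) : AS) * (cl T) ^ a :=
    Finset.sum_congr rfl fun a _ => by rw [map_mul, map_pow]; rfl
  rw [h2] at h
  refine h.symm.trans ?_
  change cl _ = cl _
  congr 1
  funext N
  simp only [Pi.add_apply, Finset.sum_apply, Pi.mul_apply, Pi.pow_apply]

theorem brx {H : ℕ → ℕ} {d e : ℕ} {x y : ℕ → ℤ} {q : ℕ → ℕ} {T : ℕ → AA} {ξ : ℕ → PowerSeries AA}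
    (hB : ∀ᶠ N in UU, Br d e (H N) (x N) (y N) (q N) (T N) (ξ N))
    (hx : (cl (fun N => (x N : ℚ)) : QS) ∉ V0 H) :
    ∃ pz : PowerSeries (algebraicClosure (Q0 H) AS),
      (∀ m, ((PowerSeries.coeff m pz : algebraicClosure (Q0 H) AS) : AS) =
        cl (fun N => PowerSeries.coeff m (ξ N))) ∧
      Apx ((algebraicClosure (Q0 H) AS).val : algebraicClosure (Q0 H) AS →+* AS) (VA H) (cl T)
        (algebraMap QS AS (cl (fun N => (y N : ℚ)) / cl (fun N => (x N : ℚ)))) pz := by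
  obtain ⟨pz, hpz⟩ : ∃ pz : PowerSeries (algebraicClosure (Q0 H) AS),
      ∀ m, ((PowerSeries.coeff m pz : algebraicClosure (Q0 H) AS) : AS) = cl (fun N => PowerSeries.coeff m (ξ N)) := by
    refine ⟨PowerSeries.mk fun m => ⟨cl (fun N => PowerSeries.coeff m (ξ N)),
      mem_algebraicClosure_iff.2 (alc hB m)⟩, fun m => ?_⟩
    rw [PowerSeries.coeff_mk]
  refine ⟨pz, hpz, ?_⟩
  intro M
  have hbig := big hx (2 * e)
  refine ⟨cl (fun N => ((y N : AA) / (x N : AA) - ∑ a ∈ Finset.range M, PowerSeries.coeff a (ξ N) * T N ^ a) / T N ^ M),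
    ⟨_, M + 2, rfl, ?_⟩, ?_⟩
  · filter_upwards [hB, hbig] with N hN hN2
    have hpar : ((q N : ℂ) * (T N : ℂ)) ^ e * (x N : ℂ) = 1 := by
      have h1 := congrArg (algebraMap AA ℂ) hN.par
      rw [map_mul, map_pow, map_mul, map_natCast, map_intCast, map_one] at h1
      exact h1
    have hT0 : (T N : ℂ) ≠ 0 := by
      intro h1
      rw [h1, mul_zero, zero_pow (by have := hN.e1; omega), zero_mul] at hpar
      exact zero_ne_one hpar
    have hbt := small_T hN.q1 hpar hN2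
    have h2 := tail (Nat.cast_nonneg _) hbt hN.sum hN.grow M
    have h3 : ((((y N : AA) / (x N : AA) - ∑ a ∈ Finset.range M, PowerSeries.coeff a (ξ N) * T N ^ a) / T N ^ M : AA) : ℂ) =
        ((y N : ℂ) / (x N : ℂ) - ∑ m ∈ Finset.range M, ((PowerSeries.coeff m (ξ N) : AA) : ℂ) * (T N : ℂ) ^ m) / (T N : ℂ) ^ M := by
      have h4 : ∀ z : AA, (z : ℂ) = algebraMap AA ℂ z := fun _ => rfl
      simp only [h4, map_div₀, map_sub, map_sum, map_mul, map_pow, map_intCast]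
    rw [h3, norm_div, norm_pow]
    have h5 : 0 < ‖(T N : ℂ)‖ ^ M := pow_pos (norm_pos_iff.2 hT0) _
    rw [div_le_iff₀ h5]
    refine h2.trans ?_
    refine mul_le_mul_of_nonneg_right ?_ h5.le
    have h6 : (0 : ℝ) ≤ (H N : ℝ) := Nat.cast_nonneg _
    calc 2 * (H N : ℝ) ^ (M + 1) ≤ ((H N : ℝ) + 2) * ((H N : ℝ) + 2) ^ (M + 1) := by
          refine mul_le_mul (by linarith) (pow_le_pow_left₀ h6 (by linarith) _) (by positivity) (by positivity)
      _ = ((H N : ℝ) + 2) ^ (M + 2) := by ring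
  · have h1 : (cl (fun N => (y N : ℚ)) / cl (fun N => (x N : ℚ)) : QS) = cl (fun N => (y N : ℚ) / (x N : ℚ)) := by
      rw [div_eq_mul_inv, cl_inv, cl_mul]
      congr 1
    rw [h1, map_cl]
    have h2 : ∀ a, ((algebraicClosure (Q0 H) AS).val : algebraicClosure (Q0 H) AS →+* AS) (PowerSeries.coeff a pz) =
        cl (fun N => PowerSeries.coeff a (ξ N)) := fun a => hpz a
    simp only [h2]
    rw [cl_form, cl_eq]
    filter_upwards [hB] with N hN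
    have hT0 : T N ≠ 0 := by
      intro h1
      have hpar := hN.par
      rw [h1, mul_zero, zero_pow (by have := hN.e1; omega), zero_mul] at hpar
      exact zero_ne_one hpar
    rw [map_div₀, map_intCast, map_intCast, div_mul_cancel₀ _ (pow_ne_zero _ hT0)]
    ring

end Pool.Agent.H85.LK
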