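import Pool.Agent.H85.LK.Brc
import Pool.Agent.H85.LK.Inr
import Pool.Agent.H8.AF.Fin
import Pool.Agent.H12.ON.Nd

/-! # [H85 LK EX1] One exceptional point of a curve with irreducible leading form

`K = Subfield.closure {θ}`, `k = ↥K` (number field of degree `n`, `inr_nf`). `redS k … F (inr_irr) … (inr)` gives `d, b, F', a, Q`, `b ≤ H^(cR n)`, and `ev d F' (y + x^(n+1)) (a x) = 0`. With `E = cF n` (H8/AF/Fin.lean) the proof of `all_curves` (H8/AF/Fin.lean) shows, for `m = max(|x|,|y|) > H^(cF n)`: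
`b^(cA (n(n+1))) ≤ |y + x^(n+1)|`, `m ≤ |y + x^(n+1)|^(2n+3)`, `|y + x^(n+1)| ≤ m^(2n+3)` (`size_up`, `size_low`; copy these 30 lines). Then `br_crv` for `Q` (`cA_ge`: `4 N! ≤ cA N`). `b ≤ H^(cR n)`: `Br d e b …` implies `Br d e (H^(cR n)) …` (the bounds are monotone in `b`: `qb`, `grow`, `int`; `b ≥ 1`). `d ≤ n(n+1)` is `Q.dn`. -/

namespace Pool.Agent.H85.LK

open MvPolynomial Pool.Agent.H87.SA2 Pool.Agent.H34.AC Pool.Agent.H8.AS Pool.Agent.H12.ON Pool.Agent.H52.AC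

private theorem br_mono {d e b b' : ℕ} {x y : ℤ} {q : ℕ} {T : AA} {ξ : PowerSeries AA} (hb : b ≤ b')
    (h : Br d e b x y q T ξ) : Br d e b' x y q T ξ where
  q1 := h.q1
  qb := h.qb.trans hb
  e1 := h.e1
  par := h.par
  sum := h.sum
  grow := fun m => (h.grow m).trans (pow_le_pow_left₀ (Nat.cast_nonneg _) (by exact_mod_cast hb) _)
  int := by
    intro m
    obtain ⟨p, h1, h2, h3, h4⟩ := h.int m
    refine ⟨p, h1, h2, fun j => (h3 j).trans ?_, h4⟩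
    have hb' : (b : ℤ) ≤ (b' : ℤ) := by exact_mod_cast hb
    have h5 : (b : ℤ) ^ ((m + 1) * d) ≤ (b' : ℤ) ^ ((m + 1) * d) :=
      pow_le_pow_left₀ (Int.natCast_nonneg _) hb' _
    exact mul_le_mul_of_nonneg_left h5 (by positivity)
  sep := h.sep

theorem ex1 (n : ℕ) (hn : 3 ≤ n) (F : MvPolynomial (Fin 2) ℤ) (H : ℕ) (θ : ℝ) (x y : ℤ)
    (hd : F.totalDegree ≤ n) (hl : Irreducible (map (Int.castRingHom ℚ) (homogeneousComponent n F)))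
    (hH : 2 ≤ H) (hc : ∀ m, |F.coeff m| ≤ (H : ℤ)) (hθ : Polynomial.aeval θ (ftop n F) = 0)
    (h0 : aeval ![x, y] F = (0 : ℤ)) (hbig : (H : ℤ) ^ Pool.Agent.H8.AF.cF n < max |x| |y|) :
    ∃ (τ : ↥(Subfield.closure {θ}) →+* ℝ) (a : ℤ) (d e q : ℕ) (T : AA) (ξ : PowerSeries AA), a ≠ 0 ∧
      |a| ≤ (H : ℤ) ∧ d ≤ n * (n + 1) ∧ e ≤ (n * (n + 1)).factorial ∧
      ExcS ↥(Subfield.closure {θ}) τ (n * (n + 1)) (cA (n * (n + 1))) (y + x ^ (n + 1)) (a * x) ∧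
      max |x| |y| ≤ |y + x ^ (n + 1)| ^ (2 * n + 3) ∧ |y + x ^ (n + 1)| ≤ (max |x| |y|) ^ (2 * n + 3) ∧
      Br d e (H ^ cR n) (y + x ^ (n + 1)) (a * x) q T ξ ∧
      ∀ (σ : AA ≃ₐ[ℚ] AA) (ζ : AA), ζ ^ e = 1 → act σ ζ ξ = ξ →
        ∀ (z : ↥(Subfield.closure {θ})) (b : AA), (b : ℂ) = ((τ z : ℝ) : ℂ) → σ b = b := by
  obtain ⟨hNF, hfr⟩ := inr_nf hn hl hθ
  haveI := hNF
  have hirr := inr_irr hn hd hl
  have hinf := inr hn hd hl hθ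
  have h0' : vl F x y = 0 := by
    have h1 : aeval ![x, y] F = vl F x y := by
      rw [vl, MvPolynomial.aeval_def]
      congr 1
    rw [← h1, h0]
  obtain ⟨d, b, F', a, ⟨Q⟩, hb, ha0, haH, hev⟩ :=
    redS ↥(Subfield.closure {θ}) (by rw [hfr]; omega) n hn F hirr hd H hH hc hinf x y h0'
  obtain ⟨m, hm⟩ : ∃ m, m = max x.natAbs y.natAbs := ⟨_, rfl⟩
  have hmz : max |x| |y| = (m : ℤ) := by
    rw [Int.abs_eq_natAbs, Int.abs_eq_natAbs, hm]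
    push_cast
    rfl
  have hbig' : H ^ Pool.Agent.H8.AF.cF n < m := by
    rw [hmz] at hbig
    exact_mod_cast hbig
  have hN1 : 1 ≤ n * (n + 1) := Nat.mul_pos (by omega) (by omega)
  obtain ⟨hcA1, hcA2⟩ := Pool.Agent.H8.AF.cA_ge hN1
  have hb2 : 2 ≤ b := Q.b2
  have hd4 := Q.d4
  have hHm : b ^ (cA (n * (n + 1)) * (2 * n + 3)) < m := by
    calc b ^ (cA (n * (n + 1)) * (2 * n + 3)) ≤ (H ^ cR n) ^ (cA (n * (n + 1)) * (2 * n + 3)) :=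
          Nat.pow_le_pow_left hb _
      _ = H ^ Pool.Agent.H8.AF.cF n := by rw [← pow_mul, Pool.Agent.H8.AF.cF, mul_assoc]
      _ < m := hbig'
  have hxm : |x| ≤ (m : ℤ) := by
    rw [← hmz]; exact le_max_left _ _
  have hym : |y| ≤ (m : ℤ) := by
    rw [← hmz]; exact le_max_right _ _
  have hkey : ∀ V : ℤ, (b : ℤ) ^ (2 * (n * (n + 1)) + 1) ≤ V → |y + x ^ (n + 1)| ≤ V →
      (m : ℤ) ≤ V ^ (2 * n + 3) := by
    intro V hV hu
    obtain ⟨h1, h2⟩ := Pool.Agent.H8.AF.size_up (by omega) Q.dn hb2 Q.lead Q.le ha0 hV hu (hev x y h0')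
    rw [← hmz]
    exact max_le h1 h2
  have hbc : (b : ℤ) ^ (2 * (n * (n + 1)) + 1) ≤ (b : ℤ) ^ cA (n * (n + 1)) :=
    pow_le_pow_right₀ (by exact_mod_cast (by omega : 1 ≤ b)) hcA1
  have hu : (b : ℤ) ^ cA (n * (n + 1)) ≤ |y + x ^ (n + 1)| := by
    by_contra hc'
    push Not at hc'
    have h1 := hkey _ hbc hc'.le
    rw [← pow_mul] at h1
    have h2 : m ≤ b ^ (cA (n * (n + 1)) * (2 * n + 3)) := by exact_mod_cast h1
    omega
  have hup : (m : ℤ) ≤ |y + x ^ (n + 1)| ^ (2 * n + 3) := hkey _ (hbc.trans hu) le_rfl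
  have hm2 : (2 : ℤ) ≤ m := by
    have : 1 ≤ b ^ (cA (n * (n + 1)) * (2 * n + 3)) := Nat.one_le_pow _ _ (by omega)
    exact_mod_cast (by omega : 2 ≤ m)
  have hlow := Pool.Agent.H8.AF.size_low (n := n) hm2 hxm hym
  have huR : (b : ℝ) ^ cA (n * (n + 1)) ≤ |((y + x ^ (n + 1) : ℤ) : ℝ)| := by
    have : ((b : ℤ) ^ cA (n * (n + 1)) : ℤ) ≤ |y + x ^ (n + 1)| := hu
    exact_mod_cast this
  obtain ⟨τ, e, q, T, ξ, h1, h2, h3, h4⟩ := br_crv Q hcA2 (hev x y h0') huR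
  exact ⟨τ, a, d, e, q, T, ξ, ha0, haH, Q.dn, h2, h1, by rw [hmz]; exact hup, by rw [hmz]; exact hlow,
    br_mono hb h3, h4⟩

end Pool.Agent.H85.LK
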