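import Pool.Agent.H85.LK.Def

/-! # [H85 LK FAM] Families of automorphisms act on the ultrapower

`fam σ (cl f) = cl (fun N => σ N (f N))`. An automorphism of `AA` over `ℚ` fixes `ℚ`, so `fam σ` fixes the image of `QS`. `famk` = its restriction to the elements which are algebraic over `Q0 H` (`IsAlgebraic.algHom` or `map`): a `Q0 H`-algebra homomorphism. -/

namespace Pool.Agent.H85.LK

open Pool.Agent.H82.NS Pool.Agent.H87.SA2 Filter

/-- the action of a family of automorphisms on the ultrapower -/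
noncomputable def fam (σ : ℕ → (AA ≃ₐ[ℚ] AA)) : AS →+* AS where
  toFun := Quotient.map' (fun f N => σ N (f N)) (by
    intro f g h
    filter_upwards [h] with N hN
    rw [hN])
  map_one' := by
    change cl (fun N => σ N 1) = cl (fun _ => (1 : AA))
    congr 1
    funext N
    exact map_one _
  map_zero' := by
    change cl (fun N => σ N 0) = cl (fun _ => (0 : AA))
    congr 1
    funext N
    exact map_zero _
  map_mul' := by
    intro a b
    obtain ⟨a, rfl⟩ := cl_surj a
    obtain ⟨b, rfl⟩ := cl_surj b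
    change cl (fun N => σ N (a N * b N)) = cl (fun N => σ N (a N) * σ N (b N))
    congr 1
    funext N
    exact map_mul _ _ _
  map_add' := by
    intro a b
    obtain ⟨a, rfl⟩ := cl_surj a
    obtain ⟨b, rfl⟩ := cl_surj b
    change cl (fun N => σ N (a N + b N)) = cl (fun N => σ N (a N) + σ N (b N))
    congr 1
    funext N
    exact map_add _ _ _

theorem fam_cl (σ : ℕ → (AA ≃ₐ[ℚ] AA)) (f : ℕ → AA) : fam σ (cl f) = cl (fun N => σ N (f N)) := rfl

theorem fam_qs (σ : ℕ → (AA ≃ₐ[ℚ] AA)) (z : QS) : fam σ (algebraMap QS AS z) = algebraMap QS AS z := by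
  obtain ⟨a, rfl⟩ := cl_surj z
  rw [map_cl, fam_cl]
  congr 1
  funext N
  exact (σ N).commutes (a N)

theorem exists_famk (H : ℕ → ℕ) (σ : ℕ → (AA ≃ₐ[ℚ] AA)) :
    ∃ s : algebraicClosure (Q0 H) AS →ₐ[Q0 H] algebraicClosure (Q0 H) AS,
      ∀ c, ((s c : algebraicClosure (Q0 H) AS) : AS) = fam σ (c : AS) := by
  have h1 : ∀ r : Q0 H, fam σ (algebraMap (Q0 H) AS r) = algebraMap (Q0 H) AS r := fun r =>
    fam_qs σ ((r : Q0 H) : QS)
  obtain ⟨f, hf⟩ : ∃ f : AS →ₐ[Q0 H] AS, ∀ c, f c = fam σ c :=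
    ⟨{ fam σ with commutes' := h1 }, fun c => rfl⟩
  have h2 : ∀ c : algebraicClosure (Q0 H) AS, f (c : AS) ∈ algebraicClosure (Q0 H) AS := fun c =>
    mem_algebraicClosure_iff.2 (IsAlgebraic.algHom f (mem_algebraicClosure_iff.1 c.2))
  refine ⟨(f.comp (algebraicClosure (Q0 H) AS).val).codRestrict (algebraicClosure (Q0 H) AS).toSubalgebra h2, ?_⟩
  intro c
  rw [← hf]
  rfl

end Pool.Agent.H85.LK
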