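import Pool.Agent.H85.LK.Abs
import Pool.Agent.H85.LK.Brx
import Pool.Agent.H85.LK.Fam

/-! # [H85 LK LNK] THE LINK THEOREM

`L = Q0 H (x, y) ⊆ QS`, the point `(x,y)` on the branch `ξ`; `a` = a sequence of algebraic numbers, `cl a` algebraic over `Q0 H`, such that every element of `L ∩ V0 H` is congruent to an element of `Q0 H [cl a]` modulo the maximal ideal of `VA H`. Then almost always every automorphism of `AA` which
fixes `a N` maps the branch `ξ N` to a rotation of itself.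
PROOF. If not (`UU` is an ultrafilter) almost always there is `σ N` with `σ N (a N) = a N` and `∀ ζ, ζ^e = 1 → act (σ N) ζ (ξ N) ≠ ξ N`; for the other `N` let `σ N = 1`. Then `fam σ (cl a) = cl a`. Let `kk = algebraicClosure (Q0 H) AS`, `s` from `exists_famk`, `pz` from `brx`.
Apply `lnk_abs` with `k = Q0 H`, `L`, `Ω = AS`, `V = VA H`, `ι = kk.val` (`hι` = `va_alg`), `x = X`, `z = Y/X` (`adjoin {X⁻¹, Y/X} = adjoin {X, Y} = ⊤`, `X ≠ 0`), `T = cl T`, `q` = the class of `q N` in `Q0 H` (`1 ≤ q N ≤ H N` almost always; change `q N` to `1` elsewhere), `hpar` from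
`Br.par`; `hσ`: for `a' ∈ L ∩ V`, `va_qs` and `hres` give `A`; `c = A(cl a)` is algebraic over `Q0 H` and fixed by `fam σ` (`A` has coefficients in `Q0 H`, `fam_qs`). Result: `ζ^e = 1`, `fam σ (cl (coeff m ξ)) = ζ^m cl (coeff m ξ)` for all `m`. `ζ = cl ζ_N`; almost always `ζ_N^e = 1` and
`σ_N (coeff m ξ_N) = ζ_N^m coeff m ξ_N` for all `m ≤ 2 d d e` (finitely many conditions). So `Br.sep` with `ζ_N⁻¹` gives `act σ_N ζ_N⁻¹ ξ_N = ξ_N`, `(ζ_N⁻¹)^e = 1`: contradiction. -/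

namespace Pool.Agent.H85.LK

open Pool.Agent.H82.NS Pool.Agent.H87.SA2 Pool.Agent.H34.AC Pool.Agent.H12.ON Filter

private theorem lk_pow {R : Type} [CommRing R] (f : ℕ → R) (n : ℕ) :
    (cl f) ^ n = cl (fun N => f N ^ n) := by
  induction n with
  | zero =>
    rw [pow_zero]
    change cl (fun _ => (1 : R)) = _
    congr 1
    funext N
    rw [pow_zero]
  | succ n ih =>
    rw [pow_succ, ih, cl_mul]
    congr 1
    funext N
    rw [pow_succ]

/-- the class of a bounded sequence of positive integers is in `Q0 H` -/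
private theorem lk_q {H q : ℕ → ℕ} (hq : ∀ᶠ N in UU, q N ≤ H N) :
    (cl (fun N => (q N : ℚ)) : QS) ∈ Q0 H := by
  classical
  refine ⟨fun N => if q N ≤ H N then (q N : ℚ) else 0, ⟨1, fun N => ?_⟩, ?_⟩
  · dsimp only
    split_ifs with h
    · rw [Rat.num_natCast, Int.natAbs_natCast, Rat.den_natCast, pow_one]
      omega
    · simp
  · rw [cl_eq]
    filter_upwards [hq] with N hN
    rw [if_pos hN]

theorem lk {H : ℕ → ℕ} {d e : ℕ} {x y : ℕ → ℤ} {q : ℕ → ℕ} {T : ℕ → AA} {ξ : ℕ → PowerSeries AA}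
    (hB : ∀ᶠ N in UU, Br d e (H N) (x N) (y N) (q N) (T N) (ξ N))
    {L : IntermediateField (Q0 H) QS} {X Y : L} (hX : (X : QS) = cl (fun N => (x N : ℚ)))
    (hY : (Y : QS) = cl (fun N => (y N : ℚ))) (hL : IntermediateField.adjoin (Q0 H) {X, Y} = ⊤)
    (hFF : FF (Q0 H) X) (hXV : (X : QS) ∉ V0 H) {a : ℕ → AA}
    (hres : ∀ z : L, (z : QS) ∈ V0 H → ∃ A : Polynomial (Q0 H),
      algebraMap QS AS (z : QS) - Polynomial.aeval (cl a : AS) A ∈ (VA H).nonunits)
    (ha : IsAlgebraic (Q0 H) (cl a : AS)) :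
    ∀ᶠ N in UU, ∀ σ : AA ≃ₐ[ℚ] AA, σ (a N) = a N → ∃ ζ : AA, ζ ^ e = 1 ∧ act σ ζ (ξ N) = ξ N := by
  classical
  by_contra hcon
  have hcon' : ∀ᶠ N in UU, ¬ ∀ σ : AA ≃ₐ[ℚ] AA, σ (a N) = a N →
      ∃ ζ : AA, ζ ^ e = 1 ∧ act σ ζ (ξ N) = ξ N := Ultrafilter.eventually_not.2 hcon
  -- the family
  have hex : ∀ N, ∃ σ : AA ≃ₐ[ℚ] AA, σ (a N) = a N ∧
      ((¬ ∀ σ : AA ≃ₐ[ℚ] AA, σ (a N) = a N → ∃ ζ : AA, ζ ^ e = 1 ∧ act σ ζ (ξ N) = ξ N) →
        ∀ ζ : AA, ζ ^ e = 1 → act σ ζ (ξ N) ≠ ξ N) := by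
    intro N
    by_cases h : ∀ σ : AA ≃ₐ[ℚ] AA, σ (a N) = a N → ∃ ζ : AA, ζ ^ e = 1 ∧ act σ ζ (ξ N) = ξ N
    · exact ⟨AlgEquiv.refl, rfl, fun h' => absurd h h'⟩
    · have h' := h
      push Not at h'
      obtain ⟨σ, h1, h2⟩ := h'
      exact ⟨σ, h1, fun _ => h2⟩
  choose σ hσa hσb using hex
  have hfa : fam σ (cl a) = cl a := by
    rw [fam_cl]
    congr 1
    funext N
    exact hσa N
  obtain ⟨s, hs⟩ := exists_famk H σ
  have hxV : (cl (fun N => (x N : ℚ)) : QS) ∉ V0 H := by rwa [← hX]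
  obtain ⟨pz, hpz, hApx⟩ := brx hB hxV
  have he : 1 ≤ e := by
    obtain ⟨N, hN⟩ := hB.exists
    exact hN.e1
  -- the constant `q`
  have hq1 : ∀ᶠ N in UU, q N ≤ H N := hB.mono fun N h => h.qb
  obtain ⟨q', hq'⟩ : ∃ q' : Q0 H, (q' : QS) = cl (fun N => (q N : ℚ)) := ⟨⟨_, lk_q hq1⟩, rfl⟩
  have hq0 : q' ≠ 0 := by
    intro h0
    have h1 : (cl (fun N => (q N : ℚ)) : QS) = cl (fun _ => (0 : ℚ)) := by
      rw [← hq', h0]
      rfl
    rw [cl_eq] at h1
    obtain ⟨N, h2, h3⟩ := (h1.and hB).exists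
    have h4 := h3.q1
    have h5 : q N = 0 := by exact_mod_cast h2
    omega
  have hX0 : X ≠ 0 := by
    intro h0
    apply hXV
    rw [h0]
    exact (V0 H).zero_mem
  have hXAS : algebraMap L AS X = cl (fun N => algebraMap ℚ AA (x N : ℚ)) := by
    rw [← map_cl, ← hX]
    rfl
  have hpar : (algebraMap (Q0 H) AS q' * cl T) ^ e * algebraMap L AS X = 1 := by
    have h1 : algebraMap (Q0 H) AS q' = cl (fun N => algebraMap ℚ AA (q N : ℚ)) := by
      rw [← map_cl, ← hq']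
      rfl
    rw [h1, hXAS, cl_mul, lk_pow, cl_mul]
    change _ = cl (fun _ => (1 : AA))
    rw [cl_eq]
    filter_upwards [hB] with N hN
    have h2 := hN.par
    rw [← h2]
    congr 2
  have hadj : IntermediateField.adjoin (Q0 H) {X⁻¹, Y / X} = ⊤ := by
    rw [eq_top_iff, ← hL, IntermediateField.adjoin_le_iff]
    have h1 : X⁻¹ ∈ IntermediateField.adjoin (Q0 H) {X⁻¹, Y / X} :=
      IntermediateField.subset_adjoin _ _ (Set.mem_insert _ _)
    have h2 : Y / X ∈ IntermediateField.adjoin (Q0 H) {X⁻¹, Y / X} :=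
      IntermediateField.subset_adjoin _ _ (Set.mem_insert_of_mem _ (Set.mem_singleton _))
    have h3 : X ∈ IntermediateField.adjoin (Q0 H) {X⁻¹, Y / X} := by
      have := inv_mem h1
      rwa [inv_inv] at this
    have h4 : Y ∈ IntermediateField.adjoin (Q0 H) {X⁻¹, Y / X} := by
      have := mul_mem h2 h3
      rwa [div_mul_cancel₀ _ hX0] at this
    intro w hw
    rcases hw with rfl | hw
    · exact h3
    · rw [Set.mem_singleton_iff] at hw
      rw [hw]
      exact h4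
  have hz : Apx (((algebraicClosure (Q0 H) AS).val : algebraicClosure (Q0 H) AS →ₐ[Q0 H] AS) :
      algebraicClosure (Q0 H) AS →+* AS) (VA H) (cl T) (algebraMap L AS (Y / X)) pz := by
    have h1 : algebraMap L AS (Y / X) =
        algebraMap QS AS (cl (fun N => (y N : ℚ)) / cl (fun N => (x N : ℚ))) := by
      rw [← hX, ← hY]
      rfl
    rw [h1]
    exact hApx
  have hxA : algebraMap L AS X ∉ VA H := by
    have h1 : algebraMap L AS X = algebraMap QS AS (X : QS) := rfl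
    rw [h1, va_qs]
    exact hXV
  have hcl := aq_closed H
  have htow : @IsScalarTower (Q0 H) L AS Algebra.toSMul Algebra.toSMul (instAlgQ0AS H).toSMul :=
    IsScalarTower.of_algebraMap_eq (R := Q0 H) (S := L) (A := AS) fun _ => rfl
  have hca : (cl a : AS) ∈ algebraicClosure (Q0 H) AS := by
    rw [mem_algebraicClosure_iff]
    exact ha
  obtain ⟨ca, hca'⟩ : ∃ ca : algebraicClosure (Q0 H) AS, (ca : AS) = cl a := ⟨⟨_, hca⟩, rfl⟩
  have hsca : s ca = ca := by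
    apply Subtype.ext
    rw [hs, hca', hfa]
  obtain ⟨ζ, hζ, hζm⟩ := lnk_abs (k := Q0 H) (L := L) (Ω := AS) ((algebraicClosure (Q0 H) AS).val)
    (V := VA H) (fun c => va_alg H c) hFF hxA hq0 he hpar hadj hz s (by
      intro a' ha'
      have h1 : ((a' : L) : QS) ∈ V0 H := (va_qs H _).1 ha'
      obtain ⟨A, hA⟩ := hres a' h1
      refine ⟨Polynomial.aeval ca A, ?_, ?_⟩
      · rw [← Polynomial.aeval_algHom_apply, hsca]
      · rw [← Polynomial.aeval_algHom_apply]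
        change algebraMap QS AS (a' : QS) - Polynomial.aeval (ca : AS) A ∈ _
        rw [hca']
        exact hA)
  obtain ⟨z, hz'⟩ := cl_surj (ζ : AS)
  have h1 : ∀ᶠ N in UU, z N ^ e = 1 := by
    have h2 : (ζ : AS) ^ e = 1 := by
      have := congrArg (fun w : algebraicClosure (Q0 H) AS => (w : AS)) hζ
      exact this
    rw [hz', lk_pow] at h2
    exact cl_eq.1 h2
  have h2 : ∀ m, ∀ᶠ N in UU, σ N (PowerSeries.coeff m (ξ N)) = z N ^ m * PowerSeries.coeff m (ξ N) := by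
    intro m
    have h3 := congrArg (fun w : algebraicClosure (Q0 H) AS => (w : AS)) (hζm m)
    change ((s (PowerSeries.coeff m pz) : algebraicClosure (Q0 H) AS) : AS) =
      (ζ : AS) ^ m * ((PowerSeries.coeff m pz : algebraicClosure (Q0 H) AS) : AS) at h3
    rw [hs, hpz, fam_cl, hz', lk_pow, cl_mul] at h3
    exact cl_eq.1 h3
  have h3 : ∀ᶠ N in UU, ∀ m ∈ Finset.range (2 * d * d * e + 1),
      σ N (PowerSeries.coeff m (ξ N)) = z N ^ m * PowerSeries.coeff m (ξ N) := by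
    rw [Filter.eventually_all_finset]
    exact fun m _ => h2 m
  obtain ⟨N, ⟨⟨h4, h5⟩, h6⟩, h7⟩ := (((hcon'.and h1).and h3).and hB).exists
  have hz0 : z N ≠ 0 := by
    intro h0
    rw [h0, zero_pow (by omega)] at h5
    exact zero_ne_one h5
  have h8 : (z N)⁻¹ ^ e = 1 := by rw [inv_pow, h5, inv_one]
  refine hσb N h4 (z N)⁻¹ h8 (h7.sep (σ N) (z N)⁻¹ h8 fun m hm => ?_)
  rw [h6 m (Finset.mem_range.2 (by omega)), inv_pow, inv_mul_cancel_left₀ (pow_ne_zero _ hz0)]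

end Pool.Agent.H85.LK
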