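import Pool.Agent.H52.AC.PRM
import Pool.Agent.H8.AW.Pt

/-! # [H85 LK PDS] Integrality and separation of the Puiseux expansions

* `pd_int`: `p` = the polynomial `∏_l (X - c_l)`, `c_l = coeff m (pd.x l)`. Its coefficients are algebraic integers (`pd.integral`) and fixed by every embedding `σ : AA →+* ℂ` (`perm_gal` permutes the `c_l`), so rational (`galA_mem` with `s = ∅`, H87/SA2/GALA.lean; `adjoin ℚ ∅ = ⊥`) and integers.
`|c_l| ≤ R^(m+1) ≤ b^(m+1)` (`pd.growth`), `1 ≤ b^(m+1)`, so the `j`-th coefficient (elementary symmetric function, `Multiset.prod_X_sub_C_coeff` or `Polynomial.coeff_prod..`; or induction on the number of factors: multiplication by `X - c` with `|c| ≤ B`, `B ≥ 1`, maps polynomials with coefficients `≤ K` to polynomials with coefficients `≤ 2 B K`)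
has absolute value at most `2^d b^((m+1)d)`.
* `pd_sep`: `u f + v f' = c(t)`. Over `ℂ[[T]]` (`pd.split`, `tq`): `f' (x_i) = ∏_{l ≠ i} (x_i - x_l)`, `v(x_i) f'(x_i) = c((qT)^e)`. If all coefficients of `x_i - x_j` up to `M = 2dde` vanish then `X^(M+1)` divides `c((qT)^e)`, a nonzero series (`c ≠ 0`, `q ≥ 1`) of order at most `e · natDegree c ≤ e 2dd` (its coefficient at
`e l`, `l` the smallest exponent in `c` (`Polynomial.natTrailingDegree`), is `c_l q^(e l) ≠ 0`). -/

namespace Pool.Agent.H85.LK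

open Finset Polynomial Pool.Agent.H72.ES Pool.Agent.H87.SA2 Pool.Agent.H8.AW

/-- an algebraic number all of whose conjugates are equal is rational -/
private theorem rat_of (c : AA) (h : ∀ σ : AA →+* ℂ, σ c = (c : ℂ)) : ∃ r : ℚ, (c : ℂ) = r := by
  have hgal : IsGalois ℚ AA := by
    have h0 : IsAlgClosure ℚ AA := algebraicClosure.isAlgClosure ℚ ℂ
    exact IsAlgClosure.isGalois ℚ AA
  have h1 : c ∈ (⊥ : IntermediateField ℚ AA) := by
    rw [InfiniteGalois.mem_bot_iff_fixed]
    intro f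
    apply Subtype.ext
    exact h ((algebraMap AA ℂ).comp (f : AA →+* AA))
  obtain ⟨r, hr⟩ := IntermediateField.mem_bot.1 h1
  refine ⟨r, ?_⟩
  rw [← hr]
  simp

private theorem int_of {c : ℂ} (h : ∃ r : ℚ, c = r) (hi : IsIntegral ℤ c) : ∃ z : ℤ, c = z := by
  obtain ⟨r, hr⟩ := h
  have h1 : IsIntegral ℤ (algebraMap ℚ ℂ r) := by
    rw [hr] at hi
    simpa using hi
  have h2 : IsIntegral ℤ r := (isIntegral_algebraMap_iff (algebraMap ℚ ℂ).injective).1 h1
  obtain ⟨z, hz⟩ := IsIntegrallyClosed.isIntegral_iff.1 h2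
  refine ⟨z, ?_⟩
  rw [hr, ← hz]
  simp

private theorem prod_bound {ι : Type} {B : ℝ} (hB : 1 ≤ B) (c : ι → ℂ) (hc : ∀ l, ‖c l‖ ≤ B)
    (S : Finset ι) : ∀ j, ‖(∏ l ∈ S, (X - C (c l))).coeff j‖ ≤ (2 * B) ^ S.card := by
  classical
  induction S using Finset.induction_on with
  | empty =>
    intro j
    rw [Finset.prod_empty, Finset.card_empty, pow_zero, Polynomial.coeff_one]
    split_ifs <;> simp
  | insert a S ha ih =>
    intro j
    rw [Finset.prod_insert ha, Finset.card_insert_of_notMem ha, sub_mul, Polynomial.coeff_sub,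
      Polynomial.coeff_C_mul, pow_succ]
    have hK : 0 ≤ (2 * B) ^ S.card := by positivity
    have h1 : ‖(X * ∏ l ∈ S, (X - C (c l))).coeff j‖ ≤ (2 * B) ^ S.card := by
      cases j with
      | zero =>
        rw [Polynomial.coeff_X_mul_zero, norm_zero]
        exact hK
      | succ j =>
        rw [Polynomial.coeff_X_mul]
        exact ih j
    have h2 : ‖c a * (∏ l ∈ S, (X - C (c l))).coeff j‖ ≤ B * (2 * B) ^ S.card := by
      rw [norm_mul]
      exact mul_le_mul (hc a) (ih j) (norm_nonneg _) (by linarith)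
    refine (norm_sub_le _ _).trans ?_
    nlinarith

theorem pd_int {f : ℤ[X][X]} {d : ℕ} (pd : PData f d) {b : ℕ} (hR : pd.R ≤ b) (i : Fin d) (m : ℕ) :
    ∃ p : ℤ[X], p.Monic ∧ p.natDegree = d ∧ (∀ j, |p.coeff j| ≤ 2 ^ d * (b : ℤ) ^ ((m + 1) * d)) ∧
      Polynomial.aeval (PowerSeries.coeff m (pd.x i)) p = 0 := by
  classical
  obtain ⟨c, hc⟩ : ∃ c : Fin d → ℂ, ∀ l, c l = PowerSeries.coeff m (pd.x l) :=
    ⟨fun l => PowerSeries.coeff m (pd.x l), fun l => rfl⟩
  obtain ⟨cA, hcA⟩ : ∃ cA : Fin d → AA, ∀ l, (cA l : ℂ) = c l :=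
    ⟨fun l => ⟨PowerSeries.coeff m (pd.x l), Pool.Agent.H52.AC.coeff_mem pd l m⟩, fun l => (hc l).symm⟩
  obtain ⟨cO, hcO⟩ : ∃ cO : Fin d → integralClosure ℤ ℂ, ∀ l, algebraMap (integralClosure ℤ ℂ) ℂ (cO l) = c l :=
    ⟨fun l => ⟨PowerSeries.coeff m (pd.x l), pd.integral l m⟩, fun l => (hc l).symm⟩
  obtain ⟨P, hP⟩ : ∃ P : ℂ[X], P = ∏ l, (X - C (c l)) := ⟨_, rfl⟩
  have hPA : (∏ l, (X - C (cA l)) : Polynomial AA).map (algebraMap AA ℂ) = P := by
    rw [hP, Polynomial.map_prod]
    refine Finset.prod_congr rfl fun l _ => ?_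
    rw [Polynomial.map_sub, Polynomial.map_X, Polynomial.map_C, ← hcA]
    rfl
  have hPO : (∏ l, (X - C (cO l)) : Polynomial (integralClosure ℤ ℂ)).map
      (algebraMap (integralClosure ℤ ℂ) ℂ) = P := by
    rw [hP, Polynomial.map_prod]
    refine Finset.prod_congr rfl fun l _ => ?_
    rw [Polynomial.map_sub, Polynomial.map_X, Polynomial.map_C, hcO]
  have hcoef : ∀ j, ∃ z : ℤ, P.coeff j = z := by
    intro j
    apply int_of
    · have h1 : (((∏ l, (X - C (cA l)) : Polynomial AA).coeff j : AA) : ℂ) = P.coeff j := by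
        rw [← hPA, Polynomial.coeff_map]
        rfl
      rw [← h1]
      apply rat_of
      intro σ
      obtain ⟨π, hπ⟩ := Pool.Agent.H52.AC.perm_gal pd σ
      rw [h1, ← Polynomial.coeff_map]
      congr 1
      rw [hP, Polynomial.map_prod, ← Equiv.prod_comp π (fun l => X - C (c l))]
      refine Finset.prod_congr rfl fun l _ => ?_
      rw [Polynomial.map_sub, Polynomial.map_X, Polynomial.map_C,
        hπ l m (cA l) ((hcA l).trans (hc l)), ← hc]
    · rw [← hPO, Polynomial.coeff_map]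
      exact ((∏ l, (X - C (cO l)) : Polynomial (integralClosure ℤ ℂ)).coeff j).2
  have hlift : P ∈ Polynomial.lifts (Int.castRingHom ℂ) := by
    rw [Polynomial.lifts_iff_coeff_lifts]
    intro j
    obtain ⟨z, hz⟩ := hcoef j
    exact ⟨z, by rw [hz]; simp⟩
  obtain ⟨p, hp⟩ := (Polynomial.mem_lifts P).1 hlift
  have hinj : Function.Injective (Int.castRingHom ℂ) := Int.cast_injective
  have hPm : P.Monic := by
    rw [hP]
    exact Polynomial.monic_prod_of_monic _ _ fun l _ => Polynomial.monic_X_sub_C _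
  have hb1 : (1 : ℝ) ≤ (b : ℝ) := by linarith [pd.R_ge]
  refine ⟨p, ?_, ?_, ?_, ?_⟩
  · apply Polynomial.monic_of_injective hinj
    rw [hp]
    exact hPm
  · rw [← Polynomial.natDegree_map_eq_of_injective hinj, hp, hP,
      Polynomial.natDegree_prod_of_monic _ _ fun l _ => Polynomial.monic_X_sub_C _]
    simp
  · intro j
    have hBb : (1 : ℝ) ≤ (b : ℝ) ^ (m + 1) := one_le_pow₀ hb1
    have h1 := prod_bound hBb c (fun l => by
      rw [hc]
      exact (pd.growth l m).trans (pow_le_pow_left₀ (by linarith [pd.R_ge]) hR _)) Finset.univ j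
    rw [← hP, ← hp, Polynomial.coeff_map, Finset.card_univ, Fintype.card_fin] at h1
    have h2 : ‖(Int.castRingHom ℂ) (p.coeff j)‖ = ((|p.coeff j| : ℤ) : ℝ) := by
      rw [eq_intCast, Complex.norm_intCast, Int.cast_abs]
    rw [h2, mul_pow, ← pow_mul] at h1
    exact_mod_cast h1
  · rw [Polynomial.aeval_def, ← Polynomial.eval_map]
    have h1 : algebraMap ℤ ℂ = Int.castRingHom ℂ := rfl
    rw [h1, hp, hP, Polynomial.eval_prod]
    exact Finset.prod_eq_zero (Finset.mem_univ i) (by rw [hc]; simp)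

theorem pd_sep {f : ℤ[X][X]} {d : ℕ} (pd : PData f d) {u v : ℤ[X][X]} {c : ℤ[X]} (hc : c ≠ 0)
    (hbez : u * f + v * derivative f = C c) (hdeg : c.natDegree ≤ 2 * d * d) {i j : Fin d} (hij : i ≠ j) :
    ∃ m ≤ 2 * d * d * pd.e, PowerSeries.coeff m (pd.x i) ≠ PowerSeries.coeff m (pd.x j) := by
  classical
  by_contra hcon
  push Not at hcon
  obtain ⟨φ, hφ⟩ : ∃ φ : ℤ[X] →+* PowerSeries ℂ, φ = tq pd.e pd.q := ⟨_, rfl⟩
  have hsplit : f.map φ = (X - C (pd.x i)) * ((X - C (pd.x j)) *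
      ∏ l ∈ (Finset.univ.erase i).erase j, (X - C (pd.x l))) := by
    rw [hφ, pd.split, ← Finset.mul_prod_erase Finset.univ _ (Finset.mem_univ i),
      ← Finset.mul_prod_erase (Finset.univ.erase i) _
        (Finset.mem_erase.mpr ⟨fun h => hij h.symm, Finset.mem_univ j⟩)]
  have h1 := congrArg (fun p => (p.map φ).eval (pd.x i)) hbez
  simp only [Polynomial.map_add, Polynomial.map_mul, map_C, eval_add, eval_mul, eval_C,
    ← derivative_map] at h1
  rw [hsplit] at h1
  have h2 : eval (pd.x i) ((X - C (pd.x i)) * ((X - C (pd.x j)) *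
      ∏ l ∈ (Finset.univ.erase i).erase j, (X - C (pd.x l)))) = 0 := by
    rw [eval_mul, eval_sub, eval_X, eval_C, sub_self, zero_mul]
  have h3 : eval (pd.x i) (derivative ((X - C (pd.x i)) * ((X - C (pd.x j)) *
      ∏ l ∈ (Finset.univ.erase i).erase j, (X - C (pd.x l))))) = (pd.x i - pd.x j) *
      eval (pd.x i) (∏ l ∈ (Finset.univ.erase i).erase j, (X - C (pd.x l))) := by
    rw [derivative_mul]
    simp
  rw [h2, h3, mul_zero, zero_add] at h1
  have hdvd : (PowerSeries.X : PowerSeries ℂ) ^ (2 * d * d * pd.e + 1) ∣ φ c := by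
    rw [← h1]
    refine Dvd.dvd.mul_left (Dvd.dvd.mul_right ?_ _) _
    rw [PowerSeries.X_pow_dvd_iff]
    intro m hm
    rw [map_sub, hcon m (by omega), sub_self]
  have hcoef : PowerSeries.coeff (pd.e * c.natTrailingDegree) (φ c) =
      (c.coeff c.natTrailingDegree : ℂ) * (pd.q : ℂ) ^ (pd.e * c.natTrailingDegree) := by
    rw [hφ, tq, coe_eval₂RingHom, Polynomial.eval₂_eq_sum_range, map_sum,
      Finset.sum_eq_single c.natTrailingDegree]
    · have h4 : ((PowerSeries.C (pd.q : ℂ) * PowerSeries.X) ^ pd.e) ^ c.natTrailingDegree =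
          PowerSeries.C ((pd.q : ℂ) ^ (pd.e * c.natTrailingDegree)) *
            PowerSeries.X ^ (pd.e * c.natTrailingDegree) := by
        rw [← pow_mul, mul_pow, map_pow]
      rw [h4, eq_intCast, ← map_intCast (PowerSeries.C (R := ℂ)), PowerSeries.coeff_C_mul,
        PowerSeries.coeff_C_mul, PowerSeries.coeff_X_pow, if_pos rfl, mul_one]
    · intro l _ hl
      have h4 : ((PowerSeries.C (pd.q : ℂ) * PowerSeries.X) ^ pd.e) ^ l =
          PowerSeries.C ((pd.q : ℂ) ^ (pd.e * l)) * PowerSeries.X ^ (pd.e * l) := by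
        rw [← pow_mul, mul_pow, map_pow]
      have h5 : pd.e * c.natTrailingDegree ≠ pd.e * l := by
        intro h
        exact hl (Nat.eq_of_mul_eq_mul_left pd.e_pos h).symm
      rw [h4, eq_intCast, ← map_intCast (PowerSeries.C (R := ℂ)), PowerSeries.coeff_C_mul,
        PowerSeries.coeff_C_mul, PowerSeries.coeff_X_pow, if_neg h5, mul_zero, mul_zero]
    · intro h
      rw [Finset.mem_range] at h
      exact absurd (Nat.lt_succ_of_le (Polynomial.natTrailingDegree_le_natDegree c)) h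
  rw [PowerSeries.X_pow_dvd_iff] at hdvd
  have h5 := hdvd (pd.e * c.natTrailingDegree) (by
    have h6 : c.natTrailingDegree ≤ 2 * d * d := (Polynomial.natTrailingDegree_le_natDegree c).trans hdeg
    have h7 : pd.e * c.natTrailingDegree ≤ pd.e * (2 * d * d) := Nat.mul_le_mul_left _ h6
    have h8 : pd.e * (2 * d * d) = 2 * d * d * pd.e := mul_comm _ _
    omega)
  rw [hcoef] at h5
  have hq : (pd.q : ℂ) ≠ 0 := by
    have := pd.q_pos
    exact_mod_cast (by omega : pd.q ≠ 0)
  have ht : c.coeff c.natTrailingDegree ≠ 0 := by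
    have := Polynomial.trailingCoeff_nonzero_iff_nonzero.2 hc
    exact this
  rcases mul_eq_zero.1 h5 with h6 | h6
  · exact ht (by exact_mod_cast h6)
  · exact pow_ne_zero _ hq h6

end Pool.Agent.H85.LK
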