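import Pool.Agent.H85.LK.Def
import Pool.Agent.H85.LK.Nwt

/-! # [H85 LK UNQ] Two expansions of a place with the same residue map and the same `t` differ by a rotation

`f₁ f₂ : O → kk[[X]]` (`Ser`), `f_i(t) = c X^e`, `t = π^(e₁) · unit`, same constant coefficient at `g`.
(0) For `A ∈ k[X]` and `a ∈ O`: `f_i(A(a)) = A(f_i(a))` (`base`). So the constant coefficients of `f₁(a)`, `f₂(a)` agree for ALL `a ∈ O` (`hres`, `loc`). Units of `O` go to units (constant coefficient `≠ 0`).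
(1) `f_i(t) ≠ 0` and `t = π^(e₁) u`, `u = t/π^(e₁)` a unit of `O`, so `f_i(π) ≠ 0`, `f_i(π) = X^(c') w_i` with `w_i(0) ≠ 0`, `e = c' e₁` (the same `c'` for `i = 1, 2`), `c' ≥ 1`, `c = f_i(u) w_i^(e₁)`; constant coefficients: `w₁(0)^(e₁) = w₂(0)^(e₁)`.
Let `ω = w₂(0)/w₁(0)`, `ζ^(c') = ω` (`kk` algebraically closed, `IsAlgClosed.exists_pow_nat_eq`), `ζ^e = ω^(e₁) = 1`. Replace `f₁` by `rescale ζ ∘ f₁` (again `Ser`, `rescale ζ (c X^e) = c X^e`): now `w₁(0) = w₂(0)`; to show `f₁ = f₂`.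
(2) For each `N` there is `g' ∈ O`, `g' - g ∈ m`, with `X^N ∣ f₁(g') - f₂(g')`: `nwt`: `P(g') = π^N a`; `X ∣ f_i(π)`, so `X^N ∣ P(f_i(g'))`; `f₁(g')`, `f₂(g')` have the same constant coefficient `α`, `P(α) = 0`, `P'(α) ≠ 0`, and
`P(b₁) - P(b₂) = (b₁ - b₂)(P'(α) + (element without constant coefficient))` for `b_i ≡ α mod X`.
(3) CLAIM: `X^M ∣ f₁(a) - f₂(a)` for all `a ∈ O`, by induction on `M`. `M = 0` trivial, `M = 1`: (0). Step `M → M+1` (`M ≥ 1`): from `f₁(u) w₁^(e₁) = c = f₂(u) w₂^(e₁)` and `X^M ∣ f₁(u) - f₂(u)`: `X^M ∣ w₁^(e₁) - w₂^(e₁) = (w₁ - w₂) · S`, `S(0) = e₁ w₁(0)^(e₁ - 1) ≠ 0` (characteristic zero), so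
`X^M ∣ w₁ - w₂`, `X^(c'+M) ∣ f₁(π) - f₂(π)`. Let `a ∈ O`, `a - A(g) ∈ m` (`hres`), `g'` as in (2) for `N = M+1`: `a - A(g') ∈ m` (since `A(g') - A(g) ∈ m`), `a = A(g') + π a'`, `a' ∈ O` (`huni`), and
`f₁(a) - f₂(a) = (A(f₁ g') - A(f₂ g')) + (f₁(π) - f₂(π)) f₁(a') + f₂(π) (f₁(a') - f₂(a'))`, every term divisible by `X^(M+1)`. -/

namespace Pool.Agent.H85.LK

open Polynomial in
private theorem cc_eval₂ {k kk : Type} [Field k] [Field kk] [Algebra k kk] (A : k[X]) (b : PowerSeries kk) :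
    PowerSeries.constantCoeff (A.eval₂ ((PowerSeries.C).comp (algebraMap k kk)) b) =
      A.eval₂ (algebraMap k kk) (PowerSeries.constantCoeff b) := by
  rw [Polynomial.hom_eval₂]
  congr 1

private theorem unit_of_cc {kk : Type} [Field kk] {p : PowerSeries kk}
    (h : PowerSeries.constantCoeff p ≠ 0) : IsUnit p := by
  rw [PowerSeries.isUnit_iff_constantCoeff]
  exact isUnit_iff_ne_zero.2 h

open Polynomial in
/-- the normalized case -/
private theorem core {k kk R : Type} [Field k] [Field kk] [CharZero kk] [Algebra k kk] [CommRing R]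
    (jk : k →+* R) (m : Ideal R) {π : R} (hm : ∀ a ∈ m, π ∣ a) (hπm : π ∈ m) {P : k[X]} {g : R}
    (hN : ∀ N : ℕ, ∃ g' : R, g' - g ∈ m ∧ π ^ N ∣ P.eval₂ jk g')
    (hres : ∀ a : R, ∃ A : k[X], a - A.eval₂ jk g ∈ m) {f₁ f₂ : R →+* PowerSeries kk}
    (b₁ : f₁.comp jk = (PowerSeries.C).comp (algebraMap k kk))
    (b₂ : f₂.comp jk = (PowerSeries.C).comp (algebraMap k kk))
    (l₁ : ∀ a ∈ m, PowerSeries.constantCoeff (f₁ a) = 0)
    (l₂ : ∀ a ∈ m, PowerSeries.constantCoeff (f₂ a) = 0)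
    (hgg : PowerSeries.constantCoeff (f₁ g) = PowerSeries.constantCoeff (f₂ g))
    (hder : P.derivative.eval₂ (algebraMap k kk) (PowerSeries.constantCoeff (f₁ g)) ≠ 0)
    {u : R} (hu1 : IsUnit (f₁ u)) {e₁ c' : ℕ} (he₁ : 1 ≤ e₁) (hc' : 1 ≤ c') {w₁ w₂ : PowerSeries kk}
    (p₁ : f₁ π = PowerSeries.X ^ c' * w₁) (p₂ : f₂ π = PowerSeries.X ^ c' * w₂)
    (hw : PowerSeries.constantCoeff w₁ = PowerSeries.constantCoeff w₂)
    (hw0 : PowerSeries.constantCoeff w₁ ≠ 0) (hu : f₁ u * w₁ ^ e₁ = f₂ u * w₂ ^ e₁) (a : R) :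
    f₁ a = f₂ a := by
  set ιk : k →+* PowerSeries kk := (PowerSeries.C).comp (algebraMap k kk) with hιk
  have fe₁ : ∀ (A : k[X]) (x : R), f₁ (A.eval₂ jk x) = A.eval₂ ιk (f₁ x) := by
    intro A x; rw [Polynomial.hom_eval₂, b₁]
  have fe₂ : ∀ (A : k[X]) (x : R), f₂ (A.eval₂ jk x) = A.eval₂ ιk (f₂ x) := by
    intro A x; rw [Polynomial.hom_eval₂, b₂]
  have hsub : ∀ {S : Type} [CommRing S] (i : k →+* S) (A : k[X]) (x y : S),
      x - y ∣ A.eval₂ i x - A.eval₂ i y := by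
    intro S _ i A x y
    rw [← Polynomial.eval_map, ← Polynomial.eval_map]
    exact Polynomial.sub_dvd_eval_sub x y _
  -- (0)
  have h0 : ∀ a : R, PowerSeries.constantCoeff (f₁ a) = PowerSeries.constantCoeff (f₂ a) := by
    intro a
    obtain ⟨A, hA⟩ := hres a
    have h1 := l₁ _ hA
    have h2 := l₂ _ hA
    rw [map_sub, map_sub, sub_eq_zero, fe₁, cc_eval₂] at h1
    rw [map_sub, map_sub, sub_eq_zero, fe₂, cc_eval₂] at h2
    rw [h1, h2, hgg]
  -- (2)
  have h2 : ∀ N : ℕ, ∃ g' : R, g' - g ∈ m ∧ (PowerSeries.X : PowerSeries kk) ^ N ∣ f₁ g' - f₂ g' := by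
    intro N
    obtain ⟨g', hg', hd⟩ := hN N
    refine ⟨g', hg', ?_⟩
    have hX1 : (PowerSeries.X : PowerSeries kk) ∣ f₁ π := by
      rw [PowerSeries.X_dvd_iff]; exact l₁ π hπm
    have hX2 : (PowerSeries.X : PowerSeries kk) ∣ f₂ π := by
      rw [PowerSeries.X_dvd_iff]; exact l₂ π hπm
    have d1 : (PowerSeries.X : PowerSeries kk) ^ N ∣ P.eval₂ ιk (f₁ g') := by
      rw [← fe₁]
      refine (pow_dvd_pow_of_dvd hX1 N).trans ?_
      rw [← map_pow]
      exact map_dvd f₁ hd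
    have d2 : (PowerSeries.X : PowerSeries kk) ^ N ∣ P.eval₂ ιk (f₂ g') := by
      rw [← fe₂]
      refine (pow_dvd_pow_of_dvd hX2 N).trans ?_
      rw [← map_pow]
      exact map_dvd f₂ hd
    obtain ⟨K, hK⟩ := Polynomial.binomExpansion (P.map ιk) (f₂ g') (f₁ g' - f₂ g')
    rw [add_sub_cancel, Polynomial.eval_map, Polynomial.eval_map, Polynomial.derivative_map,
      Polynomial.eval_map] at hK
    have h3 : (f₁ g' - f₂ g') * (P.derivative.eval₂ ιk (f₂ g') + K * (f₁ g' - f₂ g')) =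
        P.eval₂ ιk (f₁ g') - P.eval₂ ιk (f₂ g') := by
      rw [hK]; ring
    have h4 : IsUnit (P.derivative.eval₂ ιk (f₂ g') + K * (f₁ g' - f₂ g')) := by
      apply unit_of_cc
      have h5 : PowerSeries.constantCoeff (f₂ g') = PowerSeries.constantCoeff (f₁ g) := by
        have h6 := l₂ _ hg'
        rw [map_sub, map_sub, sub_eq_zero] at h6
        rw [h6, hgg]
      rw [map_add, map_mul, map_sub, h0 g', sub_self, mul_zero, add_zero, hιk, cc_eval₂, h5]
      exact hder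
    have h7 : (PowerSeries.X : PowerSeries kk) ^ N ∣
        (f₁ g' - f₂ g') * (P.derivative.eval₂ ιk (f₂ g') + K * (f₁ g' - f₂ g')) := by
      rw [h3]; exact dvd_sub d1 d2
    exact (h4.dvd_mul_right).1 h7
  -- (3)
  have claim : ∀ M : ℕ, ∀ a : R, (PowerSeries.X : PowerSeries kk) ^ M ∣ f₁ a - f₂ a := by
    intro M
    induction M with
    | zero => intro a; rw [pow_zero]; exact one_dvd _
    | succ M ih =>
      by_cases hM : M = 0
      · subst hM
        intro a
        rw [zero_add, pow_one, PowerSeries.X_dvd_iff, map_sub, h0 a, sub_self]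
      · have hM1 : 1 ≤ M := Nat.one_le_iff_ne_zero.2 hM
        -- the difference of the `w`
        have hw' : (PowerSeries.X : PowerSeries kk) ^ M ∣ w₁ - w₂ := by
          have h3 : f₁ u * (w₁ ^ e₁ - w₂ ^ e₁) = - ((f₁ u - f₂ u) * w₂ ^ e₁) := by
            linear_combination hu
          have h4 : (PowerSeries.X : PowerSeries kk) ^ M ∣ f₁ u * (w₁ ^ e₁ - w₂ ^ e₁) := by
            rw [h3]
            exact (dvd_neg).2 (Dvd.dvd.mul_right (ih u) _)
          have h5 : (PowerSeries.X : PowerSeries kk) ^ M ∣ w₁ ^ e₁ - w₂ ^ e₁ :=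
            (hu1.dvd_mul_left).1 h4
          have h6 : w₁ ^ e₁ - w₂ ^ e₁ =
              (∑ i ∈ Finset.range e₁, w₁ ^ i * w₂ ^ (e₁ - 1 - i)) * (w₁ - w₂) :=
            (Commute.geom_sum₂_mul (Commute.all w₁ w₂) e₁).symm
          have h7 : IsUnit (∑ i ∈ Finset.range e₁, w₁ ^ i * w₂ ^ (e₁ - 1 - i)) := by
            apply unit_of_cc
            rw [map_sum]
            have h8 : ∀ i ∈ Finset.range e₁, PowerSeries.constantCoeff (w₁ ^ i * w₂ ^ (e₁ - 1 - i)) =
                PowerSeries.constantCoeff w₁ ^ (e₁ - 1) := by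
              intro i hi
              rw [Finset.mem_range] at hi
              rw [map_mul, map_pow, map_pow, ← hw, ← pow_add]
              congr 1; omega
            rw [Finset.sum_congr rfl h8, Finset.sum_const, Finset.card_range, nsmul_eq_mul]
            refine mul_ne_zero ?_ (pow_ne_zero _ hw0)
            exact_mod_cast (by omega : e₁ ≠ 0)
          rw [h6] at h5
          exact (h7.dvd_mul_left).1 h5
        have hπd : (PowerSeries.X : PowerSeries kk) ^ (M + 1) ∣ f₁ π - f₂ π := by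
          rw [p₁, p₂, ← mul_sub]
          have h9 : (PowerSeries.X : PowerSeries kk) ^ (c' + M) ∣ PowerSeries.X ^ c' * (w₁ - w₂) := by
            rw [pow_add]; exact mul_dvd_mul_left _ hw'
          exact (pow_dvd_pow _ (by omega)).trans h9
        intro a
        obtain ⟨A, hA⟩ := hres a
        obtain ⟨g', hg', hd⟩ := h2 (M + 1)
        have hA' : a - A.eval₂ jk g' ∈ m := by
          have h10 : A.eval₂ jk g' - A.eval₂ jk g ∈ m := by
            obtain ⟨r, hr⟩ := hsub jk A g' g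
            rw [hr]; exact m.mul_mem_right _ hg'
          have h11 : a - A.eval₂ jk g' = (a - A.eval₂ jk g) - (A.eval₂ jk g' - A.eval₂ jk g) := by ring
          rw [h11]; exact m.sub_mem hA h10
        obtain ⟨a', ha'⟩ := hm _ hA'
        have ha : a = A.eval₂ jk g' + π * a' := by rw [← ha']; ring
        have h12 : f₁ a - f₂ a = (A.eval₂ ιk (f₁ g') - A.eval₂ ιk (f₂ g')) +
            ((f₁ π - f₂ π) * f₁ a' + f₂ π * (f₁ a' - f₂ a')) := by
          rw [ha, map_add, map_add, map_mul, map_mul, fe₁, fe₂]; ring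
        rw [h12]
        refine dvd_add (hd.trans (hsub ιk A _ _)) (dvd_add (Dvd.dvd.mul_right hπd _) ?_)
        rw [pow_succ']
        refine mul_dvd_mul ?_ (ih a')
        rw [PowerSeries.X_dvd_iff]; exact l₂ π hπm
  ext n
  have h13 := claim (n + 1) a
  rw [PowerSeries.X_pow_dvd_iff] at h13
  have h14 := h13 n (by omega)
  rw [map_sub, sub_eq_zero] at h14
  exact h14

/-- a nonzero power series is a power of `X` times a unit -/
private theorem x_unit {kk : Type} [Field kk] {p : PowerSeries kk} (hp : p ≠ 0) :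
    ∃ (j : ℕ) (w : PowerSeries kk), p = PowerSeries.X ^ j * w ∧ PowerSeries.constantCoeff w ≠ 0 := by
  obtain ⟨n, hn⟩ := PowerSeries.exists_coeff_ne_zero_iff_ne_zero.2 hp
  classical
  have hex : ∃ n, PowerSeries.coeff n p ≠ 0 := ⟨n, hn⟩
  have hd : (PowerSeries.X : PowerSeries kk) ^ (Nat.find hex) ∣ p := by
    rw [PowerSeries.X_pow_dvd_iff]
    intro m hm
    by_contra h
    exact Nat.find_min hex hm h
  have h1 := Nat.find_spec hex
  generalize Nat.find hex = j at hd h1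
  obtain ⟨w, hw⟩ := hd
  refine ⟨j, w, hw, ?_⟩
  rw [hw, PowerSeries.coeff_X_pow_mul'] at h1
  simpa using h1

private theorem x_pow_eq {kk : Type} [Field kk] {i j : ℕ} {v w : PowerSeries kk}
    (hv : PowerSeries.constantCoeff v ≠ 0) (hw : PowerSeries.constantCoeff w ≠ 0)
    (h : (PowerSeries.X : PowerSeries kk) ^ i * v = PowerSeries.X ^ j * w) : i = j ∧ v = w := by
  have key : ∀ {i j : ℕ} {v w : PowerSeries kk}, PowerSeries.constantCoeff v ≠ 0 →
      (PowerSeries.X : PowerSeries kk) ^ i * v = PowerSeries.X ^ j * w → j ≤ i := by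
    intro i j v w hv h
    by_contra hlt
    push Not at hlt
    have h1 := congrArg (PowerSeries.coeff i) h
    rw [PowerSeries.coeff_X_pow_mul', PowerSeries.coeff_X_pow_mul', if_pos le_rfl, if_neg (by omega),
      Nat.sub_self, PowerSeries.coeff_zero_eq_constantCoeff_apply] at h1
    exact hv h1
  have h1 : i = j := le_antisymm (key hw h.symm) (key hv h)
  subst h1
  exact ⟨rfl, mul_left_cancel₀ (pow_ne_zero _ PowerSeries.X_ne_zero) h⟩

theorem unq {k L kk : Type} [Field k] [CharZero k] [Field L] [Algebra k L] [Field kk] [IsAlgClosed kk]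
    [Algebra k kk] {O : ValuationSubring L} (hO : ∀ c : k, algebraMap k L c ∈ O) {π : L} (hπ0 : π ≠ 0)
    (hπ : π ∈ O.nonunits) (huni : ∀ a ∈ O.nonunits, a / π ∈ O) {t : O} {e₁ : ℕ} (he₁ : 1 ≤ e₁)
    (ht0 : t ≠ 0) (ht1 : (t : L) / π ^ e₁ ∈ O) (ht2 : π ^ e₁ / (t : L) ∈ O) {g : O} {P : Polynomial k}
    (hP : Irreducible P) (hPg : Polynomial.aeval (g : L) P ∈ O.nonunits)
    (hres : ∀ a ∈ O, ∃ A : Polynomial k, a - Polynomial.aeval (g : L) A ∈ O.nonunits)
    {f₁ f₂ : O →+* PowerSeries kk} (h₁ : Ser k O f₁) (h₂ : Ser k O f₂) {c : kk} {e : ℕ} (hc : c ≠ 0)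
    (he : 1 ≤ e) (ht₁ : f₁ t = PowerSeries.C c * PowerSeries.X ^ e)
    (ht₂ : f₂ t = PowerSeries.C c * PowerSeries.X ^ e)
    (hgg : PowerSeries.constantCoeff (f₁ g) = PowerSeries.constantCoeff (f₂ g)) :
    ∃ ζ : kk, ζ ^ e = 1 ∧ ∀ a : O, f₂ a = PowerSeries.rescale ζ (f₁ a) := by
  have : CharZero kk := charZero_of_injective_algebraMap (algebraMap k kk).injective
  -- constants
  let jk : k →+* O := (algebraMap k L).codRestrict O.toSubring hO
  have hjk : ∀ c, ((jk c : O) : L) = algebraMap k L c := fun c => rfl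
  have hjev : ∀ (A : Polynomial k) (x : O), ((A.eval₂ jk x : O) : L) = Polynomial.aeval (x : L) A := by
    intro A x
    have h := Polynomial.hom_eval₂ A jk O.subtype x
    have h2 : O.subtype.comp jk = algebraMap k L := by ext c; rfl
    rw [h2] at h
    exact h
  set m := IsLocalRing.maximalIdeal O with hmdef
  have hmem : ∀ a : O, a ∈ m ↔ (a : L) ∈ O.nonunits := fun a =>
    (ValuationSubring.coe_mem_nonunits_iff (A := O)).symm
  have hπO : π ∈ O := O.nonunits_subset hπ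
  let π' : O := ⟨π, hπO⟩
  have hπ'm : π' ∈ m := (hmem π').2 hπ
  have hπ'0 : π' ≠ 0 := fun h => hπ0 (congrArg Subtype.val h)
  have hm : ∀ a ∈ m, π' ∣ a := by
    intro a ha
    refine ⟨⟨(a : L) / π, huni _ ((hmem a).1 ha)⟩, ?_⟩
    apply Subtype.ext
    show (a : L) = π * ((a : L) / π)
    field_simp
  -- the unit `u`
  let u : O := ⟨(t : L) / π ^ e₁, ht1⟩
  let u' : O := ⟨π ^ e₁ / (t : L), ht2⟩
  have ht0' : (t : L) ≠ 0 := fun h => ht0 (Subtype.ext h)
  have huu : u * u' = 1 := by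
    apply Subtype.ext
    show (t : L) / π ^ e₁ * (π ^ e₁ / (t : L)) = 1
    field_simp
  have hunit : IsUnit u := IsUnit.of_mul_eq_one _ huu
  have htu : t = π' ^ e₁ * u := by
    apply Subtype.ext
    show (t : L) = π ^ e₁ * ((t : L) / π ^ e₁)
    field_simp
  have hbase₁ : f₁.comp jk = (PowerSeries.C).comp (algebraMap k kk) := by
    ext1 c; exact h₁.base c (hO c)
  have hbase₂ : f₂.comp jk = (PowerSeries.C).comp (algebraMap k kk) := by
    ext1 c; exact h₂.base c (hO c)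
  have hl₁ : ∀ a ∈ m, PowerSeries.constantCoeff (f₁ a) = 0 := fun a ha => h₁.loc a ((hmem a).1 ha)
  have hl₂ : ∀ a ∈ m, PowerSeries.constantCoeff (f₂ a) = 0 := fun a ha => h₂.loc a ((hmem a).1 ha)
  have hres' : ∀ a : O, ∃ A : Polynomial k, a - A.eval₂ jk g ∈ m := by
    intro a
    obtain ⟨A, hA⟩ := hres a a.2
    refine ⟨A, (hmem _).2 ?_⟩
    have h : ((a - A.eval₂ jk g : O) : L) = (a : L) - Polynomial.aeval (g : L) A := by
      rw [← hjev]; rfl
    rw [h]; exact hA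
  have hN : ∀ N : ℕ, ∃ g' : O, g' - g ∈ m ∧ π' ^ N ∣ P.eval₂ jk g' := by
    intro N
    obtain ⟨g', hg', hgd, hd⟩ := nwt hO hπ0 hπ huni g.2 hP hPg N
    refine ⟨⟨g', hg'⟩, (hmem _).2 hgd, ⟨⟨_, hd⟩, ?_⟩⟩
    apply Subtype.ext
    rw [hjev]
    show Polynomial.aeval g' P = π ^ N * (Polynomial.aeval g' P / π ^ N)
    field_simp
  have h0 : ∀ a : O, PowerSeries.constantCoeff (f₁ a) = PowerSeries.constantCoeff (f₂ a) := by
    intro a
    obtain ⟨A, hA⟩ := hres' a
    have h1 := hl₁ _ hA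
    have h2 := hl₂ _ hA
    rw [map_sub, map_sub, sub_eq_zero, Polynomial.hom_eval₂, hbase₁, cc_eval₂] at h1
    rw [map_sub, map_sub, sub_eq_zero, Polynomial.hom_eval₂, hbase₂, cc_eval₂] at h2
    rw [h1, h2, hgg]
  have hder : P.derivative.eval₂ (algebraMap k kk) (PowerSeries.constantCoeff (f₁ g)) ≠ 0 := by
    intro hz
    have hP0 : P.eval₂ (algebraMap k kk) (PowerSeries.constantCoeff (f₁ g)) = 0 := by
      have h1 : P.eval₂ jk g ∈ m := by
        rw [hmem, hjev]; exact hPg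
      have h2 := hl₁ _ h1
      rwa [Polynomial.hom_eval₂, hbase₁, cc_eval₂] at h2
    obtain ⟨A, B, hAB⟩ := hP.separable
    have h3 := congrArg (Polynomial.eval₂ (algebraMap k kk) (PowerSeries.constantCoeff (f₁ g))) hAB
    rw [Polynomial.eval₂_add, Polynomial.eval₂_mul, Polynomial.eval₂_mul, hz, hP0, mul_zero, mul_zero,
      add_zero, Polynomial.eval₂_one] at h3
    exact zero_ne_one h3
  -- `f_i(π)`
  have hfu₁ : IsUnit (f₁ u) := hunit.map f₁
  have hfu₂ : IsUnit (f₂ u) := hunit.map f₂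
  have hcu₁ : PowerSeries.constantCoeff (f₁ u) ≠ 0 := by
    rw [PowerSeries.isUnit_iff_constantCoeff] at hfu₁; exact hfu₁.ne_zero
  have hcu₂ : PowerSeries.constantCoeff (f₂ u) ≠ 0 := by
    rw [PowerSeries.isUnit_iff_constantCoeff] at hfu₂; exact hfu₂.ne_zero
  have hpi : ∀ (f : O →+* PowerSeries kk), f t = PowerSeries.C c * PowerSeries.X ^ e →
      PowerSeries.constantCoeff (f u) ≠ 0 →
      ∃ (j : ℕ) (w : PowerSeries kk), f π' = PowerSeries.X ^ j * w ∧ PowerSeries.constantCoeff w ≠ 0 ∧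
        j * e₁ = e ∧ w ^ e₁ * f u = PowerSeries.C c := by
    intro f hf hcu
    have hne : f π' ≠ 0 := by
      intro h
      rw [htu, map_mul, map_pow, h, zero_pow (by omega), zero_mul] at hf
      have h1 := congrArg (PowerSeries.coeff e) hf
      rw [map_zero, PowerSeries.coeff_C_mul, PowerSeries.coeff_X_pow_self, mul_one] at h1
      exact hc h1.symm
    obtain ⟨j, w, h1, h2⟩ := x_unit hne
    have h3 : (PowerSeries.X : PowerSeries kk) ^ (j * e₁) * (w ^ e₁ * f u) =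
        PowerSeries.X ^ e * PowerSeries.C c := by
      rw [mul_comm (PowerSeries.X ^ e), ← hf, htu, map_mul, map_pow, h1, mul_pow, ← pow_mul, mul_assoc]
    have h4 := x_pow_eq (by rw [map_mul, map_pow]; exact mul_ne_zero (pow_ne_zero _ h2) hcu)
      (by rw [PowerSeries.constantCoeff_C]; exact hc) h3
    exact ⟨j, w, h1, h2, h4.1, h4.2⟩
  obtain ⟨c', w₁, p₁, hw₁, hce, q₁⟩ := hpi f₁ ht₁ hcu₁
  obtain ⟨c'', w₂, p₂, hw₂, hce', q₂⟩ := hpi f₂ ht₂ hcu₂
  have hcc : c'' = c' := Nat.eq_of_mul_eq_mul_right (by omega : 0 < e₁) (hce'.trans hce.symm)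
  subst hcc
  have hc1 : 1 ≤ c'' := by
    rcases Nat.eq_zero_or_pos c'' with h | h
    · rw [h, zero_mul] at hce; omega
    · exact h
  -- the rotation
  have hee : PowerSeries.constantCoeff w₁ ^ e₁ = PowerSeries.constantCoeff w₂ ^ e₁ := by
    have h1 := congrArg PowerSeries.constantCoeff q₁
    have h2 := congrArg PowerSeries.constantCoeff q₂
    rw [map_mul, map_pow] at h1 h2
    rw [h0 u] at h1
    exact mul_right_cancel₀ hcu₂ (h1.trans h2.symm)
  set ω := PowerSeries.constantCoeff w₂ / PowerSeries.constantCoeff w₁ with hω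
  have hω1 : ω ^ e₁ = 1 := by
    rw [hω, div_pow, hee, div_self (pow_ne_zero _ hw₂)]
  obtain ⟨ζ, hζ⟩ := IsAlgClosed.exists_pow_nat_eq ω (by omega : 0 < c'')
  have hζe : ζ ^ e = 1 := by rw [← hce, pow_mul, hζ, hω1]
  refine ⟨ζ, hζe, ?_⟩
  have hrC : ∀ b : kk, PowerSeries.rescale ζ (PowerSeries.C b) = PowerSeries.C b := by
    intro b
    ext n
    rw [PowerSeries.coeff_rescale, PowerSeries.coeff_C]
    split_ifs with h
    · rw [h, pow_zero, one_mul]
    · rw [mul_zero]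
  have hrcc : ∀ p : PowerSeries kk, PowerSeries.constantCoeff (PowerSeries.rescale ζ p) =
      PowerSeries.constantCoeff p := by
    intro p
    rw [← PowerSeries.coeff_zero_eq_constantCoeff_apply, PowerSeries.coeff_rescale, pow_zero, one_mul,
      PowerSeries.coeff_zero_eq_constantCoeff_apply]
  have hcore := core jk m hm hπ'm hN hres' (f₁ := (PowerSeries.rescale ζ).comp f₁) (f₂ := f₂)
    (by
      rw [RingHom.comp_assoc, hbase₁]
      ext1 b
      exact hrC _)
    hbase₂ (fun a ha => (hrcc _).trans (hl₁ a ha)) hl₂ ((hrcc _).trans hgg)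
    (by
      have h5 : PowerSeries.constantCoeff (((PowerSeries.rescale ζ).comp f₁) g) =
        PowerSeries.constantCoeff (f₁ g) := hrcc _
      rw [h5]; exact hder)
    (u := u) (hfu₁.map (PowerSeries.rescale ζ)) he₁ hc1
    (w₁ := PowerSeries.C ω * PowerSeries.rescale ζ w₁) (w₂ := w₂)
    (by
      show PowerSeries.rescale ζ (f₁ π') = _
      rw [p₁, map_mul, map_pow, PowerSeries.rescale_X, mul_pow, ← hζ, map_pow]
      ring)
    p₂
    (by
      rw [map_mul, PowerSeries.constantCoeff_C, hrcc, hω, div_mul_cancel₀ _ hw₁])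
    (by
      rw [map_mul, PowerSeries.constantCoeff_C, hrcc, hω, div_mul_cancel₀ _ hw₁]
      exact hw₂)
    (by
      have h6 : ((PowerSeries.rescale ζ).comp f₁) u * (PowerSeries.C ω * PowerSeries.rescale ζ w₁) ^ e₁ =
          PowerSeries.C (ω ^ e₁) * PowerSeries.rescale ζ (w₁ ^ e₁ * f₁ u) := by
        show PowerSeries.rescale ζ (f₁ u) * _ = _
        rw [map_mul, map_pow, map_pow]
        ring
      rw [h6, q₁, hω1, hrC, map_one, one_mul, ← q₂, mul_comm])
  intro a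
  exact (hcore a).symm

end Pool.Agent.H85.LK
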